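import Pool.Agent.HexSPR.LatAd
import Pool.Agent.PHW.Jump
import Pool.Agent.PHW.FirstCut
import Pool.Agent.PHW.Num2

/-!
KILL, part A: the rate of the lateral extent, absence of cuts in an interval for bridges of a given height.
-/

set_option autoImplicit false

namespace HexObs

namespace Ex

open Complex Finset ENNReal

lemma BT_eq (T : ℕ) : BT T = ENNReal.ofReal (uu T) := by
  unfold uu
  rw [ENNReal.ofReal_toReal]
  rcases Nat.eq_zero_or_pos T with h0 | h0
  · rw [h0, ← gf_Brd, Brd_zero]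
    unfold gf
    rw [tsum_singleton (f := wE)]
    exact wE_ne_top _
  · exact BT_ne_top h0

lemma gfB_le {T : ℕ} {P : Set (List Bool)} (hP : P ⊆ Brd T) : gf P ≤ ENNReal.ofReal (uu T) := by
  rw [← BT_eq, ← gf_Brd]
  exact gf_mono hP

/-- rate of the decay of the lateral extent. -/
def LatR (C0 q : ℝ) : Prop := ∀ M T : ℕ, 1 ≤ T →
  gf {t | t ∈ Brd T ∧ ∃ i, i ≤ t.length ∧ (M * T : ℤ) < |lat t i|} ≤ ENNReal.ofReal (C0 * q ^ M * uu T)

/-- the rate from the two facts of the tube lemma. -/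
theorem latR_of
    (lat1 : ∀ T m : ℕ, 1 ≤ T → 1 ≤ m → (sc T (m * T)).toReal ≤ 6000 * (2 - Real.sqrt 2) ^ m * bT T)
    (sc_top : ∀ T r : ℕ, 1 ≤ T → 1 ≤ r → sc T r ≠ ∞)
    (far_le : ∀ T r : ℕ, 1 ≤ T → 1 ≤ r →
      gf {t | t ∈ Br (St T) ∅ oo up ∧ ∃ i, i ≤ t.length + 1 ∧ (3 * r : ℤ) ≤ ip (vx oo up t i - oo) (rotR up)} ≤
        sc T r) : ∃ C0 q : ℝ, 0 < C0 ∧ 0 < q ∧ q < 1 ∧ LatR C0 q := by
  have hs2 : 1 < Real.sqrt 2 := by
    rw [Real.lt_sqrt (by norm_num)]; norm_num
  have hs3 : Real.sqrt 2 < 2 := by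
    rw [Real.sqrt_lt' (by norm_num)]; norm_num
  set r := 2 - Real.sqrt 2 with hr
  have hr0 : 0 < r := by linarith
  have hr1 : r < 1 := by linarith
  set q := Real.sqrt r with hq
  have hq0 : 0 < q := Real.sqrt_pos.2 hr0
  have hq1 : q < 1 := by
    rw [hq, Real.sqrt_lt' (by norm_num)]
    linarith
  have hqq : q ^ 2 = r := Real.sq_sqrt hr0.le
  -- even multiples
  have even : ∀ m T : ℕ, 1 ≤ m → 1 ≤ T →
      gf {t | t ∈ Brd T ∧ ∃ i, i ≤ t.length ∧ ((2 * m : ℕ) * T : ℤ) < |lat t i|} ≤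
        ENNReal.ofReal (12000 * r ^ m * uu T) := by
    intro m T hm hT
    have hr : 1 ≤ m * T := Nat.mul_pos hm hT
    have h1 := lat1 T m hT hm
    have h2 := far_le T (m * T) hT hr
    set R := {t | t ∈ Br (St T) ∅ oo up ∧ ∃ i, i ≤ t.length + 1 ∧
      (3 * (m * T : ℕ) : ℤ) ≤ ip (vx oo up t i - oo) (rotR up)} with hR
    have key : ∀ t ∈ Brd T, ∀ i, i ≤ t.length → (2 * m * T : ℤ) < lat t i → t ∈ R := by
      intro t ht i hi h
      refine ⟨ht, i, by omega, ?_⟩
      have h3 := ip_rot (vx oo up t i - oo)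
      rw [lev_sub] at h3
      have h4 : (vx oo up t i - oo).1 = lat t i := by
        unfold lat oo
        simp only [cross, up, Prod.fst_sub]
        ring
      rw [h4] at h3
      have h5 : 0 ≤ lev t i := by
        rcases Nat.eq_zero_or_pos i with h0 | h0
        · rw [h0, lev_zero]
        · exact ((mem_Brd.1 ht).1 i h0 hi).1.le
      push_cast
      nlinarith
    have hsub : {t | t ∈ Brd T ∧ ∃ i, i ≤ t.length ∧ ((2 * m : ℕ) * T : ℤ) < |lat t i|} ⊆
        R ∪ {t | t.map not ∈ R} := by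
      rintro t ⟨ht, i, hi, h⟩
      push_cast at h
      rcases abs_cases (lat t i) with ⟨h3, _⟩ | ⟨h3, _⟩
      · rw [h3] at h
        exact Or.inl (key t ht i hi h)
      · rw [h3] at h
        right
        apply key (t.map not) (Brd_not ht) i (by rw [List.length_map]; exact hi)
        rw [lat_not t (by omega)]
        exact h
    have h3 : gf {t | t.map not ∈ R} ≤ gf R := by
      have := gf_le_of_inj (P := {t | t.map not ∈ R}) (Q := R) (fun t => t.map not) (fun t ht => ht) (by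
        intro s _ t _ hst
        have := congrArg (List.map not) hst
        rwa [map_not_not, map_not_not] at this) 1 (by
        intro t _
        rw [one_mul, wE_map_not])
      rwa [one_mul] at this
    have h4 : gf R ≤ ENNReal.ofReal (6000 * r ^ m * bT T) := by
      refine h2.trans ?_
      rw [← ENNReal.ofReal_toReal (sc_top T (m * T) hT hr)]
      exact ENNReal.ofReal_le_ofReal h1
    have hb := bT_nonneg T
    calc gf {t | t ∈ Brd T ∧ ∃ i, i ≤ t.length ∧ ((2 * m : ℕ) * T : ℤ) < |lat t i|} ≤ gf R + gf {t | t.map not ∈ R} :=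
          (gf_mono hsub).trans (gf_union_le _ _)
      _ ≤ ENNReal.ofReal (6000 * r ^ m * bT T) + ENNReal.ofReal (6000 * r ^ m * bT T) := add_le_add h4 (h3.trans h4)
      _ = ENNReal.ofReal (12000 * r ^ m * uu T) := by
          rw [← ENNReal.ofReal_add (by positivity) (by positivity), uu_eq hT]
          congr 1
          ring
  refine ⟨12000 / q, q, by positivity, hq0, hq1, ?_⟩
  intro M T hT
  have hu := (uu_pos T).le
  have hC : 1 ≤ 12000 / q := by
    rw [le_div_iff₀ hq0]
    linarith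
  rcases Nat.lt_or_ge M 2 with hM | hM
  · refine (gfB_le (T := T) fun t ht => ht.1).trans (ENNReal.ofReal_le_ofReal ?_)
    have h1 : 1 ≤ 12000 / q * q ^ M := by
      rcases Nat.lt_or_ge M 1 with h | h
      · have : M = 0 := by omega
        rw [this, pow_zero, mul_one]
        exact hC
      · have : M = 1 := by omega
        rw [this, pow_one, div_mul_cancel₀ _ hq0.ne']
        norm_num
    calc uu T = 1 * uu T := (one_mul _).symm
      _ ≤ _ := mul_le_mul_of_nonneg_right h1 hu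
  · set m := M / 2 with hm
    have h1 := even m T (by omega) hT
    have hsub : {t | t ∈ Brd T ∧ ∃ i, i ≤ t.length ∧ (M * T : ℤ) < |lat t i|} ⊆
        {t | t ∈ Brd T ∧ ∃ i, i ≤ t.length ∧ ((2 * m : ℕ) * T : ℤ) < |lat t i|} := by
      rintro t ⟨ht, i, hi, h⟩
      refine ⟨ht, i, hi, lt_of_le_of_lt ?_ h⟩
      have h2 : 2 * m * T ≤ M * T := Nat.mul_le_mul_right T (by omega)
      exact_mod_cast h2
    refine (gf_mono hsub).trans (h1.trans (ENNReal.ofReal_le_ofReal ?_))
    apply mul_le_mul_of_nonneg_right _ hu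
    rw [← hqq, ← pow_mul]
    have h3 : q ^ (2 * m + 1) ≤ q ^ M := pow_le_pow_of_le_one hq0.le hq1.le (by omega)
    calc 12000 * q ^ (2 * m) = 12000 / q * (q ^ (2 * m + 1)) := by
          rw [pow_succ]
          field_simp
      _ ≤ 12000 / q * q ^ M := mul_le_mul_of_nonneg_left h3 (by positivity)

open Filter Topology in
theorem lat0_of_latR {C0 q : ℝ} (hq0 : 0 < q) (hq1 : q < 1) (h : LatR C0 q) : Lat0 := by
  intro ε hε
  have hlim : Tendsto (fun m : ℕ => C0 * q ^ m) atTop (𝓝 (C0 * 0)) :=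
    (_root_.tendsto_pow_atTop_nhds_zero_of_lt_one hq0.le hq1).const_mul _
  rw [mul_zero] at hlim
  obtain ⟨m, hm⟩ := (hlim.eventually (gt_mem_nhds hε)).exists
  refine ⟨m, ?_⟩
  intro T hT
  refine (h m T hT).trans (ENNReal.ofReal_le_ofReal ?_)
  rw [uu_eq hT]
  exact mul_le_mul_of_nonneg_right hm.le (bT_nonneg T)

/-! no cut -/

lemma CWp : 0 < 6 + CW := by
  have := Num2Aux.CW_pos
  linarith

/-- the pieces of length at least R. -/
lemma T1 {m R : ℕ} (hm : 1 ≤ m) : ∑ r ∈ Finset.Icc R m, kk r * uu (m - r) ≤ uu m * KK' R := by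
  rcases Nat.lt_or_ge m R with hR | hR
  · rw [Finset.Icc_eq_empty (by omega), Finset.sum_empty]
    exact mul_nonneg (uu_pos m).le (KK_nonneg R)
  · have h1 := renewal_real hm
    have h2 : ∑ r ∈ Finset.Icc 1 m, kk r * uu (m - r) = ∑ r ∈ Finset.range (m + 1), kk r * uu (m - r) := by
      rw [Finset.range_eq_Ico, Finset.sum_eq_sum_Ico_succ_bot (by omega), kk_zero, zero_mul, zero_add]
      rfl
    have h3 : ∑ r ∈ Finset.range (m + 1), kk r * uu (m - r) =
        ∑ r ∈ Finset.range R, kk r * uu (m - r) + ∑ r ∈ Finset.Ico R (m + 1), kk r * uu (m - r) :=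
      (Finset.sum_range_add_sum_Ico _ (by omega)).symm
    have h4 : Finset.Ico R (m + 1) = Finset.Icc R m := by
      ext r
      simp only [Finset.mem_Ico, Finset.mem_Icc]
      omega
    have h5 : uu m * ∑ r ∈ Finset.range R, kk r ≤ ∑ r ∈ Finset.range R, kk r * uu (m - r) := by
      rw [Finset.mul_sum]
      apply Finset.sum_le_sum
      intro r _
      rw [mul_comm]
      exact mul_le_mul_of_nonneg_left (uu_anti (by omega)) (kk_nonneg r)
    rw [h4] at h3
    unfold KK'
    rw [mul_sub, mul_one]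
    linarith

/-- bridges of height n without cuts in [s, S). -/
def NC (s S n : ℕ) : Set (List Bool) := {t | t ∈ Brd n ∧ ∀ c, s ≤ c → c < S → ¬ Cut t c}

lemma kap_eq (r : ℕ) : kap' r = ENNReal.ofReal (kk r) := by
  unfold kk
  rw [ENNReal.ofReal_toReal]
  refine ne_top_of_le_ne_top ?_ (gf_mono (fun t ht => ht.1) : kap' r ≤ gf (Brd r))
  rw [gf_Brd, BT_eq]
  exact ENNReal.ofReal_ne_top

lemma uu_half {n j : ℕ} (h : 2 * j ≤ n) : uu (n - j) ≤ 2 * (6 + CW) * uu n := by
  have hC := CWp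
  have h0 := uu_pos n
  rcases Nat.eq_zero_or_pos n with hn | hn
  · subst hn
    rw [Nat.zero_sub]
    have := Num2Aux.CW_pos
    nlinarith
  · have h1 : uu (n - j) ≤ uu ((n + 1) / 2) := uu_anti (by omega)
    have h2 := uu_double (T := (n + 1) / 2) (by omega)
    have h3 : uu (2 * ((n + 1) / 2)) ≤ uu n := uu_anti (by omega)
    calc uu (n - j) ≤ uu ((n + 1) / 2) := h1
      _ ≤ 2 * (6 + CW) * uu (2 * ((n + 1) / 2)) := h2
      _ ≤ 2 * (6 + CW) * uu n := mul_le_mul_of_nonneg_left h3 (by positivity)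

lemma nc_dec {s S n : ℕ} (hs : 1 ≤ s) (hsS : s ≤ S) (hS : S ≤ n) : NC s S n ⊆
    ⋃ j ∈ Finset.range s, ⋃ r ∈ Finset.Icc (S - j) (n - j),
      cat (Brd j) (cat (Irr r) (Brd (n - j - r))) := by
  rintro t ⟨ht, hc⟩
  obtain ⟨j, r, a, p, u, h1, h2, h3, ha, hp, hu, e⟩ := jump_dec (s := s - 1) (n := n) (by omega) ht
  simp only [Set.mem_iUnion]
  refine ⟨j, Finset.mem_range.2 (by omega), r, Finset.mem_Icc.2 ⟨?_, by omega⟩, a, p ++ u, ha, ⟨p, u, hp, hu, rfl⟩, ?_⟩
  · by_contra hcon
    have hcut : Cut t (j + r) := ⟨a ++ p, u, n - j - r, Brd_append ha hp.1, hu, e⟩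
    exact hc (j + r) (by omega) (by omega) hcut
  · rw [e, List.append_assoc]

/-- the probability that there is no cut in [s, (W + 1) s). -/
theorem E1 {s W n : ℕ} (hs : 1 ≤ s) (hW : 1 ≤ W) (hn : 2 * s ≤ n) :
    gf (NC s ((W + 1) * s) n) ≤ ENNReal.ofReal (4 * (6 + CW) * (W : ℝ) ^ (-(1 / (6 + CW))) * uu n) := by
  have hC := CWp
  set S := (W + 1) * s with hS
  have hsS : s ≤ S := by
    rw [hS]
    nlinarith
  rcases Nat.lt_or_ge n S with hlt | hge
  · have h0 : NC s S n = ∅ := by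
      ext t
      simp only [Set.mem_empty_iff_false, iff_false]
      rintro ⟨ht, hc⟩
      exact hc n (by omega) hlt ⟨t, [], 0, ht, nil_mem_Brd, (List.append_nil t).symm⟩
    rw [h0]
    unfold gf
    simp
  · have h1 : gf (NC s S n) ≤ ∑ j ∈ Finset.range s, ∑ r ∈ Finset.Icc (S - j) (n - j),
        ENNReal.ofReal (uu j * (kk r * uu (n - j - r))) := by
      refine (gf_mono (nc_dec hs hsS hge)).trans ((ENNReal.tsum_biUnion_le wE _ _).trans ?_)
      apply Finset.sum_le_sum
      intro j _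
      refine (ENNReal.tsum_biUnion_le wE _ _).trans ?_
      apply Finset.sum_le_sum
      intro r _
      refine (gf_cat_le _ _).trans ?_
      rw [gf_Brd, BT_eq, ENNReal.ofReal_mul (uu_pos j).le]
      refine mul_le_mul_right ?_ _
      refine (gf_cat_le _ _).trans ?_
      rw [gf_Brd, BT_eq, ENNReal.ofReal_mul (kk_nonneg r)]
      have : gf (Irr r) = kap' r := rfl
      rw [this, kap_eq]
    have h2 : ∑ j ∈ Finset.range s, ∑ r ∈ Finset.Icc (S - j) (n - j), uu j * (kk r * uu (n - j - r)) ≤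
        2 * (6 + CW) * uu n * (UU (s - 1) / UU (S - 1 - (s - 1))) := by
      have h3 : ∀ j ∈ Finset.range s, ∑ r ∈ Finset.Icc (S - j) (n - j), uu j * (kk r * uu (n - j - r)) ≤
          2 * (6 + CW) * uu n * (uu j * KK' (S - 1 + 1 - j)) := by
        intro j hj
        rw [Finset.mem_range] at hj
        rw [← Finset.mul_sum]
        have h4 := T1 (m := n - j) (R := S - j) (by omega)
        have h5 := uu_half (n := n) (j := j) (by omega)
        have h6 : S - 1 + 1 - j = S - j := by omega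
        rw [h6]
        have hK := KK_nonneg (S - j)
        calc uu j * ∑ r ∈ Finset.Icc (S - j) (n - j), kk r * uu (n - j - r) ≤ uu j * (uu (n - j) * KK' (S - j)) :=
              mul_le_mul_of_nonneg_left h4 (uu_pos j).le
          _ ≤ uu j * (2 * (6 + CW) * uu n * KK' (S - j)) :=
              mul_le_mul_of_nonneg_left (mul_le_mul_of_nonneg_right h5 hK) (uu_pos j).le
          _ = _ := by ring
      refine (Finset.sum_le_sum h3).trans ?_
      rw [← Finset.mul_sum]
      have h7 := no_cut (s := s - 1) (S := S - 1) (by omega)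
      have h8 : s - 1 + 1 = s := by omega
      rw [h8] at h7
      exact mul_le_mul_of_nonneg_left h7 (mul_nonneg (by positivity) (uu_pos n).le)
    have h3 : UU (s - 1) / UU (S - 1 - (s - 1)) ≤ 2 * (W : ℝ) ^ (-(1 / (6 + CW))) := by
      have e1 : S - 1 - (s - 1) = W * s := by
        have : S = W * s + s := by rw [hS]; ring
        omega
      rw [e1]
      have hWp : (0 : ℝ) < W := by exact_mod_cast hW
      have hsp : (0 : ℝ) < s := by exact_mod_cast hs
      have h4 := UU_growth (s := s) (T := W * s) hs (by nlinarith)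
      have e2 : ((W * s : ℕ) : ℝ) / s = W := by
        push_cast
        field_simp
      rw [e2] at h4
      have h5 : 0 < UU (W * s) := Num2Aux.UU_pos _
      have h6 : UU (s - 1) ≤ UU s := Num2Aux.UU_mono (by omega)
      rw [div_le_iff₀ h5, Real.rpow_neg hWp.le]
      have h7 : 0 < (W : ℝ) ^ (1 / (6 + CW)) := Real.rpow_pos_of_pos hWp _
      rw [mul_comm 2, mul_assoc, inv_mul_eq_div, le_div_iff₀ h7]
      exact (mul_le_mul_of_nonneg_right h6 h7.le).trans h4
    refine h1.trans ?_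
    have h4 : ∑ j ∈ Finset.range s, ∑ r ∈ Finset.Icc (S - j) (n - j),
        ENNReal.ofReal (uu j * (kk r * uu (n - j - r))) =
        ENNReal.ofReal (∑ j ∈ Finset.range s, ∑ r ∈ Finset.Icc (S - j) (n - j), uu j * (kk r * uu (n - j - r))) := by
      have hnn : ∀ j r, 0 ≤ uu j * (kk r * uu (n - j - r)) := fun j r =>
        mul_nonneg (uu_pos j).le (mul_nonneg (kk_nonneg r) (uu_pos _).le)
      rw [ENNReal.ofReal_sum_of_nonneg (fun j _ => Finset.sum_nonneg fun r _ => hnn j r)]
      apply Finset.sum_congr rfl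
      intro j _
      rw [ENNReal.ofReal_sum_of_nonneg (fun r _ => hnn j r)]
    rw [h4]
    apply ENNReal.ofReal_le_ofReal
    refine h2.trans ?_
    have h5 : 0 ≤ 2 * (6 + CW) * uu n := mul_nonneg (by positivity) (uu_pos n).le
    calc 2 * (6 + CW) * uu n * (UU (s - 1) / UU (S - 1 - (s - 1))) ≤
        2 * (6 + CW) * uu n * (2 * (W : ℝ) ^ (-(1 / (6 + CW)))) := mul_le_mul_of_nonneg_left h3 h5
      _ = _ := by ring

end Ex

end HexObs
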