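import Pool.Agent.HexSPR.KillG
import Pool.Agent.HexTube.Final

/-!
The unconditional forms: lateral extent, relative decay, (SPR), sweep, KILL.
-/

set_option autoImplicit false

namespace HexObs

namespace Ex

open Complex Finset ENNReal

/-- LATR: P(the lateral extent of a bridge of height T exceeds M T) ≤ C0 q^M. -/
theorem latR : ∃ C0 q : ℝ, 0 < C0 ∧ 0 < q ∧ q < 1 ∧ LatR C0 q :=
  latR_of (fun T m hT hm => Tube.lat1 T m hT hm) (fun T r hT hr => Tube.sc_top T r hT hr)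
    (fun T r hT hr => Tube.far_le T r hT hr)

theorem lat0 : Lat0 := by
  obtain ⟨C0, q, _, h1, h2, h3⟩ := latR
  exact lat0_of_latR h1 h2 h3

theorem lat1u : ∃ C : ℕ, Lat1 (1 / 2) C := lat1_of_lat0 lat0

/-- relative decay of the bridge weights: T (b T - b (T + 1)) ≥ c b T. -/
theorem relDecay : ∃ c : ℝ, 0 < c ∧ RelDecay c := by
  obtain ⟨C, hC⟩ := lat1u
  exact ⟨_, by positivity, relDecay_of_lat (by norm_num : (0 : ℝ) < 1 / 2) hC⟩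

/-- (SPR) for every A: the end of a bridge of height T is beyond A T on the right with probability at least a. -/
theorem SPR (A : ℕ) : ∃ a : ℝ, 0 < a ∧ ∀ T : ℕ, 1 ≤ T → a * bT T ≤ mT T (A * T) := by
  obtain ⟨C, hC⟩ := lat1u
  exact spr_of_lat (by norm_num) hC A

/-- (SPR) in a box. -/
theorem SPR_box (A : ℕ) : ∃ (a : ℝ) (M : ℕ), 0 < a ∧ ∀ T : ℕ, 1 ≤ T → ENNReal.ofReal (a * bT T) ≤
    gf {t | t ∈ Brd T ∧ (A * T : ℤ) ≤ latE t ∧ ∀ i, i ≤ t.length → |lat t i| ≤ M * T} :=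
  far_box lat0 A

/-- (SW): sweep to the right with small extent to the left. -/
theorem SW (A m : ℕ) (hm : 1 ≤ m) : ∃ (p : ℝ) (C h1 : ℕ), 0 < p ∧ ∀ h : ℕ, h1 ≤ h →
    ∃ Q : Set (List Bool), IsCode Q ∧ (∀ q ∈ Q, ∃ t, h ≤ 4 * t ∧ t ≤ h ∧ q ∈ Brd t ∧ (A * h : ℤ) ≤ latE q ∧
      ∀ i, i ≤ q.length → -(h : ℤ) ≤ m * lat q i ∧ lat q i ≤ C * h) ∧ ENNReal.ofReal p ≤ gf Q :=
  sw_code lat0 A m hm

/-- (KILL). -/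
theorem kill (A : ℕ) {θ : ℝ} (hθ : 0 < θ) :
    ∃ ε C : ℝ, 0 < ε ∧ ε < 1 ∧ 0 < C ∧ ∀ (K : ℕ → ℤ → Prop) (f : ℕ) (x : ℤ) (i n : ℕ) (H : Finset ℕ),
      f ≤ 2 ^ i → x.natAbs ≤ 2 ^ i → (∀ k ∈ H, i < k ∧ 2 ^ k ≤ f + n ∧ θ * 2 ^ k ≤ (rowsK K A (2 ^ k)).card) →
      gf {N | N ∈ Brd n ∧ ¬ Dead K f x N} ≤ ENNReal.ofReal (C * (1 - ε) ^ H.card * uu n) := by
  obtain ⟨C0, q, h0, h1, h2, h3⟩ := latR
  exact KILL h0 h1 h2 h3 A hθ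

/-- (KILL), mirror image. -/
theorem killL (A : ℕ) {θ : ℝ} (hθ : 0 < θ) :
    ∃ ε C : ℝ, 0 < ε ∧ ε < 1 ∧ 0 < C ∧ ∀ (K : ℕ → ℤ → Prop) (f : ℕ) (x : ℤ) (i n : ℕ) (H : Finset ℕ),
      f ≤ 2 ^ i → x.natAbs ≤ 2 ^ i → (∀ k ∈ H, i < k ∧ 2 ^ k ≤ f + n ∧ θ * 2 ^ k ≤ (rowsL K A (2 ^ k)).card) →
      gf {N | N ∈ Brd n ∧ ¬ DeadL K f x N} ≤ ENNReal.ofReal (C * (1 - ε) ^ H.card * uu n) := by
  obtain ⟨C0, q, h0, h1, h2, h3⟩ := latR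
  exact KILL_L h0 h1 h2 h3 A hθ

/-- (KILL) beside a fixed walk on the right. -/
theorem killPath (A : ℕ) {θ : ℝ} (hθ : 0 < θ) :
    ∃ ε C : ℝ, 0 < ε ∧ ε < 1 ∧ 0 < C ∧ ∀ (a m : ℕ) (k : ℤ) (t : List Bool) (H : Finset ℕ), 0 < k →
      (∀ i, 1 ≤ i → i ≤ m → 0 < lev t i ∧ lev t i ≤ 3 * a) →
      (∀ l ∈ H, 0 < l ∧ 2 ^ l ≤ a ∧ θ * 2 ^ l ≤ (rowsK (KP t m k) A (2 ^ l)).card) →
      gf {N | N ∈ Brd a ∧ ∀ i, 1 ≤ i → i ≤ N.length → ∀ j, 1 ≤ j → j ≤ m →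
        vx (foot oo up 0) up N i ≠ vx (foot oo up k) up t j} ≤ ENNReal.ofReal (C * (1 - ε) ^ H.card * uu a) := by
  obtain ⟨C0, q, h0, h1, h2, h3⟩ := latR
  exact KILL_path h0 h1 h2 h3 A hθ

/-- height and position of the first cut above s, for bridges of height n ≥ 2 s. -/
theorem firstCut : ∃ C2 : ℝ, 1 ≤ C2 ∧ ∀ s W n : ℕ, 1 ≤ s → 1 ≤ W → 2 * s ≤ n →
    gf (FCfar s ((W + 1) * s) ((W * (2 * ((W + 1) * s)) : ℕ) : ℤ) n) ≤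
      ENNReal.ofReal (C2 * (W : ℝ) ^ (-(1 / (6 + CW))) * uu n) := by
  obtain ⟨C0, q, h0, h1, h2, h3⟩ := latR
  exact E2 h0 h1 h2 h3

end Ex

end HexObs
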