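import Pool.Agent.HexSPR.Rel
import Pool.Agent.PHW.Mirror
import Pool.Agent.PHW.Cuts
import Pool.Agent.PHW.Num3

/-!
(SPR) in the vocabulary of bridge words; prefix codes of bridges that go far to the right.
-/

set_option autoImplicit false

namespace HexObs

namespace Ex

open Complex Finset ENNReal

/-! ends -/

lemma tip_fst {T : ℕ} {t : List Bool} (ht : t ∈ Brd T) : (tip oo up t).1 = latE t := by
  have h := (mem_Brd.1 ht).2.2.1
  have e1 : tip oo up t = vx oo up t t.length + up := by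
    rw [tip_eq, h]
  rw [e1]
  unfold latE lat
  simp only [cross, up, Prod.fst_add]
  ring

lemma brE_Brd (T : ℕ) (W : Set ℤ) :
    BrE (St T) ∅ (foot oo up 0) up {w | w.1 ∈ W} = {t | t ∈ Brd T ∧ latE t ∈ W} := by
  ext t
  rw [foot_oo]
  constructor
  · rintro ⟨h1, h2⟩
    have h1' : t ∈ Brd T := h1
    refine ⟨h1', ?_⟩
    rw [← tip_fst h1']
    exact h2
  · rintro ⟨h1, h2⟩
    refine ⟨h1, ?_⟩
    rw [← tip_fst h1] at h2
    exact h2

/-- the tail of the end of a bridge. -/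
lemma mT_eq (T : ℕ) (z : ℤ) : mT T z = (gf {t | t ∈ Brd T ∧ z ≤ latE t}).toReal := by
  unfold mT mE
  have h := brE_Brd T {x | z ≤ x}
  have h2 : (hl z : Set Pt) = {w | w.1 ∈ {x : ℤ | z ≤ x}} := rfl
  rw [h2, h]
  rfl

/-- LAT0: the lateral extent of a bridge of height T is at most M T with high probability. -/
def Lat0 : Prop := ∀ ε : ℝ, 0 < ε → ∃ M : ℕ, ∀ T : ℕ, 1 ≤ T →
  gf {t | t ∈ Brd T ∧ ∃ i, i ≤ t.length ∧ (M * T : ℤ) < |lat t i|} ≤ ENNReal.ofReal (ε * bT T)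

lemma gf_Brd_ne_top {T : ℕ} (hT : 1 ≤ T) {P : Set (List Bool)} (hP : P ⊆ Brd T) : gf P ≠ ∞ := by
  apply ne_top_of_le_ne_top (BT_ne_top hT)
  rw [← gf_Brd]
  exact gf_mono hP

lemma gf_Brd_real {T : ℕ} : (gf (Brd T)).toReal = bT T := by
  rw [gf_Brd]
  rfl

theorem lat1_of_lat0 (h : Lat0) : ∃ C : ℕ, Lat1 (1 / 2) C := by
  obtain ⟨M, hM⟩ := h (1 / 2) (by norm_num)
  refine ⟨M, ?_⟩
  intro T hT
  have h1 := hM T hT
  have e : BrE (St T) ∅ oo up {w | |w.1| ≤ M * T} = {t | t ∈ Brd T ∧ |latE t| ≤ M * T} := by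
    have := brE_Brd T {x | |x| ≤ (M * T : ℤ)}
    rw [foot_oo] at this
    exact this
  rw [e]
  have hsub : Brd T ⊆ {t | t ∈ Brd T ∧ |latE t| ≤ M * T} ∪
      {t | t ∈ Brd T ∧ ∃ i, i ≤ t.length ∧ (M * T : ℤ) < |lat t i|} := by
    intro t ht
    rcases le_or_gt |latE t| (M * T : ℤ) with h2 | h2
    · exact Or.inl ⟨ht, h2⟩
    · exact Or.inr ⟨ht, t.length, le_rfl, h2⟩
  have h2 := (gf_mono hsub).trans (gf_union_le _ _)
  have t1 := gf_Brd_ne_top hT (P := {t | t ∈ Brd T ∧ |latE t| ≤ M * T}) (fun _ h => h.1)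
  have h3 : gf (Brd T) ≤ gf {t | t ∈ Brd T ∧ |latE t| ≤ M * T} + ENNReal.ofReal (1 / 2 * bT T) :=
    h2.trans (add_le_add_right h1 _)
  have h4 := ENNReal.toReal_mono (ENNReal.add_ne_top.2 ⟨t1, ENNReal.ofReal_ne_top⟩) h3
  rw [gf_Brd_real, ENNReal.toReal_add t1 ENNReal.ofReal_ne_top,
    ENNReal.toReal_ofReal (mul_nonneg (by norm_num) (bT_nonneg T))] at h4
  linarith

/-- bridges that go far to the right inside a box. -/
theorem far_box (h : Lat0) (A : ℕ) : ∃ (a : ℝ) (M : ℕ), 0 < a ∧ ∀ T : ℕ, 1 ≤ T →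
    ENNReal.ofReal (a * bT T) ≤
      gf {t | t ∈ Brd T ∧ (A * T : ℤ) ≤ latE t ∧ ∀ i, i ≤ t.length → |lat t i| ≤ M * T} := by
  obtain ⟨C, hC⟩ := lat1_of_lat0 h
  obtain ⟨a, ha, hspr⟩ := spr_of_lat (by norm_num) hC A
  obtain ⟨M, hM⟩ := h (a / 2) (by positivity)
  refine ⟨a / 2, M, by positivity, ?_⟩
  intro T hT
  have h1 := hspr T hT
  rw [mT_eq] at h1
  have h2 := hM T hT
  set P := {t | t ∈ Brd T ∧ (A * T : ℤ) ≤ latE t ∧ ∀ i, i ≤ t.length → |lat t i| ≤ M * T} with hP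
  have hsub : {t | t ∈ Brd T ∧ (A * T : ℤ) ≤ latE t} ⊆ P ∪
      {t | t ∈ Brd T ∧ ∃ i, i ≤ t.length ∧ (M * T : ℤ) < |lat t i|} := by
    rintro t ⟨ht, hA⟩
    by_cases h3 : ∀ i, i ≤ t.length → |lat t i| ≤ M * T
    · exact Or.inl ⟨ht, hA, h3⟩
    · push Not at h3
      obtain ⟨i, hi, h4⟩ := h3
      exact Or.inr ⟨ht, i, hi, h4⟩
  have h3 := ((gf_mono hsub).trans (gf_union_le _ _)).trans (add_le_add_right h2 _)
  have tP := gf_Brd_ne_top hT (P := P) (fun _ h => h.1)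
  have h4 := ENNReal.toReal_mono (ENNReal.add_ne_top.2 ⟨tP, ENNReal.ofReal_ne_top⟩) h3
  rw [ENNReal.toReal_add tP ENNReal.ofReal_ne_top,
    ENNReal.toReal_ofReal (mul_nonneg (by positivity) (bT_nonneg T))] at h4
  have h5 : a / 2 * bT T ≤ (gf P).toReal := by linarith
  rw [← ENNReal.ofReal_toReal tP]
  exact ENNReal.ofReal_le_ofReal h5

/-! codes -/

/-- the factors can be read off from the beginning of a word. -/
def IsCode (Q : Set (List Bool)) : Prop :=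
  ∀ q ∈ Q, ∀ q' ∈ Q, ∀ (b b' : ℕ) (u u' : List Bool), u ∈ Brd b → u' ∈ Brd b' → q ++ u = q' ++ u' → q = q'

/-- the concatenations. -/
def cat (P R : Set (List Bool)) : Set (List Bool) := {t | ∃ s u, s ∈ P ∧ u ∈ R ∧ t = s ++ u}

lemma gf_cat_le (P R : Set (List Bool)) : gf (cat P R) ≤ gf P * gf R := by
  unfold gf
  rw [← ENNReal.tsum_mul_right]
  simp_rw [← ENNReal.tsum_mul_left]
  rw [← ENNReal.tsum_prod (f := fun (a : P) (b : R) => wE (a : List Bool) * wE (b : List Bool))]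
  let ψ : P × R → cat P R := fun p => ⟨(p.1 : List Bool) ++ (p.2 : List Bool), p.1, p.2, p.1.2, p.2.2, rfl⟩
  have hψ : Function.Surjective ψ := by
    rintro ⟨t, s, u, hs, hu, ht⟩
    exact ⟨(⟨s, hs⟩, ⟨u, hu⟩), Subtype.ext ht.symm⟩
  calc ∑' t : cat P R, wE t ≤ ∑' p : P × R, wE (ψ p) :=
        ENNReal.tsum_le_tsum_comp_of_surjective hψ (fun t => wE (t : List Bool))
    _ = ∑' p : P × R, wE (p.1 : List Bool) * wE (p.2 : List Bool) :=
        tsum_congr (fun p => wE_append _ _)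

lemma gf_cat_eq {P R : Set (List Bool)} (hP : IsCode P) (hR : ∀ u ∈ R, ∃ b, u ∈ Brd b) :
    gf (cat P R) = gf P * gf R := by
  apply le_antisymm (gf_cat_le P R)
  unfold gf
  rw [← ENNReal.tsum_mul_right]
  simp_rw [← ENNReal.tsum_mul_left]
  rw [← ENNReal.tsum_prod (f := fun (a : P) (b : R) => wE (a : List Bool) * wE (b : List Bool))]
  let ψ : P × R → cat P R := fun p => ⟨(p.1 : List Bool) ++ (p.2 : List Bool), p.1, p.2, p.1.2, p.2.2, rfl⟩
  have hψ : Function.Injective ψ := by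
    rintro ⟨⟨s, hs⟩, ⟨u, hu⟩⟩ ⟨⟨s', hs'⟩, ⟨u', hu'⟩⟩ h
    have h1 : s ++ u = s' ++ u' := congrArg Subtype.val h
    obtain ⟨b, hb⟩ := hR u hu
    obtain ⟨b', hb'⟩ := hR u' hu'
    have h2 := hP s hs s' hs' b b' u u' hb hb' h1
    subst h2
    have h3 := List.append_cancel_left h1
    subst h3
    rfl
  calc ∑' p : P × R, wE (p.1 : List Bool) * wE (p.2 : List Bool) = ∑' p : P × R, wE (ψ p) :=
        tsum_congr (fun p => (wE_append _ _).symm)
    _ ≤ ∑' t : cat P R, wE t := ENNReal.tsum_comp_le_tsum_of_injective hψ (fun t => wE (t : List Bool))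

lemma isCode_cat {P R : Set (List Bool)} (hP : IsCode P) (hR : IsCode R) (hRb : ∀ u ∈ R, ∃ b, u ∈ Brd b) :
    IsCode (cat P R) := by
  rintro q ⟨s, r, hs, hr, rfl⟩ q' ⟨s', r', hs', hr', rfl⟩ b b' u u' hu hu' h
  obtain ⟨c, hc⟩ := hRb r hr
  obtain ⟨c', hc'⟩ := hRb r' hr'
  rw [List.append_assoc, List.append_assoc] at h
  have h2 := hP s hs s' hs' _ _ _ _ (Brd_append hc hu) (Brd_append hc' hu') h
  subst h2
  have h3 := hR r hr r' hr' b b' u u' hu hu' (List.append_cancel_left h)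
  rw [h3]

/-- minimal words of a family: no proper prefix (at a cut) belongs to the family. -/
def minW (G : Set (List Bool)) : Set (List Bool) :=
  {q | q ∈ G ∧ ∀ s b u, s ∈ G → u ∈ Brd b → q = s ++ u → u = []}

lemma isCode_min {G : Set (List Bool)} (hG : ∀ q ∈ G, ∃ t, q ∈ Brd t) : IsCode (minW G) := by
  have key : ∀ (q q' : List Bool) (b b' : ℕ) (u u' : List Bool), q ∈ minW G → q' ∈ minW G → u ∈ Brd b → u' ∈ Brd b' →
      q ++ u = q' ++ u' → (∃ c c', q ∈ Brd c ∧ q' ∈ Brd c' ∧ c ≤ c') → q = q' := by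
    rintro q q' b b' u u' hq hq' hu hu' h ⟨c, c', hc, hc', hcc⟩
    obtain ⟨v, hv, h1, h2⟩ := cut_nested hc hc' hu hu' hcc h
    have h3 := hq'.2 q (c' - c) v hq.1 hv h1
    rw [h3, List.append_nil] at h1
    exact h1.symm
  intro q hq q' hq' b b' u u' hu hu' h
  obtain ⟨c, hc⟩ := hG q hq.1
  obtain ⟨c', hc'⟩ := hG q' hq'.1
  rcases le_total c c' with hcc | hcc
  · exact key q q' b b' u u' hq hq' hu hu' h ⟨c, c', hc, hc', hcc⟩
  · exact (key q' q b' b u' u hq' hq hu' hu h.symm ⟨c', c, hc', hc, hcc⟩).symm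

/-- every word of the family starts with a minimal one. -/
lemma exists_min {G : Set (List Bool)} (n : ℕ) : ∀ q, q.length ≤ n → q ∈ G →
    ∃ s b u, s ∈ minW G ∧ u ∈ Brd b ∧ q = s ++ u := by
  induction n with
  | zero =>
    intro q hn hq
    refine ⟨q, 0, [], ⟨hq, ?_⟩, nil_mem_Brd, (List.append_nil q).symm⟩
    intro s b u _ _ h
    have h1 : q = [] := List.length_eq_zero_iff.1 (by omega)
    rw [h1] at h
    exact (List.append_eq_nil_iff.1 h.symm).2
  | succ n ih =>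
    intro q hn hq
    by_cases hmin : ∀ s b u, s ∈ G → u ∈ Brd b → q = s ++ u → u = []
    · exact ⟨q, 0, [], ⟨hq, hmin⟩, nil_mem_Brd, (List.append_nil q).symm⟩
    · push Not at hmin
      obtain ⟨s, b, u, hs, hu, h, hne⟩ := hmin
      have hlen : s.length ≤ n := by
        have h1 : 1 ≤ u.length := List.length_pos_of_ne_nil hne
        have h2 := congrArg List.length h
        rw [List.length_append] at h2
        omega
      obtain ⟨s', b', u', hs', hu', h'⟩ := ih s hlen hs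
      refine ⟨s', b' + b, u' ++ u, hs', Brd_append hu' hu, ?_⟩
      rw [h, h', List.append_assoc]

end Ex

end HexObs
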