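import Pool.Agent.HexSPR.KillA

/-!
KILL, part B: height and position of the first cut above s, for bridges of a given height.
-/

set_option autoImplicit false

namespace HexObs

namespace Ex

open Complex Finset ENNReal

lemma isCode_FC {s : ℕ} {P : Set (List Bool)} (hP : ∀ a ∈ P, ∃ c, a ∈ FC s c) : IsCode P := by
  intro q hq q' hq' b b' u u' hu hu' h
  obtain ⟨c, hc⟩ := hP q hq
  obtain ⟨c', hc'⟩ := hP q' hq'
  exact (FC_unique hc hc' hu hu' h).1

lemma gf_levels (h : ℕ) : gf (⋃ b ∈ Finset.range (h + 1), Brd b) = ENNReal.ofReal (UU h) := by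
  rw [gf_biUnion]
  · unfold UU
    rw [ENNReal.ofReal_sum_of_nonneg (fun t _ => (uu_pos t).le)]
    apply Finset.sum_congr rfl
    intro t _
    rw [gf_Brd, BT_eq]
  · intro i _ j _ hij
    rw [Set.disjoint_left]
    intro q hq hq'
    exact hij (Brd_height hq hq')

/-- the first cut at or above s is at or above Z, or its position is beyond Y. -/
def FCfar (s Z : ℕ) (Y : ℤ) (n : ℕ) : Set (List Bool) :=
  {t | ∃ c a u, c ≤ n ∧ a ∈ FC s c ∧ u ∈ Brd (n - c) ∧ t = a ++ u ∧ (Z ≤ c ∨ Y < |latE a|)}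

lemma fcfar_sub {s Z n : ℕ} {Y : ℤ} : FCfar s Z Y n ⊆ NC s Z n ∪
    {t | ∃ c a u, c ≤ n ∧ a ∈ FC s c ∧ u ∈ Brd (n - c) ∧ t = a ++ u ∧ c < Z ∧ Y < |latE a|} := by
  rintro t ⟨c, a, u, hc, ha, hu, e, h⟩
  rcases Nat.lt_or_ge c Z with h1 | h1
  · right
    refine ⟨c, a, u, hc, ha, hu, e, h1, ?_⟩
    rcases h with h | h
    · omega
    · exact h
  · left
    have ht : t ∈ Brd n := by
      have := Brd_append ha.1 hu
      rw [← e, Nat.add_sub_cancel' hc] at this
      exact this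
    refine ⟨ht, ?_⟩
    rintro c' h2 h3 ⟨s', u', b, hs', hu', e'⟩
    obtain ⟨v, hv, h4, -⟩ := cut_nested hs' ha.1 hu' hu (by omega) (e'.symm.trans e)
    exact ha.2.2 c' h2 (by omega) ⟨s', v, _, hs', hv, h4⟩

lemma qpow_le {q : ℝ} (hq0 : 0 < q) (hq1 : q < 1) {κ : ℝ} (hκ : κ ≤ 1) {W : ℕ} (hW : 1 ≤ W) :
    q ^ W ≤ 1 / (1 - q) * (W : ℝ) ^ (-κ) := by
  have hWp : (1 : ℝ) ≤ W := by exact_mod_cast hW
  have h1 : (W : ℝ) * q ^ W ≤ 1 / (1 - q) := by
    have h2 : ∑ _i ∈ Finset.range W, q ^ W ≤ ∑ i ∈ Finset.range W, q ^ i := by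
      apply Finset.sum_le_sum
      intro i hi
      rw [Finset.mem_range] at hi
      exact pow_le_pow_of_le_one hq0.le hq1.le hi.le
    rw [Finset.sum_const, Finset.card_range, nsmul_eq_mul] at h2
    refine h2.trans ?_
    have h := mul_neg_geom_sum q W
    have h3 : 0 < 1 - q := by linarith
    rw [le_div_iff₀ h3, mul_comm, h]
    have : 0 < q ^ W := by positivity
    linarith
  have h2 : (W : ℝ)⁻¹ ≤ (W : ℝ) ^ (-κ) := by
    rw [← Real.rpow_neg_one]
    exact Real.rpow_le_rpow_of_exponent_le hWp (by linarith)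
  have h3 : q ^ W ≤ 1 / (1 - q) * (W : ℝ)⁻¹ := by
    rw [← div_eq_mul_inv, le_div_iff₀ (by linarith)]
    linarith
  refine h3.trans (mul_le_mul_of_nonneg_left h2 ?_)
  have : 0 < 1 - q := by linarith
  positivity

/-- the first cut is low but far away. -/
theorem E2far {C0 q : ℝ} (hC0 : 0 < C0) (hq0 : 0 < q) (hL : LatR C0 q)
    {s W n : ℕ} (hs : 1 ≤ s) (hn : 1 ≤ n) :
    gf {t | ∃ c a u, c ≤ n ∧ a ∈ FC s c ∧ u ∈ Brd (n - c) ∧ t = a ++ u ∧ c < (W + 1) * s ∧
      ((W * (2 * ((W + 1) * s)) : ℕ) : ℤ) < |latE a|} ≤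
      ENNReal.ofReal (4 * (6 + CW) * C0 * q ^ W * uu n) := by
  have hC := CWp
  have hC6 : 6 ≤ 6 + CW := by
    have := Num2Aux.CW_pos
    linarith
  have hun := uu_pos n
  have hqW : 0 < q ^ W := by positivity
  set Z := (W + 1) * s with hZ
  set Y : ℤ := ((W * (2 * Z) : ℕ) : ℤ) with hY
  have hZs : s ≤ Z := by
    rw [hZ]
    nlinarith
  rcases Nat.lt_or_ge n (2 * Z) with hlt | hge
  · have hsub : {t | ∃ c a u, c ≤ n ∧ a ∈ FC s c ∧ u ∈ Brd (n - c) ∧ t = a ++ u ∧ c < Z ∧ Y < |latE a|} ⊆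
        {t | t ∈ Brd n ∧ ∃ i, i ≤ t.length ∧ (W * n : ℤ) < |lat t i|} := by
      rintro t ⟨c, a, u, hc, ha, hu, e, _, hfar⟩
      have ht : t ∈ Brd n := by
        have := Brd_append ha.1 hu
        rw [← e, Nat.add_sub_cancel' hc] at this
        exact this
      refine ⟨ht, a.length, by rw [e, List.length_append]; omega, ?_⟩
      rw [e, lat_append (by omega)]
      refine lt_of_le_of_lt ?_ hfar
      rw [hY]
      have : W * n ≤ W * (2 * Z) := Nat.mul_le_mul_left W (by omega)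
      exact_mod_cast this
    refine (gf_mono hsub).trans ((hL W n hn).trans (ENNReal.ofReal_le_ofReal ?_))
    apply mul_le_mul_of_nonneg_right _ hun.le
    apply mul_le_mul_of_nonneg_right _ hqW.le
    nlinarith
  · set A : Set (List Bool) := ⋃ c ∈ Finset.Ico s Z, (FC s c ∩ {a | Y < |latE a|}) with hA
    have hAcode : IsCode A := by
      apply isCode_FC (s := s)
      intro a ha
      simp only [hA, Set.mem_iUnion] at ha
      obtain ⟨c, _, ha, _⟩ := ha
      exact ⟨c, ha⟩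
    -- weight of A
    have h1 : gf A * ENNReal.ofReal (UU Z) ≤ ENNReal.ofReal (2 * C0 * q ^ W * UU Z) := by
      have h2 : gf (cat A (⋃ b ∈ Finset.range (Z + 1), Brd b)) = gf A * ENNReal.ofReal (UU Z) := by
        rw [gf_cat_eq hAcode, gf_levels]
        intro u hu
        simp only [Set.mem_iUnion] at hu
        obtain ⟨b, _, hu⟩ := hu
        exact ⟨b, hu⟩
      rw [← h2]
      have hsub : cat A (⋃ b ∈ Finset.range (Z + 1), Brd b) ⊆ ⋃ T ∈ Finset.Icc 1 (2 * Z),
          {t | t ∈ Brd T ∧ ∃ i, i ≤ t.length ∧ (W * T : ℤ) < |lat t i|} := by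
        rintro t ⟨a, u, ha, hu, e⟩
        simp only [hA, Set.mem_iUnion] at ha hu
        obtain ⟨c, hc, ha, hfar⟩ := ha
        obtain ⟨b, hb, hu⟩ := hu
        rw [Finset.mem_Ico] at hc
        rw [Finset.mem_range] at hb
        simp only [Set.mem_iUnion]
        refine ⟨c + b, Finset.mem_Icc.2 ⟨by omega, by omega⟩, ?_, a.length, ?_, ?_⟩
        · rw [e]
          exact Brd_append ha.1 hu
        · rw [e, List.length_append]
          omega
        · rw [e, lat_append (by omega)]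
          refine lt_of_le_of_lt ?_ hfar
          rw [hY]
          have : W * (c + b) ≤ W * (2 * Z) := Nat.mul_le_mul_left W (by omega)
          exact_mod_cast this
      refine (gf_mono hsub).trans ((ENNReal.tsum_biUnion_le wE _ _).trans ?_)
      have h3 : ∑ T ∈ Finset.Icc 1 (2 * Z), ENNReal.ofReal (C0 * q ^ W * uu T) ≤
          ENNReal.ofReal (2 * C0 * q ^ W * UU Z) := by
        rw [← ENNReal.ofReal_sum_of_nonneg (fun T _ => mul_nonneg (by positivity) (uu_pos T).le)]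
        apply ENNReal.ofReal_le_ofReal
        rw [← Finset.mul_sum]
        have h4 : ∑ T ∈ Finset.Icc 1 (2 * Z), uu T ≤ UU (2 * Z) := by
          unfold UU
          apply Finset.sum_le_sum_of_subset_of_nonneg
          · intro T hT
            rw [Finset.mem_Icc] at hT
            rw [Finset.mem_range]
            omega
          · intro T _ _
            exact (uu_pos T).le
        have h5 := UU_double Z
        calc C0 * q ^ W * ∑ T ∈ Finset.Icc 1 (2 * Z), uu T ≤ C0 * q ^ W * (2 * UU Z) :=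
              mul_le_mul_of_nonneg_left (h4.trans h5) (by positivity)
          _ = _ := by ring
      refine le_trans (Finset.sum_le_sum fun T hT => ?_) h3
      exact hL W T (Finset.mem_Icc.1 hT).1
    have hUZ : 0 < UU Z := Num2Aux.UU_pos Z
    have h2 : gf A ≤ ENNReal.ofReal (2 * C0 * q ^ W) := by
      have h3 : ENNReal.ofReal (2 * C0 * q ^ W * UU Z) = ENNReal.ofReal (2 * C0 * q ^ W) * ENNReal.ofReal (UU Z) :=
        ENNReal.ofReal_mul (by positivity)
      rw [h3] at h1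
      have h4 : ENNReal.ofReal (UU Z) ≠ 0 := by
        rw [Ne, ENNReal.ofReal_eq_zero]
        linarith
      exact (ENNReal.mul_le_mul_iff_left h4 ENNReal.ofReal_ne_top).1 h1
    have h3 : gf A = ∑ c ∈ Finset.Ico s Z, gf (FC s c ∩ {a | Y < |latE a|}) := by
      rw [hA, gf_biUnion]
      intro i _ j _ hij
      rw [Set.disjoint_left]
      rintro q ⟨hq, _⟩ ⟨hq', _⟩
      exact hij (Brd_height hq.1 hq'.1)
    have hsub : {t | ∃ c a u, c ≤ n ∧ a ∈ FC s c ∧ u ∈ Brd (n - c) ∧ t = a ++ u ∧ c < Z ∧ Y < |latE a|} ⊆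
        ⋃ c ∈ Finset.Ico s Z, cat (FC s c ∩ {a | Y < |latE a|}) (Brd (n - c)) := by
      rintro t ⟨c, a, u, _, ha, hu, e, hcZ, hfar⟩
      simp only [Set.mem_iUnion]
      exact ⟨c, Finset.mem_Ico.2 ⟨ha.2.1, hcZ⟩, a, u, ⟨ha, hfar⟩, hu, e⟩
    refine (gf_mono hsub).trans ((ENNReal.tsum_biUnion_le wE _ _).trans ?_)
    have h4 : ∀ c ∈ Finset.Ico s Z, gf (cat (FC s c ∩ {a | Y < |latE a|}) (Brd (n - c))) ≤
        gf (FC s c ∩ {a | Y < |latE a|}) * ENNReal.ofReal (2 * (6 + CW) * uu n) := by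
      intro c hc
      rw [Finset.mem_Ico] at hc
      refine (gf_cat_le _ _).trans ?_
      rw [gf_Brd, BT_eq]
      exact mul_le_mul_right (ENNReal.ofReal_le_ofReal (uu_half (by omega))) _
    refine (Finset.sum_le_sum h4).trans ?_
    rw [← Finset.sum_mul, ← h3]
    calc gf A * ENNReal.ofReal (2 * (6 + CW) * uu n) ≤
        ENNReal.ofReal (2 * C0 * q ^ W) * ENNReal.ofReal (2 * (6 + CW) * uu n) := mul_le_mul_left h2 _
      _ = ENNReal.ofReal (4 * (6 + CW) * C0 * q ^ W * uu n) := by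
          rw [← ENNReal.ofReal_mul (by positivity)]
          congr 1
          ring

/-- height and position of the first cut. -/
theorem E2 {C0 q : ℝ} (hC0 : 0 < C0) (hq0 : 0 < q) (hq1 : q < 1) (hL : LatR C0 q) :
    ∃ C2 : ℝ, 1 ≤ C2 ∧ ∀ s W n : ℕ, 1 ≤ s → 1 ≤ W → 2 * s ≤ n →
      gf (FCfar s ((W + 1) * s) ((W * (2 * ((W + 1) * s)) : ℕ) : ℤ) n) ≤
        ENNReal.ofReal (C2 * (W : ℝ) ^ (-(1 / (6 + CW))) * uu n) := by
  have hC := CWp
  have hC6 : 1 ≤ 6 + CW := by
    have := Num2Aux.CW_pos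
    linarith
  have h1q : 0 < 1 - q := by linarith
  refine ⟨4 * (6 + CW) + 4 * (6 + CW) * C0 * (1 / (1 - q)), ?_, ?_⟩
  · have : 0 ≤ 4 * (6 + CW) * C0 * (1 / (1 - q)) := by positivity
    linarith
  · intro s W n hs hW hn
    have hWp : (0 : ℝ) < W := by exact_mod_cast hW
    have hk : 0 < (W : ℝ) ^ (-(1 / (6 + CW))) := Real.rpow_pos_of_pos hWp _
    have hun := uu_pos n
    refine (gf_mono fcfar_sub).trans ((gf_union_le _ _).trans ?_)
    refine (add_le_add (E1 hs hW hn) (E2far hC0 hq0 hL hs (by omega))).trans ?_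
    rw [← ENNReal.ofReal_add (by positivity) (by positivity)]
    apply ENNReal.ofReal_le_ofReal
    have h1 := qpow_le hq0 hq1 (κ := 1 / (6 + CW)) (by rw [div_le_iff₀ hC]; linarith) hW
    have h2 : 4 * (6 + CW) * C0 * q ^ W * uu n ≤
        4 * (6 + CW) * C0 * (1 / (1 - q) * (W : ℝ) ^ (-(1 / (6 + CW)))) * uu n :=
      mul_le_mul_of_nonneg_right (mul_le_mul_of_nonneg_left h1 (by positivity)) hun.le
    calc 4 * (6 + CW) * (W : ℝ) ^ (-(1 / (6 + CW))) * uu n + 4 * (6 + CW) * C0 * q ^ W * uu n ≤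
        4 * (6 + CW) * (W : ℝ) ^ (-(1 / (6 + CW))) * uu n +
          4 * (6 + CW) * C0 * (1 / (1 - q) * (W : ℝ) ^ (-(1 / (6 + CW)))) * uu n := by linarith
      _ = _ := by ring

end Ex

end HexObs
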