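import Pool.Agent.HexSPR.Star

/-!
The end of a critical bridge is far away with positive probability, for every ratio.
-/

set_option autoImplicit false

namespace HexObs

namespace Ex

open Complex Finset ENNReal

/-! reflection -/

lemma refl_brE {T : ℕ} {t : List Bool} {W W' : Set Pt} (hW : ∀ p ∈ W, (-p.1, p.1 + p.2) ∈ W')
    (ht : t ∈ BrE (St T) ∅ oo up W) : t.map not ∈ BrE (St T) ∅ oo up W' := by
  obtain ⟨h0, h00⟩ := ht
  rw [br_empty] at h0
  have hu : nrm ((-1, 1) : Pt) = 1 := by decide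
  have h1 := (out_refl_aux hu oo oo up up (Ω := St T) (Ω' := St T) (fun v => k4_refl_mem)).1 h0
  have h2 : mulE (-1, 1) (conjE up) = up := by decide
  rw [h2] at h1
  refine ⟨by rw [br_empty]; exact h1, ?_⟩
  have h4 := vx_refl (-1, 1) oo oo up t (le_refl (t.length + 1))
  rw [h2] at h4
  have h5 : tip oo up (t.map not) = vx oo up (t.map not) (t.length + 1) := by
    unfold tip
    rw [List.length_map]
  rw [h5, h4]
  have h6 : vx oo up t (t.length + 1) = tip oo up t := rfl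
  rw [h6]
  have h7 := hW _ h00
  have h8 : oo + mulE (-1, 1) (conjE (tip oo up t - oo)) = (-(tip oo up t).1, (tip oo up t).1 + (tip oo up t).2) := by
    unfold oo mulE conjE
    simp only [Prod.fst_sub, Prod.snd_sub]
    apply Prod.ext
    · simp only [Prod.fst_add]
      ring
    · simp only [Prod.snd_add]
      ring
  rw [h8]
  exact h7

lemma gf_refl_brE {T : ℕ} {W W' : Set Pt} (hW : ∀ p ∈ W, (-p.1, p.1 + p.2) ∈ W') :
    gf (BrE (St T) ∅ oo up W) ≤ gf (BrE (St T) ∅ oo up W') := by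
  have h := gf_le_of_inj (P := BrE (St T) ∅ oo up W) (Q := BrE (St T) ∅ oo up W') (fun t => t.map not)
    (fun t ht => refl_brE hW ht) (by
      intro s _ t _ hst
      have := congrArg (List.map not) hst
      rwa [map_not_not, map_not_not] at this) 1 (by
      intro t _
      rw [one_mul, wE_map_not])
  rwa [one_mul] at h

lemma foot_oo : foot oo up 0 = oo := by decide

/-- half of the bridges end on the right. -/
theorem mT_zero {T : ℕ} (hT : 1 ≤ T) : bT T / 2 ≤ mT T 0 := by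
  have h1 : BT T ≤ mE T 0 + mE T 0 := by
    have h2 : BT T = gf (BrE (St T) ∅ oo up Set.univ) := by
      rw [brE_univ, ← foot_oo, gf_br_foot]
    rw [h2]
    have h3 : BrE (St T) ∅ oo up Set.univ ⊆
        BrE (St T) ∅ oo up (hl 0) ∪ BrE (St T) ∅ oo up {w | w.1 ≤ 0} := by
      rintro t ⟨ht, _⟩
      rcases le_total 0 (tip oo up t).1 with h | h
      · exact Or.inl ⟨ht, h⟩
      · exact Or.inr ⟨ht, h⟩
    refine (gf_mono h3).trans ((gf_union_le _ _).trans ?_)
    have h4 : gf (BrE (St T) ∅ oo up {w | w.1 ≤ 0}) ≤ gf (BrE (St T) ∅ oo up (hl 0)) := by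
      apply gf_refl_brE
      intro p hp
      show (0 : ℤ) ≤ -p.1
      have : p.1 ≤ 0 := hp
      linarith
    have h5 : mE T 0 = gf (BrE (St T) ∅ oo up (hl 0)) := by
      unfold mE
      rw [foot_oo]
    rw [h5]
    gcongr
  have h2 := ENNReal.toReal_mono (ENNReal.add_ne_top.2 ⟨mE_ne_top hT 0, mE_ne_top hT 0⟩) h1
  rw [ENNReal.toReal_add (mE_ne_top hT 0) (mE_ne_top hT 0)] at h2
  have h3 : bT T ≤ mT T 0 + mT T 0 := h2
  linarith

/-! real analysis -/

lemma bern {c x : ℝ} (hc0 : 0 ≤ c) (hc1 : c ≤ 1) (hx : -1 ≤ x) : (1 + x) ^ c ≤ 1 + c * x :=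
  rpow_one_add_le_one_add_mul_self hx hc0 hc1

lemma rd_pow {b : ℕ → ℝ} (hb : ∀ T, 1 ≤ T → 0 < b T) {c : ℝ} (hc0 : 0 < c) (hc1 : c ≤ 1)
    (h : ∀ T : ℕ, 1 ≤ T → c * b T ≤ T * (b T - b (T + 1))) {s : ℕ} (hs : 1 ≤ s) :
    ∀ T : ℕ, s ≤ T → b T * (T : ℝ) ^ c ≤ b s * (s : ℝ) ^ c := by
  intro T hT
  induction T, hT using Nat.le_induction with
  | base => exact le_refl _
  | succ T hT ih =>
    refine le_trans ?_ ih
    have hT1 : 1 ≤ T := le_trans hs hT
    have hTp : (0 : ℝ) < T := by exact_mod_cast hT1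
    have h1 := h T hT1
    have hbT := hb T hT1
    have hbT1 := hb (T + 1) (by omega)
    have h2 : b (T + 1) ≤ b T * (1 - c / T) := by
      have h3 : c / T * b T ≤ b T - b (T + 1) := by
        rw [div_mul_eq_mul_div, div_le_iff₀ hTp]
        linarith
      linarith
    have h4 : ((T + 1 : ℕ) : ℝ) ^ c ≤ (T : ℝ) ^ c * (1 + c / T) := by
      have e : ((T + 1 : ℕ) : ℝ) = T * (1 + 1 / T) := by
        push_cast
        field_simp
      rw [e, Real.mul_rpow hTp.le (by positivity)]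
      apply mul_le_mul_of_nonneg_left _ (by positivity)
      have := bern hc0.le hc1 (x := 1 / (T : ℝ)) (by
        have : (0 : ℝ) < 1 / T := by positivity
        linarith)
      refine this.trans (le_of_eq ?_)
      ring
    have h5 : 0 < 1 - c / T := by
      have := lt_of_lt_of_le hbT1 h2
      by_contra hcon
      push Not at hcon
      have := mul_nonpos_of_nonneg_of_nonpos hbT.le hcon
      linarith
    calc b (T + 1) * ((T + 1 : ℕ) : ℝ) ^ c ≤ (b T * (1 - c / T)) * ((T : ℝ) ^ c * (1 + c / T)) :=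
          mul_le_mul h2 h4 (by positivity) (by positivity)
      _ = b T * (T : ℝ) ^ c * (1 - (c / T) ^ 2) := by ring
      _ ≤ b T * (T : ℝ) ^ c * 1 := by
          apply mul_le_mul_of_nonneg_left _ (by positivity)
          have := sq_nonneg (c / T)
          linarith
      _ = b T * (T : ℝ) ^ c := mul_one _

lemma sum_rpow_le {c : ℝ} (hc0 : 0 < c) (hc1 : c ≤ 1) (N : ℕ) :
    ∑ D ∈ range N, ((D : ℝ) + 1) ^ (c - 1) ≤ (N : ℝ) ^ c / c := by
  induction N with
  | zero =>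
    simp only [Finset.range_zero, Finset.sum_empty, Nat.cast_zero]
    rw [Real.zero_rpow hc0.ne', zero_div]
  | succ N ih =>
    rw [Finset.sum_range_succ]
    have hN : (0 : ℝ) < (N : ℝ) + 1 := by positivity
    have h1 : (N : ℝ) ^ c ≤ ((N : ℝ) + 1) ^ c - c * ((N : ℝ) + 1) ^ (c - 1) := by
      have e : (N : ℝ) = ((N : ℝ) + 1) * (1 + -(1 / ((N : ℝ) + 1))) := by
        field_simp
        ring
      have hx : -1 ≤ -(1 / ((N : ℝ) + 1)) := by
        have : 1 / ((N : ℝ) + 1) ≤ 1 := by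
          rw [div_le_one hN]
          have : (0 : ℝ) ≤ N := Nat.cast_nonneg N
          linarith
        linarith
      have h2 := bern hc0.le hc1 hx
      calc (N : ℝ) ^ c = (((N : ℝ) + 1) * (1 + -(1 / ((N : ℝ) + 1)))) ^ c := by rw [← e]
        _ = ((N : ℝ) + 1) ^ c * (1 + -(1 / ((N : ℝ) + 1))) ^ c := Real.mul_rpow hN.le (by linarith)
        _ ≤ ((N : ℝ) + 1) ^ c * (1 + c * -(1 / ((N : ℝ) + 1))) :=
            mul_le_mul_of_nonneg_left h2 (by positivity)
        _ = ((N : ℝ) + 1) ^ c - c * (((N : ℝ) + 1) ^ c / ((N : ℝ) + 1)) := by ring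
        _ = _ := by rw [← Real.rpow_sub_one hN.ne']
    have h3 : ((N : ℝ) + 1) ^ (c - 1) ≤ (((N : ℝ) + 1) ^ c - (N : ℝ) ^ c) / c := by
      rw [le_div_iff₀ hc0]
      linarith
    push_cast
    calc ∑ D ∈ range N, ((D : ℝ) + 1) ^ (c - 1) + ((N : ℝ) + 1) ^ (c - 1) ≤
        (N : ℝ) ^ c / c + (((N : ℝ) + 1) ^ c - (N : ℝ) ^ c) / c := add_le_add ih h3
      _ = ((N : ℝ) + 1) ^ c / c := by ring

/-- relative decay of the bridge weights. -/
def RelDecay (c : ℝ) : Prop := ∀ T : ℕ, 1 ≤ T → c * bT T ≤ T * (bT T - bT (T + 1))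

lemma bT_anti' {s T : ℕ} (hs : 1 ≤ s) (h : s ≤ T) : bT T ≤ bT s := by
  induction T, h using Nat.le_induction with
  | base => exact le_refl _
  | succ T hT ih => exact (bT_antitone (le_trans hs hT)).trans ih

lemma VT_ge {D : ℕ} (hD : 1 ≤ D) : D * bT (2 * D) ≤ VT D := by
  unfold VT
  have h : ∑ r ∈ range D, bT (2 * D) ≤ ∑ r ∈ range D, bT (2 * (r + 1)) := by
    apply Finset.sum_le_sum
    intro r hr
    rw [Finset.mem_range] at hr
    exact bT_anti' (by omega) (by omega)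
  rw [Finset.sum_const, Finset.card_range, nsmul_eq_mul] at h
  exact h

/-- the sum of the ratios is small for small distances. -/
lemma ratio_sum {c : ℝ} (hc0 : 0 < c) (hc1 : c ≤ 1) (h : RelDecay c) {T N : ℕ} (hN : 2 * N ≤ T) :
    ∑ D ∈ range N, bT T / VT (D + 1) ≤ (2 * (N : ℝ) / T) ^ c / c := by
  rcases Nat.eq_zero_or_pos N with h0 | hN1
  · subst h0
    simp only [Finset.range_zero, Finset.sum_empty, Nat.cast_zero, mul_zero, zero_div]
    rw [Real.zero_rpow hc0.ne', zero_div]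
  have hT : 1 ≤ T := by omega
  have hTp : (0 : ℝ) < T := by exact_mod_cast hT
  have h1 : ∀ D ∈ range N, bT T / VT (D + 1) ≤ (2 / (T : ℝ)) ^ c * ((D : ℝ) + 1) ^ (c - 1) := by
    intro D hD
    rw [Finset.mem_range] at hD
    have hV := VT_pos (D := D + 1) (by omega)
    have hVg := VT_ge (D := D + 1) (by omega)
    have hb := bT_pos (T := 2 * (D + 1)) (by omega)
    have hbT := bT_pos hT
    have hDp : (0 : ℝ) < (D : ℝ) + 1 := by positivity
    have h2 := rd_pow (b := bT) (fun _ h => bT_pos h) hc0 hc1 h (s := 2 * (D + 1)) (by omega) T (by omega)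
    have h3 : bT T ≤ bT (2 * (D + 1)) * ((2 / (T : ℝ)) ^ c * ((D : ℝ) + 1) ^ c) := by
      have e : (2 / (T : ℝ)) ^ c * ((D : ℝ) + 1) ^ c = ((2 * (D + 1) : ℕ) : ℝ) ^ c / (T : ℝ) ^ c := by
        push_cast
        rw [← Real.mul_rpow (by positivity) hDp.le, ← Real.div_rpow (by positivity) hTp.le]
        congr 1
        field_simp
      rw [e, ← mul_div_assoc, le_div_iff₀ (by positivity)]
      exact h2
    rw [div_le_iff₀ hV]
    calc bT T ≤ bT (2 * (D + 1)) * ((2 / (T : ℝ)) ^ c * ((D : ℝ) + 1) ^ c) := h3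
      _ = (2 / (T : ℝ)) ^ c * ((D : ℝ) + 1) ^ (c - 1) * (((D + 1 : ℕ) : ℝ) * bT (2 * (D + 1))) := by
          rw [Real.rpow_sub_one hDp.ne']
          push_cast
          field_simp
      _ ≤ (2 / (T : ℝ)) ^ c * ((D : ℝ) + 1) ^ (c - 1) * VT (D + 1) :=
          mul_le_mul_of_nonneg_left hVg (by positivity)
  refine (Finset.sum_le_sum h1).trans ?_
  rw [← Finset.mul_sum]
  calc (2 / (T : ℝ)) ^ c * ∑ D ∈ range N, ((D : ℝ) + 1) ^ (c - 1) ≤ (2 / (T : ℝ)) ^ c * ((N : ℝ) ^ c / c) :=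
        mul_le_mul_of_nonneg_left (sum_rpow_le hc0 hc1 N) (by positivity)
    _ = (2 * (N : ℝ) / T) ^ c / c := by
        rw [← mul_div_assoc, ← Real.mul_rpow (by positivity) (by positivity)]
        congr 2
        ring

lemma aT_one_pos : 0 < aT 1 := by
  have hmem : [false, false, false] ∈ out (strip (0, 0) (0, 1) 1) (0, 0) (0, 1) (-(0, 1)) := by
    have hv1 : vx (0, 0) (0, 1) [false, false, false] 1 = (0, 1) := by decide
    have hv2 : vx (0, 0) (0, 1) [false, false, false] 2 = (1, 1) := by decide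
    have hv3 : vx (0, 0) (0, 1) [false, false, false] 3 = (2, 0) := by decide
    have hv4 : tip (0, 0) (0, 1) [false, false, false] = (2, -1) := by decide
    refine ⟨⟨?_, ?_⟩, ?_, ?_⟩
    · intro i h1 h2
      have : i = 1 ∨ i = 2 ∨ i = 3 := by
        simp at h2
        omega
      rcases this with rfl | rfl | rfl
      · rw [hv1]
        exact ⟨Or.inr (by decide), by decide, by decide⟩
      · rw [hv2]
        exact ⟨Or.inl (by decide), by decide, by decide⟩
      · rw [hv3]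
        exact ⟨Or.inr (by decide), by decide, by decide⟩
    · intro i k hik hk
      have hv0 : vx (0, 0) (0, 1) [false, false, false] 0 = (0, 0) := rfl
      have : (i = 0 ∧ k = 1) ∨ (i = 0 ∧ k = 2) ∨ (i = 0 ∧ k = 3) ∨ (i = 1 ∧ k = 2) ∨ (i = 1 ∧ k = 3) ∨
          (i = 2 ∧ k = 3) := by
        simp at hk
        omega
      rcases this with ⟨rfl, rfl⟩ | ⟨rfl, rfl⟩ | ⟨rfl, rfl⟩ | ⟨rfl, rfl⟩ | ⟨rfl, rfl⟩ | ⟨rfl, rfl⟩
      · rw [hv0, hv1]
        decide
      · rw [hv0, hv2]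
        decide
      · rw [hv0, hv3]
        decide
      · rw [hv1, hv2]
        decide
      · rw [hv1, hv3]
        decide
      · rw [hv2, hv3]
        decide
    · rw [hv4]
      rintro ⟨_, h, _⟩
      revert h
      decide
    · decide
  have h1 : wE [false, false, false] ≤ AT 1 := by
    unfold AT gf
    exact ENNReal.le_tsum (⟨_, hmem⟩ : out (strip (0, 0) (0, 1) 1) (0, 0) (0, 1) (-(0, 1)))
  rw [← ofReal_aT le_rfl] at h1
  exact lt_of_lt_of_le (pow_pos xc_pos 3) ((ENNReal.ofReal_le_ofReal_iff (aT_nonneg 1)).1 h1)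

lemma bT_one_lt : bT 1 < 1 := by
  have h1 := bT_add_aT (T := 1) le_rfl
  have := mul_pos cos3_pos aT_one_pos
  linarith

lemma beta_le {T : ℕ} (hT : 1 ≤ T) : 1 - bT 1 ≤ 1 - bT T := by
  have := bT_anti' le_rfl hT
  linarith

lemma kappa_pos : 0 < (Real.sqrt 2 - 1) ^ 3 := by
  have : 1 < Real.sqrt 2 := by
    rw [Real.lt_sqrt (by norm_num)]; norm_num
  have : 0 < Real.sqrt 2 - 1 := by linarith
  positivity

lemma mT_ratio' {T : ℕ} (hT : 1 ≤ T) (z : ℤ) : (1 - bT 1) * mT T (z - 2) ≤ mT T z :=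
  (mul_le_mul_of_nonneg_right (beta_le hT) (mT_nonneg T _)).trans (mT_ratio hT z)

/-- the tail does not drop below one half over a small distance. -/
lemma half_step {c : ℝ} (hc0 : 0 < c) (hc1 : c ≤ 1) (h : RelDecay c) {T N : ℕ} (hT : 1 ≤ T) (hN : 2 * N ≤ T)
    (hsmall : (2 * (N : ℝ) / T) ^ c ≤ c * ((Real.sqrt 2 - 1) ^ 3 * (1 - bT 1) / 2)) (z : ℤ) :
    mT T z / 2 ≤ mT T (z + 2 * N) := by
  have hk := kappa_pos
  set κ := (Real.sqrt 2 - 1) ^ 3 with hκ
  have h1 := mT_drop hT (N := N) (by omega) z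
  have h2 := ratio_sum hc0 hc1 h hN
  have h3 : ∑ D ∈ range N, bT T / VT (D + 1) ≤ κ * (1 - bT 1) / 2 := by
    refine h2.trans ?_
    rw [div_le_iff₀ hc0]
    linarith
  have h4 := mT_ratio' hT z
  have h5 : mT T (z - 2) * ∑ D ∈ range N, bT T / VT (D + 1) ≤ mT T (z - 2) * (κ * (1 - bT 1) / 2) :=
    mul_le_mul_of_nonneg_left h3 (mT_nonneg T _)
  have h6 : κ * (mT T z - mT T (z + 2 * N)) ≤ κ * (mT T z / 2) := by
    calc κ * (mT T z - mT T (z + 2 * N)) ≤ mT T (z - 2) * (κ * (1 - bT 1) / 2) := h1.trans h5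
      _ = κ / 2 * ((1 - bT 1) * mT T (z - 2)) := by ring
      _ ≤ κ / 2 * mT T z := mul_le_mul_of_nonneg_left h4 (by positivity)
      _ = κ * (mT T z / 2) := by ring
  have h7 := le_of_mul_le_mul_left h6 hk
  linarith

lemma iter_half {c : ℝ} (hc0 : 0 < c) (hc1 : c ≤ 1) (h : RelDecay c) {T N : ℕ} (hT : 1 ≤ T) (hN : 2 * N ≤ T)
    (hsmall : (2 * (N : ℝ) / T) ^ c ≤ c * ((Real.sqrt 2 - 1) ^ 3 * (1 - bT 1) / 2)) (z : ℤ) (K : ℕ) :
    (1 / 2) ^ K * mT T z ≤ mT T (z + 2 * N * K) := by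
  induction K with
  | zero => simp
  | succ K ih =>
    have h1 := half_step hc0 hc1 h hT hN hsmall (z + 2 * N * K)
    have e : z + 2 * (N : ℤ) * (K + 1 : ℕ) = z + 2 * N * K + 2 * N := by
      push_cast
      ring
    rw [e]
    refine le_trans ?_ h1
    rw [pow_succ]
    linarith

lemma iter_ratio {T : ℕ} (hT : 1 ≤ T) (z : ℤ) (k : ℕ) : (1 - bT 1) ^ k * mT T z ≤ mT T (z + 2 * k) := by
  have hb := bT_one_lt
  induction k with
  | zero => simp
  | succ k ih =>
    have h1 := mT_ratio' hT (z + 2 * ((k + 1 : ℕ) : ℤ))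
    have e : z + 2 * ((k + 1 : ℕ) : ℤ) - 2 = z + 2 * k := by
      push_cast
      ring
    rw [e] at h1
    refine le_trans ?_ h1
    rw [pow_succ, mul_comm ((1 - bT 1) ^ k), mul_assoc]
    exact mul_le_mul_of_nonneg_left ih (by linarith)

/-- (SPR) THE END OF A BRIDGE OF HEIGHT T IS AT DISTANCE AT LEAST A T WITH POSITIVE PROBABILITY, FOR EVERY A. -/
theorem spr_of_relDecay {c : ℝ} (hc : 0 < c) (h : RelDecay c) (A : ℕ) :
    ∃ a : ℝ, 0 < a ∧ ∀ T : ℕ, 1 ≤ T → a * bT T ≤ mT T (A * T) := by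
  wlog hc1 : c ≤ 1 generalizing c
  · push Not at hc1
    refine this (c := 1) one_pos ?_ le_rfl
    intro T hT
    refine le_trans ?_ (h T hT)
    exact mul_le_mul_of_nonneg_right hc1.le (bT_nonneg T)
  have hb := bT_one_lt
  have hb0 := bT_nonneg 1
  have hk := kappa_pos
  set β := 1 - bT 1 with hβ
  have hβ0 : 0 < β := by linarith
  set η := c * ((Real.sqrt 2 - 1) ^ 3 * β / 2) with hη
  have hη0 : 0 < η := by positivity
  -- the step
  set ε := min (η ^ (1 / c)) 1 with hε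
  have hε0 : 0 < ε := lt_min (by positivity) one_pos
  have hε1 : ε ≤ 1 := min_le_right _ _
  have hεη : ε ^ c ≤ η := by
    calc ε ^ c ≤ (η ^ (1 / c)) ^ c := Real.rpow_le_rpow hε0.le (min_le_left _ _) hc.le
      _ = η := by
        rw [← Real.rpow_mul hη0.le, one_div, inv_mul_cancel₀ hc.ne', Real.rpow_one]
  obtain ⟨K, hK⟩ := exists_nat_ge (2 * (A : ℝ) / ε)
  obtain ⟨M, hM⟩ := exists_nat_ge (2 / ε)
  refine ⟨(1 / 2) ^ K * β ^ (A * M) / 2, by positivity, ?_⟩
  intro T hT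
  have hTp : (0 : ℝ) < T := by exact_mod_cast hT
  have hz := mT_zero hT
  have hbT := bT_nonneg T
  have hβ1 : β ≤ 1 := by linarith
  have hpow1 : (1 / 2 : ℝ) ^ K ≤ 1 := pow_le_one₀ (by norm_num) (by norm_num)
  have hpow2 : β ^ (A * M) ≤ 1 := pow_le_one₀ hβ0.le hβ1
  have hp1 : 0 < (1 / 2 : ℝ) ^ K := by positivity
  have hp2 : 0 < β ^ (A * M) := by positivity
  rcases le_or_gt (2 / ε) (T : ℝ) with hbig | hsml
  · -- large T
    set N := ⌊ε * T / 2⌋₊ with hN
    have hN1 : (N : ℝ) ≤ ε * T / 2 := Nat.floor_le (by positivity)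
    have hN2 : ε * T / 2 < N + 1 := Nat.lt_floor_add_one _
    have hx : 1 ≤ ε * T / 2 := by
      rw [div_le_iff₀ hε0] at hbig
      linarith
    have hN3 : ε * T / 4 ≤ N := by
      have : (1 : ℝ) ≤ N := by
        have : 1 ≤ N := Nat.le_floor (by exact_mod_cast hx)
        exact_mod_cast this
      linarith
    have hNT : 2 * N ≤ T := by
      have : (2 * N : ℝ) ≤ T := by nlinarith
      exact_mod_cast this
    have hsmall : (2 * (N : ℝ) / T) ^ c ≤ η := by
      refine le_trans ?_ hεη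
      apply Real.rpow_le_rpow (by positivity) _ hc.le
      rw [div_le_iff₀ hTp]
      linarith
    have h1 := iter_half hc hc1 h hT hNT hsmall 0 K
    have h2 : mT T (0 + 2 * N * K) ≤ mT T (A * T) := by
      apply mT_anti hT
      have h3 : (A : ℝ) * T ≤ 2 * N * K := by
        have h4 : 2 * (A : ℝ) ≤ K * ε := by
          rw [div_le_iff₀ hε0] at hK
          exact hK
        have hK0 : (0 : ℝ) ≤ K := Nat.cast_nonneg K
        nlinarith
      have h5 : (A * T : ℤ) ≤ 2 * N * K := by exact_mod_cast h3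
      linarith
    calc (1 / 2) ^ K * β ^ (A * M) / 2 * bT T ≤ (1 / 2) ^ K * (bT T / 2) := by
          have := mul_le_mul_of_nonneg_left hpow2 (mul_nonneg hp1.le hbT)
          linarith
      _ ≤ (1 / 2) ^ K * mT T 0 := mul_le_mul_of_nonneg_left hz hp1.le
      _ ≤ _ := h1.trans h2
  · -- small T
    have h1 := iter_ratio hT 0 (A * M)
    have h2 : mT T (0 + 2 * (A * M : ℕ)) ≤ mT T (A * T) := by
      apply mT_anti hT
      have h3 : (T : ℝ) ≤ M := hsml.le.trans hM
      have h4 : T ≤ M := by exact_mod_cast h3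
      have h5 : A * T ≤ A * M := Nat.mul_le_mul_left A h4
      have h6 : ((A * T : ℕ) : ℤ) ≤ ((A * M : ℕ) : ℤ) := by exact_mod_cast h5
      push_cast at h6 ⊢
      have h7 : (0 : ℤ) ≤ (A : ℤ) * M := by positivity
      linarith
    calc (1 / 2) ^ K * β ^ (A * M) / 2 * bT T ≤ β ^ (A * M) * (bT T / 2) := by
          have := mul_le_mul_of_nonneg_left hpow1 (mul_nonneg hp2.le hbT)
          linarith
      _ ≤ β ^ (A * M) * mT T 0 := mul_le_mul_of_nonneg_left hz hp2.le
      _ ≤ _ := h1.trans h2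

end Ex

end HexObs
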