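import Pool.Agent.HexSPR.Spr
import Pool.Agent.HexObs.NI

/-!
Relative decay of the bridge weights from a bound for the lateral extent.
-/

set_option autoImplicit false

namespace HexObs

namespace Ex

open Complex Finset ENNReal

/-- LAT1: a bridge of height T ends within distance C T with probability at least p. -/
def Lat1 (p : ℝ) (C : ℕ) : Prop :=
  ∀ T : ℕ, 1 ≤ T → p * bT T ≤ (gf (BrE (St T) ∅ oo up {w | |w.1| ≤ C * T})).toReal

lemma brE_point {T : ℕ} (hT : 1 ≤ T) (x : ℤ) :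
    gf (BrE (St T) ∅ oo up {w | w.1 = x}) ≤ ENNReal.ofReal ((3 + 2 * Real.sqrt 2) * (bT T - bT (T + 1))) := by
  refine le_trans (gf_mono ?_) (anti_conc HexW.up_mem (v0 := oo) hT (x, (3 * T + 2 - x) / 2))
  rintro t ⟨ht, hx⟩
  rw [br_empty] at ht
  refine ⟨ht, ?_⟩
  have hx' : (tip oo up t).1 = x := hx
  have h4 : ip (tip oo up t - oo) up = 3 * T + 2 := by
    rcases strip_exit HexW.up_mem hT ht.1 ht.2.1 with h | h
    · exfalso
      have h5 := ht.2.2
      rw [h.1] at h5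
      exact absurd h5 (by decide)
    · exact h.2
  have h6 : ip (tip oo up t - oo) up = 2 * (tip oo up t).2 + (tip oo up t).1 := by
    unfold ip up oo
    simp only [Prod.fst_sub, Prod.snd_sub]
    ring
  rw [h6] at h4
  apply Prod.ext
  · exact hx'
  · show (tip oo up t).2 = (3 * T + 2 - x) / 2
    omega

/-- the lateral bound gives the relative decay. -/
theorem relDecay_of_lat {p : ℝ} {C : ℕ} (hp : 0 < p) (h : Lat1 p C) :
    RelDecay (p / ((2 * C + 1) * (3 + 2 * Real.sqrt 2))) := by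
  intro T hT
  have hTp : (1 : ℝ) ≤ T := by exact_mod_cast hT
  have h1 := h T hT
  have hs : 0 < Real.sqrt 2 := by positivity
  have hd : 0 ≤ bT T - bT (T + 1) := by
    have := bT_antitone hT
    linarith
  set δ := (3 + 2 * Real.sqrt 2) * (bT T - bT (T + 1)) with hδ
  have hδ0 : 0 ≤ δ := by positivity
  have h2 : gf (BrE (St T) ∅ oo up {w | |w.1| ≤ C * T}) ≤
      ∑ x ∈ Finset.Icc (-(C * T : ℤ)) (C * T), gf (BrE (St T) ∅ oo up {w | w.1 = x}) := by
    have hsub : BrE (St T) ∅ oo up {w | |w.1| ≤ C * T} ⊆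
        ⋃ x ∈ Finset.Icc (-(C * T : ℤ)) (C * T), BrE (St T) ∅ oo up {w | w.1 = x} := by
      rintro t ⟨ht, hx⟩
      have hx' : |(tip oo up t).1| ≤ C * T := hx
      simp only [Set.mem_iUnion]
      exact ⟨(tip oo up t).1, Finset.mem_Icc.2 (abs_le.1 hx'), ht, rfl⟩
    exact (gf_mono hsub).trans (ENNReal.tsum_biUnion_le wE _ _)
  have h3 : gf (BrE (St T) ∅ oo up {w | |w.1| ≤ C * T}) ≤ ENNReal.ofReal ((2 * (C * T) + 1) * δ) := by
    refine h2.trans ((Finset.sum_le_sum (fun x _ => brE_point hT x)).trans (le_of_eq ?_))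
    have e : ((C * T : ℤ) + 1 - -(C * T : ℤ)).toNat = 2 * (C * T) + 1 := by
      have : (C * T : ℤ) + 1 - -(C * T : ℤ) = ((2 * (C * T) + 1 : ℕ) : ℤ) := by
        push_cast
        ring
      rw [this, Int.toNat_natCast]
    rw [Finset.sum_const, Int.card_Icc, nsmul_eq_mul, e, ← ENNReal.ofReal_natCast,
      ← ENNReal.ofReal_mul (Nat.cast_nonneg _)]
    congr 1
    push_cast
    ring
  have h4 : (gf (BrE (St T) ∅ oo up {w | |w.1| ≤ C * T})).toReal ≤ (2 * (C * T) + 1) * δ := by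
    have := ENNReal.toReal_mono ENNReal.ofReal_ne_top h3
    rwa [ENNReal.toReal_ofReal (by positivity)] at this
  have h5 : p * bT T ≤ (2 * C + 1) * T * δ := by
    refine h1.trans (h4.trans ?_)
    apply mul_le_mul_of_nonneg_right _ hδ0
    nlinarith
  rw [div_mul_eq_mul_div, div_le_iff₀ (by positivity)]
  calc p * bT T ≤ (2 * C + 1) * T * δ := h5
    _ = T * (bT T - bT (T + 1)) * ((2 * C + 1) * (3 + 2 * Real.sqrt 2)) := by
        rw [hδ]
        ring

/-- (SPR) from the lateral bound. -/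
theorem spr_of_lat {p : ℝ} {C : ℕ} (hp : 0 < p) (h : Lat1 p C) (A : ℕ) :
    ∃ a : ℝ, 0 < a ∧ ∀ T : ℕ, 1 ≤ T → a * bT T ≤ mT T (A * T) :=
  spr_of_relDecay (by positivity) (relDecay_of_lat hp h) A

end Ex

end HexObs
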