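import Pool.Agent.HexSPR.Code

/-!
Prefix codes of bridges that go far to the right: a fresh leg sweeps to the right with positive probability at every
scale, with a small extent to the left.
-/

set_option autoImplicit false

namespace HexObs

namespace Ex

open Complex Finset ENNReal

lemma UU_le {h : ℕ} (hh : 1 ≤ h) : UU h ≤ (6 + CW) * (h * bT h) := by
  have h1 := W47_final.1 h hh
  have h2 := bT_lower hh
  have hhp : (1 : ℝ) ≤ h := by exact_mod_cast hh
  have hb := bT_pos hh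
  have h3 : UU h = 1 + ∑ t ∈ Finset.Icc 1 h, bT t := by
    unfold UU
    rw [Finset.range_eq_Ico, Finset.sum_eq_sum_Ico_succ_bot (by omega), uu_zero]
    congr 1
  have h4 : 1 ≤ 4 * (h * bT h) := by
    rw [div_le_iff₀ (by positivity)] at h2
    have h5 : bT h * (h + 3) ≤ bT h * (4 * h) := mul_le_mul_of_nonneg_left (by linarith) hb.le
    linarith
  rw [h3]
  linarith

/-- the family of the far bridges with height in (h/2, h). -/
def farG (A M h : ℕ) : Set (List Bool) :=
  {q | ∃ t, h ≤ 2 * t ∧ t ≤ h ∧ q ∈ Brd t ∧ (A * h : ℤ) ≤ latE q ∧ ∀ i, i ≤ q.length → |lat q i| ≤ M * h}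

lemma farG_le {A M h : ℕ} : gf (farG A M h) ≤ gf (minW (farG A M h)) * ENNReal.ofReal (UU h) := by
  have h1 : farG A M h ⊆ cat (minW (farG A M h)) (⋃ b ∈ Finset.range (h + 1), Brd b) := by
    intro q hq
    obtain ⟨s, b, u, hs, hu, hsu⟩ := exists_min q.length q le_rfl hq
    refine ⟨s, u, hs, ?_, hsu⟩
    simp only [Set.mem_iUnion]
    refine ⟨b, ?_, hu⟩
    obtain ⟨t, _, ht, hqt, _⟩ := hq
    obtain ⟨t', _, _, hst, _⟩ := hs.1
    have h2 := Brd_append hst hu
    rw [← hsu] at h2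
    have := Brd_height hqt h2
    rw [Finset.mem_range]
    omega
  have h2 : gf (⋃ b ∈ Finset.range (h + 1), Brd b) ≤ ENNReal.ofReal (UU h) := by
    refine (ENNReal.tsum_biUnion_le wE _ _).trans ?_
    unfold UU
    rw [ENNReal.ofReal_sum_of_nonneg (fun t _ => (uu_pos t).le)]
    apply Finset.sum_le_sum
    intro t _
    have h3 : ENNReal.ofReal (uu t) = gf (Brd t) := by
      rw [gf_Brd]
      unfold uu
      rw [ENNReal.ofReal_toReal]
      rcases Nat.eq_zero_or_pos t with h0 | h0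
      · rw [h0, ← gf_Brd, Brd_zero]
        unfold gf
        rw [tsum_singleton (f := wE)]
        exact wE_ne_top _
      · exact BT_ne_top h0
    rw [h3]
    exact le_refl _
  exact (gf_mono h1).trans ((gf_cat_le _ _).trans (mul_le_mul_right h2 _))

/-- ONE SCALE: a prefix code of bridges of height in (h/2, h) that end at distance at least A h on the right. -/
theorem spr_code (hl0 : Lat0) (A : ℕ) : ∃ (p : ℝ) (M : ℕ), 0 < p ∧ ∀ h : ℕ, 1 ≤ h → ∃ Q : Set (List Bool),
    IsCode Q ∧ (∀ q ∈ Q, ∃ t, h ≤ 2 * t ∧ t ≤ h ∧ q ∈ Brd t ∧ (A * h : ℤ) ≤ latE q ∧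
      ∀ i, i ≤ q.length → |lat q i| ≤ M * h) ∧ ENNReal.ofReal p ≤ gf Q := by
  obtain ⟨a, M, ha, hfar⟩ := far_box hl0 (2 * A)
  have hCW : 0 < 6 + CW := by
    have : 0 < CW := by
      unfold CW
      have : 1 < Real.sqrt 2 := by
        rw [Real.lt_sqrt (by norm_num)]; norm_num
      have : 0 < Real.sqrt 2 - 1 := by linarith
      positivity
    linarith
  refine ⟨a / (2 * (6 + CW)), M, by positivity, ?_⟩
  intro h hh
  refine ⟨minW (farG A M h), isCode_min (fun q hq => ?_), fun q hq => hq.1, ?_⟩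
  · obtain ⟨t, _, _, hq, _⟩ := hq
    exact ⟨t, hq⟩
  have hhp : (1 : ℝ) ≤ h := by exact_mod_cast hh
  have hb := bT_pos hh
  -- lower bound for the family
  have h1 : ∑ t ∈ Finset.Icc ((h + 1) / 2) h, ENNReal.ofReal (a * bT t) ≤ gf (farG A M h) := by
    have hsub : (⋃ t ∈ Finset.Icc ((h + 1) / 2) h,
        {q | q ∈ Brd t ∧ ((2 * A : ℕ) * t : ℤ) ≤ latE q ∧ ∀ i, i ≤ q.length → |lat q i| ≤ M * t}) ⊆ farG A M h := by
      intro q hq
      simp only [Set.mem_iUnion, Finset.mem_Icc] at hq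
      obtain ⟨t, ⟨ht1, ht2⟩, hq1, hq2, hq3⟩ := hq
      have e1 : h ≤ 2 * t := by omega
      have e1' : (h : ℤ) ≤ 2 * t := by exact_mod_cast e1
      have e2' : (t : ℤ) ≤ h := by exact_mod_cast ht2
      refine ⟨t, e1, ht2, hq1, ?_, ?_⟩
      · refine le_trans ?_ hq2
        push_cast
        have hA : (0 : ℤ) ≤ A := Int.natCast_nonneg A
        nlinarith
      · intro i hi
        refine (hq3 i hi).trans ?_
        exact mul_le_mul_of_nonneg_left e2' (Int.natCast_nonneg M)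
    refine le_trans ?_ (gf_mono hsub)
    rw [gf_biUnion]
    · apply Finset.sum_le_sum
      intro t ht
      rw [Finset.mem_Icc] at ht
      exact hfar t (by omega)
    · intro i _ j _ hij
      rw [Set.disjoint_left]
      rintro q ⟨hq, _⟩ ⟨hq', _⟩
      exact hij (Brd_height hq hq')
  have h2 : ENNReal.ofReal (a * (h * bT h) / 2) ≤ ∑ t ∈ Finset.Icc ((h + 1) / 2) h, ENNReal.ofReal (a * bT t) := by
    rw [← ENNReal.ofReal_sum_of_nonneg (fun t _ => mul_nonneg ha.le (bT_nonneg t))]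
    apply ENNReal.ofReal_le_ofReal
    have h3 : ∑ _t ∈ Finset.Icc ((h + 1) / 2) h, a * bT h ≤ ∑ t ∈ Finset.Icc ((h + 1) / 2) h, a * bT t := by
      apply Finset.sum_le_sum
      intro t ht
      rw [Finset.mem_Icc] at ht
      exact mul_le_mul_of_nonneg_left (bT_anti' (by omega) ht.2) ha.le
    refine le_trans ?_ h3
    rw [Finset.sum_const, Nat.card_Icc, nsmul_eq_mul]
    have h4 : (h : ℝ) / 2 ≤ ((h + 1 - (h + 1) / 2 : ℕ) : ℝ) := by
      have h5 : h ≤ 2 * (h + 1 - (h + 1) / 2) := by omega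
      have h6 : (h : ℝ) ≤ 2 * ((h + 1 - (h + 1) / 2 : ℕ) : ℝ) := by exact_mod_cast h5
      linarith
    have h5 : (h : ℝ) / 2 * (a * bT h) ≤ ((h + 1 - (h + 1) / 2 : ℕ) : ℝ) * (a * bT h) :=
      mul_le_mul_of_nonneg_right h4 (by positivity)
    refine le_trans (le_of_eq ?_) h5
    ring
  have h3 := (h2.trans h1).trans farG_le
  have h4 : gf (minW (farG A M h)) * ENNReal.ofReal (UU h) ≤
      gf (minW (farG A M h)) * ENNReal.ofReal ((6 + CW) * (h * bT h)) :=
    mul_le_mul_right (ENNReal.ofReal_le_ofReal (UU_le hh)) _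
  have h5 := h3.trans h4
  set g := gf (minW (farG A M h)) with hg
  have hD : 0 < (6 + CW) * (h * bT h) := by positivity
  have h6 : ENNReal.ofReal (a * (h * bT h) / 2) / ENNReal.ofReal ((6 + CW) * (h * bT h)) ≤ g :=
    ENNReal.div_le_of_le_mul h5
  rw [← ENNReal.ofReal_div_of_pos hD] at h6
  refine le_trans (le_of_eq ?_) h6
  congr 1
  field_simp

/-- MANY SCALES: the n-fold concatenation. -/
theorem spr_code_pow (hl0 : Lat0) (A : ℕ) : ∃ (p : ℝ) (M : ℕ), 0 < p ∧ ∀ h : ℕ, 1 ≤ h → ∀ n : ℕ,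
    ∃ Q : Set (List Bool), IsCode Q ∧ (∀ q ∈ Q, ∃ t, n * h ≤ 2 * t ∧ t ≤ n * h ∧ q ∈ Brd t ∧
      (n * (A * h) : ℤ) ≤ latE q ∧ ∀ i, i ≤ q.length → -(M * h : ℤ) ≤ lat q i ∧ lat q i ≤ n * (M * h)) ∧
      ENNReal.ofReal (p ^ n) ≤ gf Q := by
  obtain ⟨p, M, hp, hcode⟩ := spr_code hl0 A
  refine ⟨p, M, hp, ?_⟩
  intro h hh n
  obtain ⟨Q1, c1, c2, c3⟩ := hcode h hh
  have hM : (0 : ℤ) ≤ M * h := by positivity
  have hA : (0 : ℤ) ≤ A * h := by positivity
  induction n with
  | zero =>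
    refine ⟨{[]}, ?_, ?_, ?_⟩
    · intro q hq q' hq' _ _ _ _ _ _ _
      rw [Set.mem_singleton_iff] at hq hq'
      rw [hq, hq']
    · intro q hq
      rw [Set.mem_singleton_iff] at hq
      subst hq
      refine ⟨0, by simp, by simp, nil_mem_Brd, ?_, ?_⟩
      · simp only [Nat.cast_zero, zero_mul]
        decide
      · intro i hi
        have h0 : i = 0 := by simpa using hi
        subst h0
        have h1 : lat [] 0 = 0 := by decide
        rw [h1]
        constructor
        · linarith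
        · simp
    · unfold gf
      rw [tsum_singleton (f := wE)]
      unfold wE
      simp
  | succ n ih =>
    obtain ⟨Qn, d1, d2, d3⟩ := ih
    refine ⟨cat Qn Q1, isCode_cat d1 c1 (fun u hu => ?_), ?_, ?_⟩
    · obtain ⟨t, _, _, ht, _⟩ := c2 u hu
      exact ⟨t, ht⟩
    · rintro q ⟨s, u, hs, hu, rfl⟩
      obtain ⟨t, a1, a2, a3, a4, a5⟩ := d2 s hs
      obtain ⟨t', b1, b2, b3, b4, b5⟩ := c2 u hu
      have hsd := (mem_Brd.1 a3).2.2.1
      refine ⟨t + t', ?_, ?_, Brd_append a3 b3, ?_, ?_⟩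
      · rw [Nat.succ_mul]
        omega
      · rw [Nat.succ_mul]
        omega
      · rw [latE_cat hsd]
        push_cast
        linarith
      · intro i hi
        have hlE := a5 s.length le_rfl
        have hn0 : (0 : ℤ) ≤ n * (A * h) := by positivity
        rcases le_or_gt i s.length with h1 | h1
        · rw [lat_append (by omega)]
          have := a5 i h1
          push_cast
          constructor
          · exact this.1
          · linarith [this.2]
        · rw [List.length_append] at hi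
          obtain ⟨j, rfl⟩ : ∃ j, i = s.length + j := ⟨i - s.length, by omega⟩
          rw [lat_cat hsd]
          have h2 := abs_le.1 (b5 j (by omega))
          have h3 : latE s ≤ n * (M * h) := hlE.2
          push_cast
          constructor
          · linarith [h2.1]
          · linarith [h2.2]
    · rw [gf_cat_eq d1 (fun u hu => by
        obtain ⟨t, _, _, ht, _⟩ := c2 u hu
        exact ⟨t, ht⟩), pow_succ, ENNReal.ofReal_mul (by positivity)]
      exact mul_le_mul' d3 c3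

/-- (SW) SWEEP: for all A and m, at every scale h a prefix code of bridges of height in (h/4, h) that end at
distance at least A h on the right and whose extent to the left is at most h/m. -/
theorem sw_code (hl0 : Lat0) (A m : ℕ) (hm : 1 ≤ m) : ∃ (p : ℝ) (C h1 : ℕ), 0 < p ∧ ∀ h : ℕ, h1 ≤ h →
    ∃ Q : Set (List Bool), IsCode Q ∧ (∀ q ∈ Q, ∃ t, h ≤ 4 * t ∧ t ≤ h ∧ q ∈ Brd t ∧ (A * h : ℤ) ≤ latE q ∧
      ∀ i, i ≤ q.length → -(h : ℤ) ≤ m * lat q i ∧ lat q i ≤ C * h) ∧ ENNReal.ofReal p ≤ gf Q := by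
  obtain ⟨p, M, hp, hcode⟩ := spr_code_pow hl0 (2 * A)
  refine ⟨p ^ ((M + 1) * m), M, (M + 1) * m, by positivity, ?_⟩
  intro h hh
  set n := (M + 1) * m with hn
  have hn1 : 1 ≤ n := Nat.mul_pos (by omega) hm
  set ρ := h / n with hρ
  have hρ1 : 1 ≤ ρ := Nat.div_pos hh hn1
  have h1 : n * ρ ≤ h := Nat.mul_div_le h n
  have h2 : h < n * ρ + n := by
    have := Nat.lt_div_mul_add (a := h) hn1
    rw [mul_comm] at this
    exact this
  have h3 : h ≤ 2 * (n * ρ) := by
    have : n * 1 ≤ n * ρ := Nat.mul_le_mul_left n hρ1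
    omega
  obtain ⟨Q, c1, c2, c3⟩ := hcode ρ hρ1 n
  refine ⟨Q, c1, ?_, c3⟩
  intro q hq
  obtain ⟨t, a1, a2, a3, a4, a5⟩ := c2 q hq
  have h1' : (n * ρ : ℤ) ≤ h := by exact_mod_cast h1
  have h3' : (h : ℤ) ≤ 2 * (n * ρ) := by exact_mod_cast h3
  have hM0 : (0 : ℤ) ≤ M := Int.natCast_nonneg M
  have hm0 : (0 : ℤ) ≤ m := Int.natCast_nonneg m
  have hρ0 : (0 : ℤ) ≤ ρ := Int.natCast_nonneg ρ
  have hA0 : (0 : ℤ) ≤ A := Int.natCast_nonneg A
  have hnn : (n : ℤ) = (M + 1) * m := by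
    rw [hn]
    push_cast
    ring
  refine ⟨t, by omega, by omega, a3, ?_, ?_⟩
  · refine le_trans ?_ a4
    push_cast
    calc (A * h : ℤ) ≤ A * (2 * (n * ρ)) := mul_le_mul_of_nonneg_left h3' hA0
      _ = n * (2 * A * ρ) := by ring
  · intro i hi
    obtain ⟨b1, b2⟩ := a5 i hi
    constructor
    · calc -(h : ℤ) ≤ -(n * ρ) := by linarith
        _ = -((M + 1) * m * ρ) := by rw [hnn]
        _ ≤ -(m * (M * ρ)) := by
            have : 0 ≤ (m : ℤ) * ρ := mul_nonneg hm0 hρ0
            nlinarith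
        _ = m * (-(M * ρ)) := by ring
        _ ≤ m * lat q i := mul_le_mul_of_nonneg_left b1 hm0
    · refine b2.trans ?_
      calc (n * (M * ρ) : ℤ) = M * (n * ρ) := by ring
        _ ≤ M * h := mul_le_mul_of_nonneg_left h1' hM0

end Ex

end HexObs
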