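import Pool.Agent.HexSPR.KillB

/-!
KILL, part C: the killing code of one scale.
-/

set_option autoImplicit false

namespace HexObs

namespace Ex

open Complex Finset ENNReal

/-- N (which starts at height f and position x) passes some row y = f + c + 1 by a straight step at a position z
with K y z. -/
def Dead (K : ℕ → ℤ → Prop) (f : ℕ) (x : ℤ) (N : List Bool) : Prop :=
  ∃ (c b : ℕ) (s u : List Bool), s ∈ Brd c ∧ u ∈ Brd b ∧ N = s ++ [true, false] ++ u ∧ K (f + c + 1) (x + latE s)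

lemma tf_mem : [true, false] ∈ Brd 1 := by
  rw [mem_Brd]
  refine ⟨?_, ?_, ?_, ?_⟩
  · intro i i1 i2
    have i3 : i = 1 ∨ i = 2 := by
      simp only [List.length_cons, List.length_nil] at i2
      omega
    rcases i3 with rfl | rfl <;> decide
  · intro i j hij hj heq
    simp only [List.length_cons, List.length_nil] at hj
    have h4 : (i = 0 ∧ j = 1) ∨ (i = 0 ∧ j = 2) ∨ (i = 1 ∧ j = 2) := by omega
    rcases h4 with ⟨rfl, rfl⟩ | ⟨rfl, rfl⟩ | ⟨rfl, rfl⟩ <;> revert heq <;> decide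
  · decide
  · decide

lemma dead_append {K : ℕ → ℤ → Prop} {f : ℕ} {x : ℤ} {c : ℕ} {a u : List Bool} (ha : a ∈ Brd c)
    (h : Dead K (f + c) (x + latE a) u) : Dead K f x (a ++ u) := by
  obtain ⟨c', b, s, v, hs, hv, e, h1⟩ := h
  refine ⟨c + c', b, a ++ s, v, Brd_append ha hs, hv, ?_, ?_⟩
  · rw [e]
    simp only [List.append_assoc]
  · rw [latE_cat (mem_Brd.1 ha).2.2.1]
    have e1 : f + (c + c') + 1 = f + c + c' + 1 := by omega
    rw [e1, ← add_assoc]
    exact h1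

lemma dead_pre {K : ℕ → ℤ → Prop} {f : ℕ} {x : ℤ} {b : ℕ} {q u : List Bool} (hq : Dead K f x q) (hu : u ∈ Brd b) :
    Dead K f x (q ++ u) := by
  obtain ⟨c, b', s, v, hs, hv, e, h1⟩ := hq
  refine ⟨c, b' + b, s, v ++ u, hs, Brd_append hv hu, ?_, h1⟩
  rw [e]
  simp only [List.append_assoc]

/-- the family of the killing words of the scale h. -/
def kG (h f : ℕ) (x : ℤ) (K : ℕ → ℤ → Prop) : Set (List Bool) :=
  {q | ∃ (c : ℕ) (s : List Bool), s ∈ Brd c ∧ q = s ++ [true, false] ∧ h < 2 * (f + c + 1) ∧ f + c + 1 ≤ h ∧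
    K (f + c + 1) (x + latE s)}

lemma kG_brd {h f : ℕ} {x : ℤ} {K : ℕ → ℤ → Prop} {q : List Bool} (hq : q ∈ kG h f x K) :
    ∃ t, 1 ≤ t ∧ f + t ≤ h ∧ q ∈ Brd t := by
  obtain ⟨c, s, hs, e, h1, h2, h3⟩ := hq
  refine ⟨c + 1, by omega, by omega, ?_⟩
  rw [e]
  exact Brd_append hs tf_mem

lemma kG_dead {h f : ℕ} {x : ℤ} {K : ℕ → ℤ → Prop} {q : List Bool} (hq : q ∈ kG h f x K) : Dead K f x q := by
  obtain ⟨c, s, hs, e, h1, h2, h3⟩ := hq
  refine ⟨c, 0, s, [], hs, nil_mem_Brd, ?_, h3⟩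
  rw [List.append_nil]
  exact e

lemma min_le {G : Set (List Bool)} {h : ℕ} (hG : ∀ q ∈ G, ∃ t, t ≤ h ∧ q ∈ Brd t) :
    gf G ≤ gf (minW G) * ENNReal.ofReal (UU h) := by
  have h1 : G ⊆ cat (minW G) (⋃ b ∈ Finset.range (h + 1), Brd b) := by
    intro q hq
    obtain ⟨s, b, u, hs, hu, hsu⟩ := exists_min q.length q le_rfl hq
    refine ⟨s, u, hs, ?_, hsu⟩
    simp only [Set.mem_iUnion]
    refine ⟨b, ?_, hu⟩
    obtain ⟨t, ht, hqt⟩ := hG q hq
    obtain ⟨t', _, hst⟩ := hG s hs.1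
    have h2 := Brd_append hst hu
    rw [← hsu] at h2
    have := Brd_height hqt h2
    rw [Finset.mem_range]
    omega
  rw [← gf_levels]
  exact (gf_mono h1).trans (gf_cat_le _ _)

lemma gf_append_one (P : Set (List Bool)) (w : List Bool) :
    gf P * wE w ≤ gf {q | ∃ s ∈ P, q = s ++ w} := by
  unfold gf
  rw [← ENNReal.tsum_mul_right]
  let ψ : P → {q | ∃ s ∈ P, q = s ++ w} := fun p => ⟨(p : List Bool) ++ w, p, p.2, rfl⟩
  have hψ : Function.Injective ψ := by
    rintro ⟨s, hs⟩ ⟨s', hs'⟩ h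
    have h1 : s ++ w = s' ++ w := congrArg Subtype.val h
    exact Subtype.ext (List.append_cancel_right h1)
  calc ∑' p : P, wE (p : List Bool) * wE w = ∑' p : P, wE (ψ p) := tsum_congr (fun p => (wE_append _ _).symm)
    _ ≤ ∑' t : {q | ∃ s ∈ P, q = s ++ w}, wE t :=
      ENNReal.tsum_comp_le_tsum_of_injective hψ (fun t => wE (t : List Bool))

lemma wtf_pos : 0 < (wE [true, false]).toReal := by
  apply ENNReal.toReal_pos
  · unfold wE
    have := HexObs.xc_pos
    simp only [ne_eq, ENNReal.ofReal_eq_zero, not_le]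
    positivity
  · exact wE_ne_top _

/-- the rows of the window of h where every position beyond A h is killing. -/
noncomputable def rowsK (K : ℕ → ℤ → Prop) (A h : ℕ) : Finset ℕ :=
  open Classical in (Finset.Icc (h / 2 + 1) h).filter (fun y => ∀ z : ℤ, A * h ≤ z → K y z)

/-- the killing code of the scale h. -/
theorem kill_code (hspr : ∀ A : ℕ, ∃ a : ℝ, 0 < a ∧ ∀ T : ℕ, 1 ≤ T → a * bT T ≤ mT T (A * T)) (A : ℕ) {θ : ℝ}
    (hθ : 0 < θ) : ∃ p : ℝ, 0 < p ∧ p ≤ 1 / 2 ∧ ∀ (h f : ℕ) (x : ℤ) (K : ℕ → ℤ → Prop), 4 ≤ h → 4 * f ≤ h →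
      4 * |x| ≤ h → θ * h ≤ (rowsK K A h).card → ENNReal.ofReal p ≤ gf (minW (kG h f x K)) := by
  classical
  obtain ⟨a, ha, hfar⟩ := hspr (8 * (A + 1))
  have hC := CWp
  have hw := wtf_pos
  set w := (wE [true, false]).toReal with hwdef
  refine ⟨min (θ * a * w / (6 + CW)) (1 / 2), lt_min (by positivity) (by norm_num), min_le_right _ _, ?_⟩
  intro h f x K hh hf hx hcard
  have hh1 : 1 ≤ h := by omega
  have hhp : (0 : ℝ) < h := by exact_mod_cast hh1
  have hb := bT_pos hh1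
  set L := rowsK K A h with hL
  -- the lower bound for the family
  have h1 : ∑ y ∈ L, ENNReal.ofReal (a * bT h * w) ≤ gf (kG h f x K) := by
    have hsub : (⋃ y ∈ L, {q | ∃ s ∈ {t | t ∈ Brd (y - f - 1) ∧
        (((8 * (A + 1) : ℕ) : ℤ) * ((y - f - 1 : ℕ) : ℤ)) ≤ latE t}, q = s ++ [true, false]}) ⊆ kG h f x K := by
      intro q hq
      simp only [Set.mem_iUnion] at hq
      obtain ⟨y, hy, s, ⟨hs1, hs2⟩, e⟩ := hq
      rw [hL, rowsK, Finset.mem_filter, Finset.mem_Icc] at hy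
      obtain ⟨⟨hy1, hy2⟩, hy3⟩ := hy
      have e1 : f + (y - f - 1) + 1 = y := by omega
      refine ⟨y - f - 1, s, hs1, e, by omega, by omega, ?_⟩
      rw [e1]
      apply hy3
      have h8 : h ≤ 8 * (y - f - 1) := by omega
      have h8' : (h : ℤ) ≤ 8 * ((y - f - 1 : ℕ) : ℤ) := by exact_mod_cast h8
      have h9 : ((A : ℤ) + 1) * h ≤ latE s := by
        refine le_trans ?_ hs2
        push_cast
        have hA : (0 : ℤ) ≤ (A : ℤ) + 1 := by positivity
        nlinarith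
      have h10 := neg_abs_le x
      linarith
    refine le_trans ?_ (gf_mono hsub)
    rw [gf_biUnion]
    · apply Finset.sum_le_sum
      intro y hy
      rw [hL, rowsK, Finset.mem_filter, Finset.mem_Icc] at hy
      obtain ⟨⟨hy1, hy2⟩, hy3⟩ := hy
      have hc1 : 1 ≤ y - f - 1 := by omega
      refine le_trans ?_ (gf_append_one _ _)
      have h2 := hfar (y - f - 1) hc1
      rw [mT_eq] at h2
      have h3 : bT h ≤ bT (y - f - 1) := bT_anti' hc1 (by omega)
      have h4 : a * bT h ≤ (gf {t | t ∈ Brd (y - f - 1) ∧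
          (((8 * (A + 1) : ℕ) : ℤ) * ((y - f - 1 : ℕ) : ℤ)) ≤ latE t}).toReal :=
        (mul_le_mul_of_nonneg_left h3 ha.le).trans h2
      rw [ENNReal.ofReal_mul (by positivity)]
      refine mul_le_mul' ?_ ?_
      · have hne := gf_Brd_ne_top hc1 (P := {t | t ∈ Brd (y - f - 1) ∧
          (((8 * (A + 1) : ℕ) : ℤ) * ((y - f - 1 : ℕ) : ℤ)) ≤ latE t}) (fun _ h => h.1)
        rw [← ENNReal.ofReal_toReal hne]
        exact ENNReal.ofReal_le_ofReal h4
      · rw [hwdef, ENNReal.ofReal_toReal (wE_ne_top _)]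
    · intro i hi j hj hij
      rw [hL, rowsK, Finset.mem_filter, Finset.mem_Icc] at hi hj
      rw [Set.disjoint_left]
      rintro q ⟨s, ⟨hs, _⟩, e⟩ ⟨s', ⟨hs', _⟩, e'⟩
      have h2 : s = s' := List.append_cancel_right (e.symm.trans e')
      rw [h2] at hs
      have := Brd_height hs hs'
      omega
  have h2 : ENNReal.ofReal (θ * h * (a * bT h * w)) ≤ gf (kG h f x K) := by
    refine le_trans ?_ h1
    rw [Finset.sum_const, nsmul_eq_mul, ← ENNReal.ofReal_natCast, ← ENNReal.ofReal_mul (Nat.cast_nonneg _)]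
    apply ENNReal.ofReal_le_ofReal
    exact mul_le_mul_of_nonneg_right hcard (by positivity)
  have h3 : gf (kG h f x K) ≤ gf (minW (kG h f x K)) * ENNReal.ofReal (UU h) := by
    apply min_le
    intro q hq
    obtain ⟨t, _, h2, h3⟩ := kG_brd hq
    exact ⟨t, by omega, h3⟩
  have h4 : gf (minW (kG h f x K)) * ENNReal.ofReal (UU h) ≤
      gf (minW (kG h f x K)) * ENNReal.ofReal ((6 + CW) * (h * bT h)) :=
    mul_le_mul_right (ENNReal.ofReal_le_ofReal (UU_le hh1)) _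
  have h5 := (h2.trans h3).trans h4
  set g := gf (minW (kG h f x K)) with hg
  have hD : 0 < (6 + CW) * (h * bT h) := by positivity
  have h6 : ENNReal.ofReal (θ * h * (a * bT h * w)) / ENNReal.ofReal ((6 + CW) * (h * bT h)) ≤ g :=
    ENNReal.div_le_of_le_mul h5
  rw [← ENNReal.ofReal_div_of_pos hD] at h6
  refine le_trans (ENNReal.ofReal_le_ofReal ?_) h6
  refine (min_le_left _ _).trans (le_of_eq ?_)
  field_simp

/-- words of height n with a beginning in the code Q. -/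
def preW (Q : Set (List Bool)) (n : ℕ) : Set (List Bool) := {N | N ∈ Brd n ∧ ∃ (b : ℕ) (q u : List Bool), q ∈ Q ∧ u ∈ Brd b ∧ N = q ++ u}

lemma pre_ge {Q : Set (List Bool)} (hQ : IsCode Q) {h : ℕ} (hQh : ∀ q ∈ Q, ∃ t, t ≤ h ∧ q ∈ Brd t) {n : ℕ}
    (hn : h ≤ n) : gf Q * ENNReal.ofReal (uu n) ≤ gf (preW Q n) := by
  have h1 : Q = ⋃ t ∈ Finset.range (h + 1), (Q ∩ Brd t) := by
    ext q
    simp only [Set.mem_iUnion, Set.mem_inter_iff]
    constructor
    · intro hq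
      obtain ⟨t, ht, hqt⟩ := hQh q hq
      exact ⟨t, Finset.mem_range.2 (by omega), hq, hqt⟩
    · rintro ⟨t, _, hq, _⟩
      exact hq
  have h2 : (⋃ t ∈ Finset.range (h + 1), cat (Q ∩ Brd t) (Brd (n - t))) ⊆ preW Q n := by
    intro N hN
    simp only [Set.mem_iUnion] at hN
    obtain ⟨t, ht, q, u, ⟨hq, hqt⟩, hu, e⟩ := hN
    rw [Finset.mem_range] at ht
    refine ⟨?_, n - t, q, u, hq, hu, e⟩
    have := Brd_append hqt hu
    rw [← e] at this
    have h3 : t + (n - t) = n := by omega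
    rwa [h3] at this
  refine le_trans ?_ (gf_mono h2)
  rw [gf_biUnion]
  · have h3 : gf Q = ∑ t ∈ Finset.range (h + 1), gf (Q ∩ Brd t) := by
      conv_lhs => rw [h1]
      rw [gf_biUnion]
      intro i _ j _ hij
      rw [Set.disjoint_left]
      rintro q ⟨_, hq⟩ ⟨_, hq'⟩
      exact hij (Brd_height hq hq')
    rw [h3, Finset.sum_mul]
    apply Finset.sum_le_sum
    intro t ht
    have hc : IsCode (Q ∩ Brd t) := fun q hq q' hq' => hQ q hq.1 q' hq'.1
    rw [gf_cat_eq hc (fun u hu => ⟨n - t, hu⟩), gf_Brd, BT_eq]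
    exact mul_le_mul_right (ENNReal.ofReal_le_ofReal (uu_anti (by omega))) _
  · intro i hi j hj hij
    rw [Finset.mem_range] at hi hj
    rw [Set.disjoint_left]
    rintro N ⟨q, u, ⟨hq, hqi⟩, hu, e⟩ ⟨q', u', ⟨hq', hqj⟩, hu', e'⟩
    have h3 := hQ q hq q' hq' _ _ u u' hu hu' (e.symm.trans e')
    rw [h3] at hqi
    exact hij (Brd_height hqi hqj)

/-- the words without a beginning in the code. -/
lemma not_pre_le {Q : Set (List Bool)} (hQ : IsCode Q) {h : ℕ} (hQh : ∀ q ∈ Q, ∃ t, t ≤ h ∧ q ∈ Brd t) {n : ℕ}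
    (hn : h ≤ n) {p : ℝ} (hp0 : 0 ≤ p) (hp : ENNReal.ofReal p ≤ gf Q) :
    gf (Brd n \ preW Q n) ≤ ENNReal.ofReal ((1 - p) * uu n) := by
  have hun := uu_pos n
  have h1 := pre_ge hQ hQh hn
  have h2 : ENNReal.ofReal (p * uu n) ≤ gf (preW Q n) := by
    rw [ENNReal.ofReal_mul hp0]
    exact (mul_le_mul_left hp _).trans h1
  have hsub : preW Q n ⊆ Brd n := fun _ h => h.1
  have h3 : gf (Brd n) = gf (preW Q n) + gf (Brd n \ preW Q n) := by
    rw [← gf_union Set.disjoint_sdiff_right, Set.union_diff_cancel hsub]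
  have hne1 : gf (preW Q n) ≠ ∞ := ne_top_of_le_ne_top ENNReal.ofReal_ne_top (gfB_le hsub)
  have hne2 : gf (Brd n \ preW Q n) ≠ ∞ :=
    ne_top_of_le_ne_top ENNReal.ofReal_ne_top (gfB_le (T := n) Set.diff_subset)
  rw [gf_Brd, BT_eq] at h3
  have h4 := congrArg ENNReal.toReal h3
  rw [ENNReal.toReal_add hne1 hne2, ENNReal.toReal_ofReal hun.le] at h4
  have h5 := ENNReal.toReal_mono hne1 h2
  rw [ENNReal.toReal_ofReal (mul_nonneg hp0 hun.le)] at h5
  rw [← ENNReal.ofReal_toReal hne2]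
  apply ENNReal.ofReal_le_ofReal
  linarith

end Ex

end HexObs
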