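import Pool.Agent.HexSPR.KillC

/-!
KILL, part D: induction over separated scales.
-/

set_option autoImplicit false

namespace HexObs

namespace Ex

open Complex Finset ENNReal

lemma gf_sigma_le (P : Set (List Bool)) (S : List Bool → Set (List Bool)) :
    gf {N | ∃ a ∈ P, ∃ u ∈ S a, N = a ++ u} ≤ ∑' a : P, wE a * gf (S a) := by
  unfold gf
  simp_rw [← ENNReal.tsum_mul_left]
  rw [← ENNReal.tsum_sigma (f := fun (a : P) (u : S a) => wE (a : List Bool) * wE (u : List Bool))]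
  let ψ : (Σ a : P, S a) → {N | ∃ a ∈ P, ∃ u ∈ S a, N = a ++ u} := fun p =>
    ⟨(p.1 : List Bool) ++ (p.2 : List Bool), p.1, p.1.2, p.2, p.2.2, rfl⟩
  have hψ : Function.Surjective ψ := by
    rintro ⟨t, a, ha, u, hu, ht⟩
    exact ⟨⟨⟨a, ha⟩, ⟨u, hu⟩⟩, Subtype.ext ht.symm⟩
  calc ∑' t : {N | ∃ a ∈ P, ∃ u ∈ S a, N = a ++ u}, wE t ≤ ∑' p : (Σ a : P, S a), wE (ψ p) :=
        ENNReal.tsum_le_tsum_comp_of_surjective hψ (fun t => wE (t : List Bool))
    _ = ∑' p : (Σ a : P, S a), wE (p.1 : List Bool) * wE (p.2 : List Bool) :=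
        tsum_congr (fun p => wE_append _ _)

lemma gf_sigma_ge (P : Set (List Bool)) (S : List Bool → Set (List Bool))
    (inj : ∀ a ∈ P, ∀ u ∈ S a, ∀ a' ∈ P, ∀ u' ∈ S a', a ++ u = a' ++ u' → a = a') :
    ∑' a : P, wE a * gf (S a) ≤ gf {N | ∃ a ∈ P, ∃ u ∈ S a, N = a ++ u} := by
  unfold gf
  simp_rw [← ENNReal.tsum_mul_left]
  rw [← ENNReal.tsum_sigma (f := fun (a : P) (u : S a) => wE (a : List Bool) * wE (u : List Bool))]
  let ψ : (Σ a : P, S a) → {N | ∃ a ∈ P, ∃ u ∈ S a, N = a ++ u} := fun p =>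
    ⟨(p.1 : List Bool) ++ (p.2 : List Bool), p.1, p.1.2, p.2, p.2.2, rfl⟩
  have hψ : Function.Injective ψ := by
    rintro ⟨⟨a, ha⟩, ⟨u, hu⟩⟩ ⟨⟨a', ha'⟩, ⟨u', hu'⟩⟩ h
    have h1 : a ++ u = a' ++ u' := congrArg Subtype.val h
    have h2 := inj a ha u hu a' ha' u' hu' h1
    subst h2
    have h3 := List.append_cancel_left h1
    subst h3
    rfl
  calc ∑' p : (Σ a : P, S a), wE (p.1 : List Bool) * wE (p.2 : List Bool) = ∑' p : (Σ a : P, S a), wE (ψ p) :=
        tsum_congr (fun p => (wE_append _ _).symm)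
    _ ≤ ∑' t : {N | ∃ a ∈ P, ∃ u ∈ S a, N = a ++ u}, wE t :=
      ENNReal.tsum_comp_le_tsum_of_injective hψ (fun t => wE (t : List Bool))

/-- uniform bound of the rest. -/
lemma fiber_le {s n : ℕ} (P : Set (List Bool)) (hP : ∀ a ∈ P, ∃ c, a ∈ FC s c) (S : List Bool → Set (List Bool))
    (κ : ℝ≥0∞) (hS : ∀ a ∈ P, ∀ c, a ∈ FC s c → gf (S a) ≤ κ * BT (n - c)) :
    gf {N | ∃ a ∈ P, ∃ u ∈ S a, N = a ++ u} ≤
      κ * gf {N | ∃ a ∈ P, ∃ u ∈ {u | ∃ c, a ∈ FC s c ∧ u ∈ Brd (n - c)}, N = a ++ u} := by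
  refine (gf_sigma_le P S).trans ?_
  refine le_trans ?_ (mul_le_mul_right (gf_sigma_ge P (fun a => {u | ∃ c, a ∈ FC s c ∧ u ∈ Brd (n - c)}) ?_) κ)
  · rw [← ENNReal.tsum_mul_left]
    apply ENNReal.tsum_le_tsum
    rintro ⟨a, ha⟩
    obtain ⟨c, hc⟩ := hP a ha
    have e : {u | ∃ c, a ∈ FC s c ∧ u ∈ Brd (n - c)} = Brd (n - c) := by
      ext u
      constructor
      · rintro ⟨c', hc', hu⟩
        have := Brd_height hc.1 hc'.1
        rw [this]
        exact hu
      · intro hu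
        exact ⟨c, hc, hu⟩
    show wE a * gf (S a) ≤ κ * (wE a * gf {u | ∃ c, a ∈ FC s c ∧ u ∈ Brd (n - c)})
    rw [e, gf_Brd]
    calc wE a * gf (S a) ≤ wE a * (κ * BT (n - c)) := mul_le_mul_right (hS a ha c hc) _
      _ = κ * (wE a * BT (n - c)) := by ring
  · rintro a ha u ⟨c, hc, hu⟩ a' ha' u' ⟨c', hc', hu'⟩ h
    exact (FC_unique hc hc' hu hu' h).1

/-- the final inequality between numbers. -/
lemma real_sum {p : ℝ} (hp0 : 0 < p) (hp : p ≤ 1 / 2) (L : ℕ) :
    ∑ j ∈ Finset.range (L + 1), (1 - p / 2) ^ (L - j) * (if j = 0 then 1 - p else (p / 8) ^ j) +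
      2 * (p / 8) ^ (L + 1) ≤ (1 - p / 2) ^ (L + 1) := by
  induction L with
  | zero =>
    rw [zero_add, Finset.sum_range_one]
    simp only [if_true, pow_zero, pow_one, le_refl, Nat.sub_self]
    linarith
  | succ L ih =>
    rw [Finset.sum_range_succ]
    have h1 : ∑ j ∈ Finset.range (L + 1), (1 - p / 2) ^ (L + 1 - j) * (if j = 0 then 1 - p else (p / 8) ^ j) =
        (1 - p / 2) * ∑ j ∈ Finset.range (L + 1), (1 - p / 2) ^ (L - j) * (if j = 0 then 1 - p else (p / 8) ^ j) := by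
      rw [Finset.mul_sum]
      apply Finset.sum_congr rfl
      intro j hj
      rw [Finset.mem_range] at hj
      have : L + 1 - j = (L - j) + 1 := by omega
      rw [this, pow_succ]
      ring
    rw [h1]
    set F := ∑ j ∈ Finset.range (L + 1), (1 - p / 2) ^ (L - j) * (if j = 0 then 1 - p else (p / 8) ^ j) with hF
    have h2 : (if L + 1 = 0 then 1 - p else (p / 8) ^ (L + 1)) = (p / 8) ^ (L + 1) := by
      rw [if_neg (by omega)]
    rw [h2, Nat.sub_self, pow_zero, one_mul]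
    have h3 : (1 - p / 2) * F ≤ (1 - p / 2) * ((1 - p / 2) ^ (L + 1) - 2 * (p / 8) ^ (L + 1)) :=
      mul_le_mul_of_nonneg_left (by linarith) (by linarith)
    have h4 : 0 < (p / 8) ^ (L + 1) := by positivity
    have h5 : (p / 8) ^ (L + 1 + 1) = (p / 8) * (p / 8) ^ (L + 1) := by
      rw [pow_succ]
      ring
    have h6 : (1 - p / 2) ^ (L + 1 + 1) = (1 - p / 2) * (1 - p / 2) ^ (L + 1) := by
      rw [pow_succ]
      ring
    rw [h5, h6]
    nlinarith

/-- the scales that are larger than 4 times ρ. -/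
def usable (H : Finset ℕ) (ρ : ℕ) : Finset ℕ := H.filter (fun k => 4 * ρ ≤ 2 ^ k)

lemma sep_card {d k0 K : ℕ} (hd : 1 ≤ d) (S : Finset ℕ) (h0 : ∀ k ∈ S, k0 + d ≤ k) (hK : ∀ k ∈ S, k ≤ K)
    (hsep : ∀ a ∈ S, ∀ b ∈ S, a < b → a + d ≤ b) : S.card * d ≤ K - k0 := by
  have h1 : S.card ≤ (Finset.Icc 1 ((K - k0) / d)).card := by
    apply Finset.card_le_card_of_injOn (fun k => (k - k0) / d)
    · intro k hk
      have hk' : k ∈ S := hk
      have h2 := h0 k hk'
      have h3 := hK k hk'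
      rw [Finset.coe_Icc, Set.mem_Icc]
      constructor
      · rw [Nat.le_div_iff_mul_le (by omega)]
        omega
      · exact Nat.div_le_div_right (by omega)
    · intro a ha b hb hab
      have ha' : a ∈ S := ha
      have hb' : b ∈ S := hb
      have hab' : (a - k0) / d = (b - k0) / d := hab
      have key : ∀ a ∈ S, ∀ b ∈ S, a < b → (a - k0) / d < (b - k0) / d := by
        intro a ha b hb hlt
        have h2 := hsep a ha b hb hlt
        have h3 := h0 a ha
        have h4 : (a - k0) / d + 1 = (a - k0 + d) / d := (Nat.add_div_right _ (by omega)).symm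
        have h5 : (a - k0 + d) / d ≤ (b - k0) / d := Nat.div_le_div_right (by omega)
        omega
      rcases Nat.lt_trichotomy a b with h | h | h
      · have := key a ha' b hb' h
        omega
      · exact h
      · have := key b hb' a ha' h
        omega
  rw [Nat.card_Icc, Nat.add_sub_cancel] at h1
  calc S.card * d ≤ (K - k0) / d * d := Nat.mul_le_mul_right d h1
    _ ≤ K - k0 := Nat.div_mul_le_self _ _

/-- if j scales are lost then the new start is high or far. -/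
lemma lost {d k0 : ℕ} (hd : 1 ≤ d) {H : Finset ℕ} (h0 : ∀ k ∈ H, k0 + d ≤ k)
    (hsep : ∀ a ∈ H, ∀ b ∈ H, a < b → a + d ≤ b) {ρ j : ℕ} (hj : 1 ≤ j) (hc : H.card - (usable H ρ).card = j) :
    2 ^ k0 * 2 ^ (d * j) < 4 * ρ := by
  have h1 : (H.filter (fun k => ¬ 4 * ρ ≤ 2 ^ k)).card = j := by
    have := Finset.card_filter_add_card_filter_not (s := H) (fun k => 4 * ρ ≤ 2 ^ k)
    unfold usable at hc
    omega
  set S := H.filter (fun k => ¬ 4 * ρ ≤ 2 ^ k) with hS
  have hne : S.Nonempty := by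
    rw [← Finset.card_pos]
    omega
  have hK := S.max'_mem hne
  set K := S.max' hne with hKdef
  have h2 := sep_card (d := d) (k0 := k0) (K := K) hd S (fun k hk => h0 k (Finset.mem_filter.1 hk).1)
    (fun k hk => S.le_max' k hk)
    (fun a ha b hb hab => hsep a (Finset.mem_filter.1 ha).1 b (Finset.mem_filter.1 hb).1 hab)
  have h3 := (Finset.mem_filter.1 hK).2
  have h4 := h0 K (Finset.mem_filter.1 hK).1
  rw [h1] at h2
  rw [← pow_add]
  have h5 : k0 + d * j ≤ K := by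
    rw [mul_comm]
    omega
  calc 2 ^ (k0 + d * j) ≤ 2 ^ K := Nat.pow_le_pow_right (by norm_num) h5
    _ < 4 * ρ := by omega

end Ex

end HexObs
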