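import Pool.Agent.HexSPR.KillD

/-!
KILL, part E: the killing theorem.
-/

set_option autoImplicit false

namespace HexObs

namespace Ex

open Complex Finset ENNReal

/-- start in absolute value. -/
def rho (f : ℕ) (x : ℤ) : ℕ := max f x.natAbs

/-- parts of the decomposition at the first cut above 2 h. -/
def ESet (Q : Set (List Bool)) (H : Finset ℕ) (s n f : ℕ) (x : ℤ) (j : ℕ) : Set (List Bool) :=
  {a | (∃ c, c ≤ n ∧ a ∈ FC s c ∧ H.card - (usable H (rho (f + c) (x + latE a))).card = j) ∧
    ¬ ∃ (b : ℕ) (q v : List Bool), q ∈ Q ∧ v ∈ Brd b ∧ a = q ++ v}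

/-- induction over separated scales. -/
theorem kill_ind {p : ℝ} (hp0 : 0 < p) (hp : p ≤ 1 / 2) {V d : ℕ} (hV : 1 ≤ V) (hd : 64 * V ^ 2 ≤ 2 ^ d)
    (hfar : ∀ s j n : ℕ, 1 ≤ s → 1 ≤ j → 2 * s ≤ n →
      gf (FCfar s ((V ^ j + 1) * s) ((V ^ j * (2 * ((V ^ j + 1) * s)) : ℕ) : ℤ) n) ≤
        ENNReal.ofReal ((p / 8) ^ j * uu n))
    (K : ℕ → ℤ → Prop) (good : ℕ → Prop)
    (hcode : ∀ k, good k → ∀ (f : ℕ) (x : ℤ), 4 * rho f x ≤ 2 ^ k →
      ENNReal.ofReal p ≤ gf (minW (kG (2 ^ k) f x K))) (H : Finset ℕ) :
    (∀ k ∈ H, good k) → (∀ a ∈ H, ∀ b ∈ H, a < b → a + d ≤ b) → ∀ (f : ℕ) (x : ℤ) (n : ℕ),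
      (∀ k ∈ H, 2 ^ k ≤ f + n) → gf {N | N ∈ Brd n ∧ ¬ Dead K f x N} ≤
        ENNReal.ofReal ((1 - p / 2) ^ (usable H (rho f x)).card * uu n) := by
  classical
  have hd1 : 6 ≤ d := by
    by_contra hcon
    have h1 : 2 ^ d ≤ 2 ^ 5 := Nat.pow_le_pow_right (by norm_num) (by omega)
    have h2 : 1 ≤ V ^ 2 := Nat.one_le_pow _ _ (by omega)
    omega
  induction H using Finset.induction_on_min with
  | empty =>
    intro _ _ f x n _
    unfold usable
    rw [Finset.filter_empty, Finset.card_empty, pow_zero, one_mul]
    exact gfB_le (T := n) fun N hN => hN.1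
  | insert k0 H hmin ih =>
    intro hgood hsep f x n hn
    have hk0 : k0 ∉ H := fun h => lt_irrefl _ (hmin k0 h)
    have ih' := ih (fun k hk => hgood k (Finset.mem_insert_of_mem hk))
      (fun a ha b hb => hsep a (Finset.mem_insert_of_mem ha) b (Finset.mem_insert_of_mem hb))
    have hsep0 : ∀ k ∈ H, k0 + d ≤ k := fun k hk =>
      hsep k0 (Finset.mem_insert_self _ _) k (Finset.mem_insert_of_mem hk) (hmin k hk)
    rcases Nat.lt_or_ge (2 ^ k0) (4 * rho f x) with hu | hu
    · -- the smallest scale is not usable
      have e : usable (insert k0 H) (rho f x) = usable H (rho f x) := by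
        unfold usable
        rw [Finset.filter_insert, if_neg (by omega)]
      rw [e]
      exact ih' f x n (fun k hk => hn k (Finset.mem_insert_of_mem hk))
    · -- usable
      have hun := uu_pos n
      set h := 2 ^ k0 with hh
      have hh1 : 1 ≤ h := Nat.one_le_two_pow
      have hcard : (usable (insert k0 H) (rho f x)).card = H.card + 1 := by
        have e : usable (insert k0 H) (rho f x) = insert k0 H := by
          unfold usable
          rw [Finset.filter_eq_self]
          intro k hk
          rcases Finset.mem_insert.1 hk with h1 | h1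
          · rw [h1]
            exact hu
          · exact hu.trans (Nat.pow_le_pow_right (by norm_num) (hmin k h1).le)
        rw [e, Finset.card_insert_of_notMem hk0]
      rw [hcard]
      have hf : 4 * f ≤ h := by
        have : f ≤ rho f x := le_max_left _ _
        omega
      have hx : 4 * x.natAbs ≤ h := by
        have : x.natAbs ≤ rho f x := le_max_right _ _
        omega
      have hnh : h ≤ f + n := hn k0 (Finset.mem_insert_self _ _)
      have hp1 := hcode k0 (hgood k0 (Finset.mem_insert_self _ _)) f x hu
      set Q := minW (kG h f x K) with hQ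
      have hQG : ∀ q ∈ Q, q ∈ kG h f x K := fun q hq => hq.1
      have hQc : IsCode Q := by
        apply isCode_min
        intro q hq
        obtain ⟨t, _, _, ht⟩ := kG_brd hq
        exact ⟨t, ht⟩
      have hQh : ∀ q ∈ Q, ∃ t, t ≤ h - f ∧ q ∈ Brd t := by
        intro q hq
        obtain ⟨t, h1, h2, ht⟩ := kG_brd (hQG q hq)
        exact ⟨t, by omega, ht⟩
      have hpre : gf (Brd n \ preW Q n) ≤ ENNReal.ofReal ((1 - p) * uu n) :=
        not_pre_le hQc hQh (by omega) hp0.le hp1
      have hsurv : ∀ N, N ∈ Brd n → ¬ Dead K f x N → N ∉ preW Q n := by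
        rintro N _ hdead ⟨_, b, q, u, hq, hu, e⟩
        apply hdead
        rw [e]
        exact dead_pre (kG_dead (hQG q hq)) hu
      rcases Finset.eq_empty_or_nonempty H with hH | hH
      · -- last scale
        rw [hH, Finset.card_empty, zero_add, pow_one]
        refine (gf_mono (fun N hN => ⟨hN.1, hsurv N hN.1 hN.2⟩) :
          gf {N | N ∈ Brd n ∧ ¬ Dead K f x N} ≤ gf (Brd n \ preW Q n)).trans (hpre.trans ?_)
        apply ENNReal.ofReal_le_ofReal
        exact mul_le_mul_of_nonneg_right (by linarith) hun.le
      · -- decomposition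
        obtain ⟨k', hk'⟩ := hH
        have hn2 : 2 * (2 * h) ≤ n := by
          have h1 := hn k' (Finset.mem_insert_of_mem hk')
          have h2 : 2 ^ (k0 + 6) ≤ 2 ^ k' := Nat.pow_le_pow_right (by norm_num) (by
            have := hsep0 k' hk'
            omega)
          have h3 : 2 ^ (k0 + 6) = h * 64 := by
            rw [pow_add]
            norm_num [hh]
          omega
        set L := H.card with hL
        -- the parts
        let E : ℕ → Set (List Bool) := fun j => ESet Q H (2 * h) n f x j
        have hEFC : ∀ j, ∀ a ∈ E j, ∃ c, a ∈ FC (2 * h) c := by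
          rintro j a ⟨⟨c, _, hc, _⟩, _⟩
          exact ⟨c, hc⟩
        have hcover : {N | N ∈ Brd n ∧ ¬ Dead K f x N} ⊆ ⋃ j ∈ Finset.range (L + 1),
            {N | ∃ a ∈ E j, ∃ u ∈ {u | ∃ c, a ∈ FC (2 * h) c ∧ u ∈ Brd (n - c) ∧
              ¬ Dead K (f + c) (x + latE a) u}, N = a ++ u} := by
          rintro N ⟨hN, hND⟩
          obtain ⟨c, a, u, h1, h2, ha, hu', e⟩ := FC_dec (s := 2 * h) (by omega) hN
          simp only [Set.mem_iUnion]
          refine ⟨L - (usable H (rho (f + c) (x + latE a))).card, Finset.mem_range.2 (by omega), a,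
            ⟨⟨c, h2, ha, rfl⟩, ?_⟩, u, ⟨c, ha, hu', ?_⟩, e⟩
          · rintro ⟨b, q, v, hq, hv, e'⟩
            apply hsurv N hN hND
            refine ⟨hN, b + (n - c), q, v ++ u, hq, Brd_append hv hu', ?_⟩
            rw [e, e', List.append_assoc]
          · intro hD
            apply hND
            rw [e]
            exact dead_append ha.1 hD
        have hbound : ∀ j ∈ Finset.range (L + 1),
            gf {N | ∃ a ∈ E j, ∃ u ∈ {u | ∃ c, a ∈ FC (2 * h) c ∧ u ∈ Brd (n - c) ∧
              ¬ Dead K (f + c) (x + latE a) u}, N = a ++ u} ≤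
            ENNReal.ofReal ((1 - p / 2) ^ (L - j) * (if j = 0 then 1 - p else (p / 8) ^ j) * uu n) := by
          intro j hj
          rw [Finset.mem_range] at hj
          have h1 := fiber_le (s := 2 * h) (n := n) (E j) (hEFC j)
            (fun a => {u | ∃ c, a ∈ FC (2 * h) c ∧ u ∈ Brd (n - c) ∧ ¬ Dead K (f + c) (x + latE a) u})
            (ENNReal.ofReal ((1 - p / 2) ^ (L - j))) (by
              intro a ha c hc
              obtain ⟨⟨c', hc'n, hc', hj'⟩, _⟩ := ha
              have hcc := Brd_height hc.1 hc'.1
              subst hcc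
              have hcarle : (usable H (rho (f + c) (x + latE a))).card ≤ L := Finset.card_filter_le _ _
              have h2 := ih' (f + c) (x + latE a) (n - c) (fun k hk => by
                have := hn k (Finset.mem_insert_of_mem hk)
                omega)
              have e1 : (usable H (rho (f + c) (x + latE a))).card = L - j := by omega
              rw [e1, ENNReal.ofReal_mul (by
                have : 0 < 1 - p / 2 := by linarith
                positivity), ← BT_eq] at h2
              refine (gf_mono ?_).trans h2
              rintro u ⟨c'', hc'', hu'', hD⟩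
              have := Brd_height hc.1 hc''.1
              subst this
              exact ⟨hu'', hD⟩)
          refine h1.trans ?_
          have hlam : 0 ≤ (1 - p / 2) ^ (L - j) := by
            have : 0 < 1 - p / 2 := by linarith
            positivity
          rw [mul_assoc, ENNReal.ofReal_mul hlam]
          refine mul_le_mul_right ?_ _
          rcases Nat.eq_zero_or_pos j with h0 | h0
          · -- no prefix in the code
            rw [if_pos h0]
            refine (gf_mono ?_).trans hpre
            rintro N ⟨a, ⟨⟨c', hc'n, hc', _⟩, hnq⟩, u, ⟨c, hc, hu'⟩, e⟩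
            have hcc := Brd_height hc.1 hc'.1
            subst hcc
            have hN : N ∈ Brd n := by
              have := Brd_append hc.1 hu'
              rwa [← e, Nat.add_sub_cancel' hc'n] at this
            refine ⟨hN, ?_⟩
            rintro ⟨_, b, q, v, hq, hv, e'⟩
            obtain ⟨t, ht, hqt⟩ := hQh q hq
            obtain ⟨w, hw, h3, -⟩ := cut_nested hqt hc.1 hv hu' (by
              have := hc.2.1
              omega) (e'.symm.trans e)
            exact hnq ⟨_, q, w, hq, hw, h3⟩
          · -- far
            rw [if_neg (by omega)]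
            refine (gf_mono ?_).trans (hfar (2 * h) j n (by omega) h0 hn2)
            rintro N ⟨a, ⟨⟨c', hc'n, hc', hj'⟩, _⟩, u, ⟨c, hc, hu'⟩, e⟩
            have hcc := Brd_height hc.1 hc'.1
            subst hcc
            refine ⟨c, a, u, hc'n, hc, hu', e, ?_⟩
            by_contra hcon
            push Not at hcon
            obtain ⟨c1, c2⟩ := hcon
            have h3 := lost (d := d) (k0 := k0) (by omega) hsep0
              (fun a ha b hb => hsep a (Finset.mem_insert_of_mem ha) b (Finset.mem_insert_of_mem hb)) h0 hj'
            -- the bounds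
            set W := V ^ j with hW
            have hW1 : 1 ≤ W := Nat.one_le_pow _ _ hV
            have hpow : 64 * W ^ 2 ≤ 2 ^ (d * j) := by
              have h4 : (64 * V ^ 2) ^ j ≤ (2 ^ d) ^ j := Nat.pow_le_pow_left hd j
              rw [← pow_mul] at h4
              refine le_trans ?_ h4
              rw [mul_pow, ← pow_mul, ← pow_mul, mul_comm j 2]
              exact Nat.mul_le_mul_right _ (by
                calc 64 = 64 ^ 1 := by norm_num
                  _ ≤ 64 ^ j := Nat.pow_le_pow_right (by norm_num) h0)
            have h5 : h * (64 * W ^ 2) < 4 * rho (f + c) (x + latE a) :=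
              lt_of_le_of_lt (Nat.mul_le_mul_left h hpow) h3
            have hWW : W ≤ W ^ 2 := by
              rw [sq]
              exact Nat.le_mul_of_pos_left W hW1
            have h6 : f + c ≤ 16 * (h * W ^ 2) := by
              have e2 : (W + 1) * (2 * h) = 2 * (h * W) + 2 * h := by ring
              have h7 : h * W ≤ h * W ^ 2 := Nat.mul_le_mul_left h hWW
              have h8 : h * 1 ≤ h * W ^ 2 := Nat.mul_le_mul_left h (hW1.trans hWW)
              rw [e2] at c1
              omega
            have h7 : (x + latE a).natAbs ≤ 16 * (h * W ^ 2) := by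
              have h8 : (latE a).natAbs ≤ W * (2 * ((W + 1) * (2 * h))) := by
                have h9 : ((latE a).natAbs : ℤ) = |latE a| := Int.natCast_natAbs _
                have h10 : ((latE a).natAbs : ℤ) ≤ ((W * (2 * ((W + 1) * (2 * h))) : ℕ) : ℤ) := by
                  rw [h9]
                  exact c2
                exact_mod_cast h10
              have h9 := Int.natAbs_add_le x (latE a)
              have e2 : W * (2 * ((W + 1) * (2 * h))) = 4 * (h * W ^ 2) + 4 * (h * W) := by ring
              have h10 : h * W ≤ h * W ^ 2 := Nat.mul_le_mul_left h hWW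
              have h11 : h * 1 ≤ h * W ^ 2 := Nat.mul_le_mul_left h (hW1.trans hWW)
              rw [e2] at h8
              omega
            have h8 : rho (f + c) (x + latE a) ≤ 16 * (h * W ^ 2) := max_le h6 h7
            have e3 : h * (64 * W ^ 2) = 64 * (h * W ^ 2) := by ring
            omega
        refine (gf_mono hcover).trans ((ENNReal.tsum_biUnion_le wE _ _).trans ?_)
        refine (Finset.sum_le_sum hbound).trans ?_
        have hnn : ∀ j ∈ Finset.range (L + 1),
            0 ≤ (1 - p / 2) ^ (L - j) * (if j = 0 then 1 - p else (p / 8) ^ j) * uu n := by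
          intro j _
          have h1 : 0 < 1 - p / 2 := by linarith
          have h2 : 0 < 1 - p := by linarith
          split_ifs <;> positivity
        rw [← ENNReal.ofReal_sum_of_nonneg hnn]
        apply ENNReal.ofReal_le_ofReal
        rw [← Finset.sum_mul]
        apply mul_le_mul_of_nonneg_right _ hun.le
        have h1 := real_sum hp0 hp L
        have h2 : 0 < (p / 8) ^ (L + 1) := by positivity
        linarith

end Ex

end HexObs
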