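import Pool.Agent.HexSPR.KillE

/-!
KILL, part F: the killing theorem.
-/

set_option autoImplicit false

namespace HexObs

namespace Ex

open Complex Finset ENNReal

open Filter Topology in
lemma exists_V {κ : ℝ} (hκ : 0 < κ) {δ : ℝ} (hδ : 0 < δ) : ∃ V : ℕ, 1 ≤ V ∧ (V : ℝ) ^ (-κ) ≤ δ := by
  have h1 : Tendsto (fun n : ℕ => (n : ℝ) ^ (-κ)) atTop (𝓝 0) :=
    (tendsto_rpow_neg_atTop hκ).comp tendsto_natCast_atTop_atTop
  obtain ⟨V, hV⟩ := ((h1.eventually (gt_mem_nhds hδ)).and (eventually_ge_atTop 1)).exists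
  exact ⟨V, hV.2, hV.1.le⟩

lemma pigeon (H : Finset ℕ) {d : ℕ} (hd : 1 ≤ d) : ∃ r, H.card ≤ d * (H.filter (fun k => k % d = r)).card := by
  by_contra hcon
  push Not at hcon
  have h1 := Finset.card_eq_sum_card_fiberwise (s := H) (t := Finset.range d) (f := fun k => k % d)
    (fun k _ => Finset.mem_coe.2 (Finset.mem_range.2 (Nat.mod_lt _ hd)))
  have h2 : ∑ r ∈ Finset.range d, d * (H.filter (fun k => k % d = r)).card < ∑ _r ∈ Finset.range d, H.card :=
    Finset.sum_lt_sum_of_nonempty ⟨0, Finset.mem_range.2 hd⟩ (fun r _ => hcon r)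
  rw [← Finset.mul_sum, ← h1, Finset.sum_const, Finset.card_range, smul_eq_mul] at h2
  exact lt_irrefl _ h2

/-- KILL: a fresh bridge N of height n that starts at height f and position x (both at most 2^i) survives with
probability at most C (1 - ε)^(number of the scales in H), where at every scale 2^k, k in H, for a positive fraction
of the rows y in (2^(k-1), 2^k] all positions beyond A 2^k are killing (N is killed when it passes such a row by a
straight step there). -/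
theorem KILL {C0 q : ℝ} (hC0 : 0 < C0) (hq0 : 0 < q) (hq1 : q < 1) (hL : LatR C0 q) (A : ℕ) {θ : ℝ} (hθ : 0 < θ) :
    ∃ ε C : ℝ, 0 < ε ∧ ε < 1 ∧ 0 < C ∧ ∀ (K : ℕ → ℤ → Prop) (f : ℕ) (x : ℤ) (i n : ℕ) (H : Finset ℕ),
      f ≤ 2 ^ i → x.natAbs ≤ 2 ^ i → (∀ k ∈ H, i < k ∧ 2 ^ k ≤ f + n ∧ θ * 2 ^ k ≤ (rowsK K A (2 ^ k)).card) →
      gf {N | N ∈ Brd n ∧ ¬ Dead K f x N} ≤ ENNReal.ofReal (C * (1 - ε) ^ H.card * uu n) := by
  obtain ⟨Cl, hCl⟩ := lat1_of_lat0 (lat0_of_latR hq0 hq1 hL)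
  have hspr := spr_of_lat (by norm_num : (0 : ℝ) < 1 / 2) hCl
  obtain ⟨p, hp0, hp, hcode⟩ := kill_code hspr A hθ
  obtain ⟨C2, hC2, hE2⟩ := E2 hC0 hq0 hq1 hL
  have hCW := CWp
  have hC2p : 0 < C2 := by linarith
  obtain ⟨V, hV, hVp⟩ := exists_V (κ := 1 / (6 + CW)) (by positivity) (δ := p / 8 / C2) (by positivity)
  set κ := 1 / (6 + CW) with hκ
  set d := 64 * V ^ 2 with hd
  have hd2 : 64 * V ^ 2 ≤ 2 ^ d := (Nat.lt_two_pow_self (n := d)).le
  have hV2 : 1 ≤ V ^ 2 := Nat.one_le_pow _ _ hV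
  have hd1 : 1 ≤ d := by omega
  have hdp : (1 : ℝ) ≤ d := by exact_mod_cast hd1
  have hfar : ∀ s j n : ℕ, 1 ≤ s → 1 ≤ j → 2 * s ≤ n →
      gf (FCfar s ((V ^ j + 1) * s) ((V ^ j * (2 * ((V ^ j + 1) * s)) : ℕ) : ℤ) n) ≤
        ENNReal.ofReal ((p / 8) ^ j * uu n) := by
    intro s j n hs hj hn
    refine (hE2 s (V ^ j) n hs (Nat.one_le_pow _ _ hV) hn).trans ?_
    apply ENNReal.ofReal_le_ofReal
    apply mul_le_mul_of_nonneg_right _ (uu_pos n).le
    have e1 : ((V ^ j : ℕ) : ℝ) ^ (-κ) = ((V : ℝ) ^ (-κ)) ^ j := by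
      push_cast
      rw [← Real.rpow_natCast ((V : ℝ)) j, ← Real.rpow_mul (by positivity), mul_comm, Real.rpow_mul (by positivity),
        Real.rpow_natCast]
    rw [e1]
    have h1 : ((V : ℝ) ^ (-κ)) ^ j ≤ (p / 8 / C2) ^ j := pow_le_pow_left₀ (by positivity) hVp j
    obtain ⟨m, rfl⟩ : ∃ m, j = m + 1 := ⟨j - 1, by omega⟩
    calc C2 * ((V : ℝ) ^ (-κ)) ^ (m + 1) ≤ C2 * (p / 8 / C2) ^ (m + 1) := mul_le_mul_of_nonneg_left h1 hC2p.le
      _ = (p / 8) ^ (m + 1) * (1 / C2) ^ m := by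
          rw [div_pow (p / 8) C2, div_pow 1 C2, one_pow, pow_succ C2]
          field_simp
      _ ≤ (p / 8) ^ (m + 1) * 1 := by
          apply mul_le_mul_of_nonneg_left _ (by positivity)
          apply pow_le_one₀ (by positivity)
          rw [div_le_one hC2p]
          exact hC2
      _ = _ := mul_one _
  set ε := p / 2 / d with hε
  have hε0 : 0 < ε := by positivity
  have hε1 : ε ≤ 1 / 4 := by
    rw [hε, div_le_iff₀ (by linarith)]
    nlinarith
  have hεd : 1 - p / 2 ≤ (1 - ε) ^ d := by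
    have h1 := one_add_mul_le_pow (a := -ε) (by linarith) d
    have e1 : (d : ℝ) * ε = p / 2 := by
      rw [hε]
      field_simp
    have e2 : (1 : ℝ) + d * -ε = 1 - p / 2 := by linarith
    rw [e2] at h1
    exact h1
  refine ⟨ε, ((1 - ε) ^ d)⁻¹, hε0, by linarith, ?_, ?_⟩
  · have : 0 < 1 - ε := by linarith
    positivity
  intro K f x i n H hf hx hH
  have h1ε : 0 < 1 - ε := by linarith
  obtain ⟨r, hr⟩ := pigeon H hd1
  set H1 := H.filter (fun k => k % d = r) with hH1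
  set H2 := H1.filter (fun k => i + 2 ≤ k) with hH2
  have hcard : H1.card ≤ H2.card + 1 := by
    have hsub : H1 ⊆ insert (i + 1) H2 := by
      intro k hk
      rw [Finset.mem_insert]
      rcases Nat.lt_or_ge k (i + 2) with h1 | h1
      · left
        have := (hH k (Finset.mem_filter.1 hk).1).1
        omega
      · right
        exact Finset.mem_filter.2 ⟨hk, h1⟩
    exact (Finset.card_le_card hsub).trans (Finset.card_insert_le _ _)
  have hrho : rho f x ≤ 2 ^ i := max_le hf hx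
  have hus : usable H2 (rho f x) = H2 := by
    unfold usable
    rw [Finset.filter_eq_self]
    intro k hk
    have h1 := (Finset.mem_filter.1 hk).2
    have h2 : 2 ^ (i + 2) ≤ 2 ^ k := Nat.pow_le_pow_right (by norm_num) h1
    rw [pow_add] at h2
    omega
  have hmain := kill_ind hp0 hp (V := V) (d := d) hV hd2 hfar K
    (fun k => 4 ≤ 2 ^ k ∧ θ * (2 ^ k : ℕ) ≤ (rowsK K A (2 ^ k)).card)
    (fun k hk f x hfx => by
      have h1 : f ≤ rho f x := le_max_left _ _
      have h2 : x.natAbs ≤ rho f x := le_max_right _ _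
      refine hcode (2 ^ k) f x K hk.1 (by omega) ?_ hk.2
      have h3 : ((x.natAbs : ℕ) : ℤ) = |x| := Int.natCast_natAbs _
      rw [← h3]
      have h4 : 4 * x.natAbs ≤ 2 ^ k := by omega
      exact_mod_cast h4) H2
    (fun k hk => by
      have h1 := (Finset.mem_filter.1 hk).2
      have h2 := hH k (Finset.mem_filter.1 (Finset.mem_filter.1 hk).1).1
      refine ⟨?_, ?_⟩
      · calc 4 = 2 ^ 2 := by norm_num
          _ ≤ 2 ^ k := Nat.pow_le_pow_right (by norm_num) (by omega)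
      · push_cast
        exact h2.2.2)
    (fun a ha b hb hab => by
      have h1 := (Finset.mem_filter.1 (Finset.mem_filter.1 ha).1).2
      have h2 := (Finset.mem_filter.1 (Finset.mem_filter.1 hb).1).2
      have h3 : a ≡ b [MOD d] := h1.trans h2.symm
      have h4 : d ∣ b - a := (Nat.modEq_iff_dvd' hab.le).1 h3
      have h5 : d ≤ b - a := Nat.le_of_dvd (by omega) h4
      omega)
    f x n (fun k hk => (hH k (Finset.mem_filter.1 (Finset.mem_filter.1 hk).1).1).2.1)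
  rw [hus] at hmain
  refine hmain.trans (ENNReal.ofReal_le_ofReal ?_)
  apply mul_le_mul_of_nonneg_right _ (uu_pos n).le
  have h1 : (1 - p / 2) ^ H2.card ≤ ((1 - ε) ^ d) ^ H2.card := pow_le_pow_left₀ (by linarith) hεd _
  have h2 : (1 - ε) ^ (d * H2.card + d) ≤ (1 - ε) ^ H.card := by
    apply pow_le_pow_of_le_one h1ε.le (by linarith)
    calc H.card ≤ d * H1.card := hr
      _ ≤ d * (H2.card + 1) := Nat.mul_le_mul_left d hcard
      _ = d * H2.card + d := by ring
  have h3 : 0 < (1 - ε) ^ d := by positivity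
  rw [pow_add] at h2
  rw [inv_mul_eq_div, le_div_iff₀ h3]
  calc (1 - p / 2) ^ H2.card * (1 - ε) ^ d ≤ ((1 - ε) ^ d) ^ H2.card * (1 - ε) ^ d :=
        mul_le_mul_of_nonneg_right h1 h3.le
    _ = (1 - ε) ^ (d * H2.card) * (1 - ε) ^ d := by rw [← pow_mul (1 - ε) d H2.card]
    _ ≤ (1 - ε) ^ H.card := h2

end Ex

end HexObs
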