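import Pool.Agent.HexSPR.KillF
import Pool.Agent.PHW.Kill

/-!
KILL, part G: mirror image; a bridge on the left (or on the right) of a fixed walk.
-/

set_option autoImplicit false

namespace HexObs

namespace Ex

open Complex Finset ENNReal

/-- the mirror image of Dead. -/
def DeadL (K : ℕ → ℤ → Prop) (f : ℕ) (x : ℤ) (N : List Bool) : Prop :=
  ∃ (c b : ℕ) (s u : List Bool), s ∈ Brd c ∧ u ∈ Brd b ∧ N = s ++ [false, true] ++ u ∧ K (f + c + 1) (x + latE s)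

/-- the rows of the window of h where every position beyond - A h is killing. -/
noncomputable def rowsL (K : ℕ → ℤ → Prop) (A h : ℕ) : Finset ℕ :=
  open Classical in (Finset.Icc (h / 2 + 1) h).filter (fun y => ∀ z : ℤ, z ≤ -(A * h) → K y z)

/-- KILL, mirror image. -/
theorem KILL_L {C0 q : ℝ} (hC0 : 0 < C0) (hq0 : 0 < q) (hq1 : q < 1) (hL : LatR C0 q) (A : ℕ) {θ : ℝ} (hθ : 0 < θ) :
    ∃ ε C : ℝ, 0 < ε ∧ ε < 1 ∧ 0 < C ∧ ∀ (K : ℕ → ℤ → Prop) (f : ℕ) (x : ℤ) (i n : ℕ) (H : Finset ℕ),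
      f ≤ 2 ^ i → x.natAbs ≤ 2 ^ i → (∀ k ∈ H, i < k ∧ 2 ^ k ≤ f + n ∧ θ * 2 ^ k ≤ (rowsL K A (2 ^ k)).card) →
      gf {N | N ∈ Brd n ∧ ¬ DeadL K f x N} ≤ ENNReal.ofReal (C * (1 - ε) ^ H.card * uu n) := by
  classical
  obtain ⟨ε, C, h1, h2, h3, h4⟩ := KILL hC0 hq0 hq1 hL A hθ
  refine ⟨ε, C, h1, h2, h3, ?_⟩
  intro K f x i n H hf hx hH
  have h5 := h4 (fun y z => K y (-z)) f (-x) i n H hf (by rw [Int.natAbs_neg]; exact hx) (fun k hk => by
    obtain ⟨a1, a2, a3⟩ := hH k hk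
    refine ⟨a1, a2, a3.trans ?_⟩
    have hsub : rowsL K A (2 ^ k) ⊆ rowsK (fun y z => K y (-z)) A (2 ^ k) := by
      intro y hy
      rw [rowsL, Finset.mem_filter] at hy
      rw [rowsK, Finset.mem_filter]
      refine ⟨hy.1, fun z hz => hy.2 (-z) ?_⟩
      linarith
    exact_mod_cast Finset.card_le_card hsub)
  refine le_trans ?_ h5
  have := gf_le_of_inj (P := {N | N ∈ Brd n ∧ ¬ DeadL K f x N})
    (Q := {N | N ∈ Brd n ∧ ¬ Dead (fun y z => K y (-z)) f (-x) N}) (fun t => t.map not) (by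
      rintro N ⟨hN, hD⟩
      refine ⟨Brd_not hN, ?_⟩
      rintro ⟨c, b, s, u, hs, hu, e, hK⟩
      apply hD
      refine ⟨c, b, s.map not, u.map not, Brd_not hs, Brd_not hu, ?_, ?_⟩
      · have := congrArg (List.map not) e
        rw [map_not_not] at this
        rw [this]
        simp
      · rw [latE_not]
        have e2 : x + -latE s = -(-x + latE s) := by ring
        rw [e2]
        exact hK) (by
      intro s _ t _ hst
      have := congrArg (List.map not) hst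
      rwa [map_not_not, map_not_not] at this) 1 (by
      intro t _
      rw [one_mul, wE_map_not])
  rwa [one_mul] at this

/-- killing positions for a bridge on the left of the walk t (foot k, vertices up to the number m). -/
def KP (t : List Bool) (m : ℕ) (k : ℤ) (y : ℕ) (z : ℤ) : Prop :=
  ∃ j, 1 ≤ j ∧ j ≤ m ∧ (lev t j = 3 * y - 1 ∨ lev t j = 3 * y) ∧ lat t j + 2 * k ≤ z

/-- a bridge N on the left of the walk t and off it is not dead. -/
theorem not_dead_of_off {a m : ℕ} {k : ℤ} {N t : List Bool} (hN : N ∈ Brd a)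
    (ht : ∀ i, 1 ≤ i → i ≤ m → 0 < lev t i ∧ lev t i ≤ 3 * a) (hk : 0 < k)
    (hd : ∀ i, 1 ≤ i → i ≤ N.length → ∀ j, 1 ≤ j → j ≤ m →
      vx (foot oo up 0) up N i ≠ vx (foot oo up k) up t j) : ¬ Dead (KP t m k) 0 0 N := by
  rintro ⟨c, b, s, u, hs, hu, e, j, j1, j2, j3, j4⟩
  have ha : a = c + 1 + b := by
    rw [e] at hN
    exact Brd_height hN (Brd_append (Brd_append hs tf_mem) hu)
  rw [e] at hd
  have e1 : c + 1 - 1 = c := by omega
  have e2 : a - (c + 1) = b := by omega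
  have h1 := kill_path (a := a) (y := c + 1) (m := j) (k := k) (s1 := s) (s2 := u) (t := t) (by omega) (by omega)
    (by rw [e1]; exact hs) (by rw [e2]; exact hu) j1 (fun i i1 i2 => ht i i1 (by omega)) hk
    (fun i i1 i2 j' k1 k2 => hd i i1 i2 j' k1 (by omega)) (by
      have e3 : 0 + c + 1 = c + 1 := by omega
      rw [e3] at j3
      exact j3)
  linarith

/-- survival of a fresh bridge beside a fixed walk t on its right: (FL) for one leg. -/
theorem KILL_path {C0 q : ℝ} (hC0 : 0 < C0) (hq0 : 0 < q) (hq1 : q < 1) (hL : LatR C0 q) (A : ℕ) {θ : ℝ} (hθ : 0 < θ) :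
    ∃ ε C : ℝ, 0 < ε ∧ ε < 1 ∧ 0 < C ∧ ∀ (a m : ℕ) (k : ℤ) (t : List Bool) (H : Finset ℕ), 0 < k →
      (∀ i, 1 ≤ i → i ≤ m → 0 < lev t i ∧ lev t i ≤ 3 * a) →
      (∀ l ∈ H, 0 < l ∧ 2 ^ l ≤ a ∧ θ * 2 ^ l ≤ (rowsK (KP t m k) A (2 ^ l)).card) →
      gf {N | N ∈ Brd a ∧ ∀ i, 1 ≤ i → i ≤ N.length → ∀ j, 1 ≤ j → j ≤ m →
        vx (foot oo up 0) up N i ≠ vx (foot oo up k) up t j} ≤ ENNReal.ofReal (C * (1 - ε) ^ H.card * uu a) := by
  obtain ⟨ε, C, h1, h2, h3, h4⟩ := KILL hC0 hq0 hq1 hL A hθ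
  refine ⟨ε, C, h1, h2, h3, ?_⟩
  intro a m k t H hk ht hH
  refine le_trans (gf_mono ?_) (h4 (KP t m k) 0 0 0 a H (by norm_num) (by norm_num) (fun l hl => by
    obtain ⟨a1, a2, a3⟩ := hH l hl
    exact ⟨a1, by omega, a3⟩))
  rintro N ⟨hN, hd⟩
  exact ⟨hN, not_dead_of_off hN ht hk hd⟩

end Ex

end HexObs
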