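import Pool.Agent.HexSPR.Code2

/-!
LAT0 from the exponential decay of the corner weights.
-/

set_option autoImplicit false

namespace HexObs

namespace Ex

open Complex Finset ENNReal Filter Topology

lemma ip_rot (p : Pt) : 2 * ip p (rotR up) = 3 * p.1 + ip p up := by
  have : rotR up = (1, 0) := by decide
  rw [this]
  unfold ip up
  simp only
  ring

/-- LAT0 from the two facts of the tube lemma. -/
theorem lat0_of
    (lat1 : ∀ T m : ℕ, 1 ≤ T → 1 ≤ m → (sc T (m * T)).toReal ≤ 6000 * (2 - Real.sqrt 2) ^ m * bT T)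
    (sc_top : ∀ T r : ℕ, 1 ≤ T → 1 ≤ r → sc T r ≠ ∞)
    (far_le : ∀ T r : ℕ, 1 ≤ T → 1 ≤ r →
      gf {t | t ∈ Br (St T) ∅ oo up ∧ ∃ i, i ≤ t.length + 1 ∧ (3 * r : ℤ) ≤ ip (vx oo up t i - oo) (rotR up)} ≤
        sc T r) : Lat0 := by
  intro ε hε
  have hs2 : 1 < Real.sqrt 2 := by
    rw [Real.lt_sqrt (by norm_num)]; norm_num
  have hs3 : Real.sqrt 2 < 2 := by
    rw [Real.sqrt_lt' (by norm_num)]; norm_num
  have hlim : Tendsto (fun m : ℕ => 12000 * (2 - Real.sqrt 2) ^ m) atTop (𝓝 (12000 * 0)) :=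
    (_root_.tendsto_pow_atTop_nhds_zero_of_lt_one (by linarith) (by linarith)).const_mul _
  rw [mul_zero] at hlim
  obtain ⟨m, hm⟩ := ((hlim.eventually (gt_mem_nhds hε)).and (eventually_ge_atTop 1)).exists
  refine ⟨2 * m, ?_⟩
  intro T hT
  have hr : 1 ≤ m * T := Nat.mul_pos hm.2 hT
  have h1 := lat1 T m hT hm.2
  have h2 := far_le T (m * T) hT hr
  set R := {t | t ∈ Br (St T) ∅ oo up ∧ ∃ i, i ≤ t.length + 1 ∧
    (3 * (m * T : ℕ) : ℤ) ≤ ip (vx oo up t i - oo) (rotR up)} with hR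
  -- the right side
  have key : ∀ t ∈ Brd T, ∀ i, i ≤ t.length → (2 * m * T : ℤ) < lat t i → t ∈ R := by
    intro t ht i hi h
    refine ⟨ht, i, by omega, ?_⟩
    have h3 := ip_rot (vx oo up t i - oo)
    rw [lev_sub] at h3
    have h4 : (vx oo up t i - oo).1 = lat t i := by
      unfold lat oo
      simp only [cross, up, Prod.fst_sub]
      ring
    rw [h4] at h3
    have h5 : 0 ≤ lev t i := by
      rcases Nat.eq_zero_or_pos i with h0 | h0
      · rw [h0, lev_zero]
      · exact ((mem_Brd.1 ht).1 i h0 hi).1.le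
    push_cast
    nlinarith
  have hsub : {t | t ∈ Brd T ∧ ∃ i, i ≤ t.length ∧ ((2 * m : ℕ) * T : ℤ) < |lat t i|} ⊆
      R ∪ {t | t.map not ∈ R} := by
    rintro t ⟨ht, i, hi, h⟩
    push_cast at h
    rcases abs_cases (lat t i) with ⟨h3, _⟩ | ⟨h3, _⟩
    · rw [h3] at h
      exact Or.inl (key t ht i hi h)
    · rw [h3] at h
      right
      apply key (t.map not) (Brd_not ht) i (by rw [List.length_map]; exact hi)
      rw [lat_not t (by omega)]
      exact h
  have h3 : gf {t | t.map not ∈ R} ≤ gf R := by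
    have := gf_le_of_inj (P := {t | t.map not ∈ R}) (Q := R) (fun t => t.map not) (fun t ht => ht) (by
      intro s _ t _ hst
      have := congrArg (List.map not) hst
      rwa [map_not_not, map_not_not] at this) 1 (by
      intro t _
      rw [one_mul, wE_map_not])
    rwa [one_mul] at this
  have h4 : gf R ≤ ENNReal.ofReal (6000 * (2 - Real.sqrt 2) ^ m * bT T) := by
    refine h2.trans ?_
    rw [← ENNReal.ofReal_toReal (sc_top T (m * T) hT hr)]
    exact ENNReal.ofReal_le_ofReal h1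
  have hb := bT_nonneg T
  have hq : 0 ≤ (2 - Real.sqrt 2) ^ m := by
    have : 0 ≤ 2 - Real.sqrt 2 := by linarith
    positivity
  calc gf {t | t ∈ Brd T ∧ ∃ i, i ≤ t.length ∧ ((2 * m : ℕ) * T : ℤ) < |lat t i|} ≤ gf R + gf {t | t.map not ∈ R} :=
        (gf_mono hsub).trans (gf_union_le _ _)
    _ ≤ ENNReal.ofReal (6000 * (2 - Real.sqrt 2) ^ m * bT T) +
        ENNReal.ofReal (6000 * (2 - Real.sqrt 2) ^ m * bT T) := add_le_add h4 (h3.trans h4)
    _ = ENNReal.ofReal (12000 * (2 - Real.sqrt 2) ^ m * bT T) := by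
        rw [← ENNReal.ofReal_add (by positivity) (by positivity)]
        congr 1
        ring
    _ ≤ ENNReal.ofReal (ε * bT T) :=
        ENNReal.ofReal_le_ofReal (mul_le_mul_of_nonneg_right hm.1.le hb)

end Ex

end HexObs
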