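import Pool.Agent.HexObs.Ex2
import Pool.Agent.HexW.T3Lim

/-!
The inequalities with prescribed ends in the strip.
-/

set_option autoImplicit false

namespace HexObs

namespace Ex

open Complex Finset ENNReal Filter Topology

/-- sums over bridges converge. -/
lemma up_overE {Om : ℕ → Set Pt} {Ω : Set Pt} {v d0 : Pt} {W : Set Pt}
    (h : ∀ X, HexW.Inc (fun n => BrE (Om n) X v d0 W) (BrE Ω X v d0 W)) {F : ℕ → Set Pt → ℝ≥0∞}
    {G : Set Pt → ℝ≥0∞} (hF : HexW.Up F G) : HexW.Up (fun n => overE (Om n) v d0 W (F n)) (overE Ω v d0 W G) := by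
  have hm : ∀ X : Set Pt, Monotone (fun (n : ℕ) (s : List Bool) => wE s * F n (X ∪ vis v d0 s)) := by
    intro X n m hnm s
    exact mul_le_mul_right (hF.mono hnm _) _
  constructor
  · intro n m hnm X
    unfold overE
    apply ENNReal.tsum_le_tsum
    intro s
    exact (h X).ind_mono _ (hm X) hnm s
  · intro X
    unfold overE
    rw [← HexW.tsum_iSup_mono _ ((h X).ind_mono _ (hm X))]
    apply tsum_congr
    intro s
    rw [← (h X).ind _ (hm X) s]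
    congr 1
    funext s
    rw [hF.sup, ENNReal.mul_iSup]

lemma inc_BrE {v0 d0 : Pt} (h0 : d0 ∈ dirs) {T N : ℕ} (hT : 1 ≤ T) {k : ℤ} (hk : |k| < N) (W X : Set Pt) :
    HexW.Inc (fun n => BrE (trap v0 d0 T (n + N)) X (foot v0 d0 k) d0 W)
      (BrE (strip v0 d0 T) X (foot v0 d0 k) d0 W) :=
  (HexW.inc_Br h0 hT hk X).inter {t | tip (foot v0 d0 k) d0 t ∈ W}

lemma overE_le_overBr {Ω : Set Pt} {v d0 : Pt} {W : Set Pt} {F G : Set Pt → ℝ≥0∞} (h : ∀ X, F X ≤ G X)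
    (X : Set Pt) : overE Ω v d0 W F X ≤ overBr Ω v d0 G X := by
  rw [← overE_univ]
  exact overE_mono (Set.subset_univ W) h X

lemma up_P2E {v0 d0 : Pt} (h0 : d0 ∈ dirs) {T N : ℕ} (hT : 1 ≤ T) {a b : ℤ} (ha : |a| < N) (hb : |b| < N)
    (Wa Wb : Set Pt) :
    HexW.Up (fun n => P2E (trap v0 d0 T (n + N)) v0 d0 a Wa b Wb) (P2E (strip v0 d0 T) v0 d0 a Wa b Wb) :=
  up_overE (fun X => inc_BrE h0 hT ha Wa X) (HexW.up_gf (fun X => inc_BrE h0 hT hb Wb X))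

lemma up_Q2E {v0 d0 : Pt} (h0 : d0 ∈ dirs) {T N : ℕ} (hT : 1 ≤ T) {a b : ℤ} (ha : |a| < N) (hb : |b| < N)
    (Wa Wb : Set Pt) {P : ℕ → Set Pt → Set (List Bool)} {Q : Set Pt → Set (List Bool)}
    (h : ∀ X, HexW.Inc (fun n => P n X) (Q X)) :
    HexW.Up (fun n => Q2E (trap v0 d0 T (n + N)) v0 d0 a Wa b Wb (P n))
      (Q2E (strip v0 d0 T) v0 d0 a Wa b Wb Q) :=
  up_overE (fun X => inc_BrE h0 hT ha Wa X) (up_overE (fun X => inc_BrE h0 hT hb Wb X) (HexW.up_gf h))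

/-! finiteness -/

lemma P2E_le_P2 {Ω : Set Pt} {v0 d0 : Pt} {a b : ℤ} {Wa Wb : Set Pt} {X : Set Pt} :
    P2E Ω v0 d0 a Wa b Wb X ≤ P2 Ω v0 d0 a b X :=
  overE_le_overBr (fun Y => gf_mono (brE_sub (X := Y) (W := Wb))) X

lemma Q2E_le_Q2 {Ω : Set Pt} {v0 d0 : Pt} {a b : ℤ} {Wa Wb : Set Pt} {D D' : Set Pt → Set (List Bool)}
    (h : ∀ Z, D Z ⊆ D' Z) {X : Set Pt} :
    Q2E Ω v0 d0 a Wa b Wb D X ≤ Q2 Ω v0 d0 a b D' X :=
  overE_le_overBr (fun Y => overE_le_overBr (fun Z => gf_mono (h Z)) Y) X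

lemma P2E_ne_top {T : ℕ} (hT : 1 ≤ T) (a b : ℤ) (Wa Wb : Set Pt) (X : Set Pt) :
    P2E (St T) oo up a Wa b Wb X ≠ ∞ :=
  ne_top_of_le_ne_top ENNReal.one_ne_top (P2E_le_P2.trans (HexW.P2_strip_le HexW.up_mem hT a b X))

lemma Q2E_ne_top {T : ℕ} (hT : 1 ≤ T) (a b : ℤ) (Wa Wb : Set Pt) {Q : Set Pt → Set (List Bool)}
    {c : ℝ≥0∞} (hc : c ≠ ∞) (hQ : ∀ Z, gf (Q Z) ≤ c) (X : Set Pt) : Q2E (St T) oo up a Wa b Wb Q X ≠ ∞ :=
  ne_top_of_le_ne_top hc ((Q2E_le_Q2 (fun Z => le_refl (Q Z))).trans (HexW.Q2_strip_le HexW.up_mem hT a b hQ X))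

/-- the error terms disappear. -/
lemma errE_tendsto {v0 d0 : Pt} (h0 : d0 ∈ dirs) {T N : ℕ} (hT : 1 ≤ T) {a b k : ℤ} (ha : |a| < N) (hb : |b| < N)
    (hk : |k| < N) (Wa Wb : Set Pt) : Tendsto (fun n => Q2E (trap v0 d0 T (n + N)) v0 d0 a Wa b Wb
      (fun Z => Lat (trap v0 d0 T (n + N)) Z (foot v0 d0 k) d0) ∅) atTop (𝓝 0) := by
  refine tendsto_of_tendsto_of_tendsto_of_le_of_le tendsto_const_nhds (HexW.err_tendsto (v0 := v0) h0 hT ha hb hk)
    (fun _ => zero_le) ?_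
  intro n
  exact Q2E_le_Q2 (fun Z => le_refl _)

/-- the error term with one walker disappears. -/
lemma err1_tendsto {v0 d0 : Pt} (h0 : d0 ∈ dirs) {T N : ℕ} (hT : 1 ≤ T) {a k : ℤ} (ha : |a| < N)
    (hk : |k| < N) (W : Set Pt) : Tendsto (fun n => overE (trap v0 d0 T (n + N)) (foot v0 d0 a) d0 W
      (fun Z => gf (Lat (trap v0 d0 T (n + N)) Z (foot v0 d0 k) d0)) ∅) atTop (𝓝 0) := by
  have hN : ∀ {j : ℤ}, |j| < N → ∀ n : ℕ, |j| < ((n + N : ℕ) : ℤ) := by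
    intro j hj n
    push_cast
    linarith
  have h1 : Tendsto (fun n => gf (HexW.Lat (trap v0 d0 T (n + N)) ∅ true (foot v0 d0 k) d0) +
      gf (HexW.Lat (trap v0 d0 T (n + N)) ∅ false (foot v0 d0 k) d0)) atTop (𝓝 (0 + 0)) :=
    (HexW.lat_tendsto h0 hT hk true ∅).add (HexW.lat_tendsto h0 hT hk false ∅)
  rw [add_zero] at h1
  refine tendsto_of_tendsto_of_tendsto_of_le_of_le tendsto_const_nhds h1 (fun _ => zero_le) ?_
  intro n
  have hB : BT T ≤ 1 := BT_le_one hT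
  have e3 := overE_le (Ω := trap v0 d0 T (n + N)) (v := foot v0 d0 a) (d0 := d0) (W := W)
    (F := fun Z => gf (Lat (trap v0 d0 T (n + N)) Z (foot v0 d0 k) d0)) (X := ∅) (B := 1)
    (fun Z => HexW.latA_le h0 hT (hN hk n) Z)
    (((gf_mono brE_sub).trans (HexW.gf_Br_trap_le h0 hT (hN ha n) ∅)).trans hB)
  rw [mul_one] at e3
  exact e3

/-- THREE EXPLORERS, prescribed ends, in the strip. -/
theorem T3F {T : ℕ} (hT : 1 ≤ T) {d : ℕ} (hd : 1 ≤ d) (W : Set Pt) :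
    Real.sin (Real.pi / 8) * ((P2E (St T) oo up 0 Set.univ 1 W ∅).toReal -
        (Q2E (St T) oo up 0 Set.univ 1 W (fun Z => BrE (St T) Z (foot oo up (1 + d)) up Set.univ) ∅).toReal) -
        (Q2E (St T) oo up 0 Set.univ 1 W (fun Z => DnL (St T) Z (foot oo up (1 + d)) up) ∅).toReal +
        (Q2E (St T) oo up 0 Set.univ 1 W (fun Z => DnR (St T) Z (foot oo up (1 + d)) up) ∅).toReal /
          Real.sqrt 2 ≤
      Real.sin (3 * Real.pi / 8) *
        ((P2E (St T) oo up 0 Set.univ (1 + d) W ∅).toReal - (P2E (St T) oo up 1 Set.univ (1 + d) W ∅).toReal) := by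
  have h0 := HexW.up_mem
  set N := d + 2 with hN
  have k0 : |(0 : ℤ)| < (N : ℤ) := by
    rw [abs_zero, hN]
    push_cast
    positivity
  have k1 : |(1 : ℤ)| < (N : ℤ) := by
    rw [abs_one, hN]
    push_cast
    have : (1 : ℤ) ≤ d := by exact_mod_cast hd
    linarith
  have kd : |(1 + d : ℤ)| < (N : ℤ) := by
    rw [abs_of_nonneg (by positivity), hN]
    push_cast
    linarith
  have hN' : ∀ {j : ℤ}, |j| < N → ∀ n : ℕ, |j| < ((n + N : ℕ) : ℤ) := by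
    intro j hj n
    push_cast
    linarith
  -- finiteness
  have hA : AT T ≠ ∞ := AT_ne_top hT
  have hB : BT T ≤ 1 := BT_le_one hT
  have t01 := P2E_ne_top hT 0 1 Set.univ W ∅
  have t0d := P2E_ne_top hT 0 (1 + d) Set.univ W ∅
  have t1d := P2E_ne_top hT 1 (1 + d) Set.univ W ∅
  have t3 := Q2E_ne_top hT 0 1 Set.univ W (Q := fun Z => BrE (St T) Z (foot oo up (1 + d)) up Set.univ)
    ENNReal.one_ne_top (fun Z => ((gf_mono brE_sub).trans (HexW.gf_Br_le_one h0 hT (1 + d) Z)).trans hB) ∅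
  have tL := Q2E_ne_top hT 0 1 Set.univ W (Q := fun Z => DnL (St T) Z (foot oo up (1 + d)) up)
    hA (fun Z => (gf_mono (fun _ ht => ht.1)).trans (HexW.gf_Dn_le h0 (1 + d) Z)) ∅
  have tR := Q2E_ne_top hT 0 1 Set.univ W (Q := fun Z => DnR (St T) Z (foot oo up (1 + d)) up)
    hA (fun Z => (gf_mono (fun _ ht => ht.1)).trans (HexW.gf_Dn_le h0 (1 + d) Z)) ∅
  -- limits
  have l01 := (ENNReal.tendsto_toReal t01).comp ((up_P2E (v0 := oo) h0 hT k0 k1 Set.univ W).tendsto ∅)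
  have l0d := (ENNReal.tendsto_toReal t0d).comp ((up_P2E (v0 := oo) h0 hT k0 kd Set.univ W).tendsto ∅)
  have l1d := (ENNReal.tendsto_toReal t1d).comp ((up_P2E (v0 := oo) h0 hT k1 kd Set.univ W).tendsto ∅)
  have l3 := (ENNReal.tendsto_toReal t3).comp ((up_Q2E (v0 := oo) h0 hT k0 k1 Set.univ W
    (fun X => inc_BrE h0 hT kd Set.univ X)).tendsto ∅)
  have lL := (ENNReal.tendsto_toReal tL).comp ((up_Q2E (v0 := oo) h0 hT k0 k1 Set.univ W
    (fun X => HexW.inc_DnL h0 hT kd X)).tendsto ∅)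
  have lR := (ENNReal.tendsto_toReal tR).comp ((up_Q2E (v0 := oo) h0 hT k0 k1 Set.univ W
    (fun X => HexW.inc_DnR h0 hT kd X)).tendsto ∅)
  have le0 := (ENNReal.tendsto_toReal ENNReal.zero_ne_top).comp
    (errE_tendsto (v0 := oo) h0 hT k1 kd k0 Set.univ W)
  have le1 := (ENNReal.tendsto_toReal ENNReal.zero_ne_top).comp
    (errE_tendsto (v0 := oo) h0 hT k0 k1 kd Set.univ W)
  have hleft := (((l01.sub l3).const_mul (Real.sin (Real.pi / 8))).sub lL).add (lR.div_const (Real.sqrt 2))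
  have hright := (((l0d.sub l1d).const_mul (Real.sin (3 * Real.pi / 8))).add le0).add le1
  have hlim := le_of_tendsto_of_tendsto' hleft hright (by
    intro n
    have h := T3F_fin (Ω := trapF (v0 := oo) h0 T (n + N)) (v0 := oo) (d0 := up) (d := d) W hd (by
      rintro k (rfl | rfl | rfl)
      · exact HexW.trap_good_foot h0 hT (hN' k0 n)
      · exact HexW.trap_good_foot h0 hT (hN' k1 n)
      · exact HexW.trap_good_foot h0 hT (hN' kd n))
    rw [trapF_coe] at h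
    exact h)
  simp only [ENNReal.toReal_zero, add_zero] at hlim
  exact hlim

lemma gf_BrE_le {T : ℕ} (k : ℤ) (W X : Set Pt) : gf (BrE (St T) X (foot oo up k) up W) ≤ BT T := by
  refine (gf_mono brE_sub).trans ?_
  rw [← HexObs.gf_B HexW.up_mem (foot oo up k) T]
  apply gf_mono
  rintro t ⟨h1, h2, h3⟩
  rw [HexW.strip_foot]
  exact ⟨h1.mono Set.sdiff_subset, h2, h3⟩

lemma gf_BrE_ne_top {T : ℕ} (hT : 1 ≤ T) (k : ℤ) (W X : Set Pt) :
    gf (BrE (St T) X (foot oo up k) up W) ≠ ∞ :=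
  ne_top_of_le_ne_top (BT_ne_top hT) (gf_BrE_le k W X)

/-- TWO EXPLORERS, prescribed ends, in the strip. -/
theorem SEP {T : ℕ} (hT : 1 ≤ T) (W : Set Pt) :
    (gf (BrE (St T) ∅ (foot oo up 1) up W)).toReal - (P2E (St T) oo up 0 Set.univ 1 W ∅).toReal ≤
      (gf (BrE (St T) ∅ (foot oo up 0) up W)).toReal - (P2E (St T) oo up 0 W 1 Set.univ ∅).toReal := by
  have h0 := HexW.up_mem
  set N := 2 with hN
  have k0 : |(0 : ℤ)| < (N : ℤ) := by
    rw [abs_zero, hN]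
    norm_num
  have k1 : |(1 : ℤ)| < (N : ℤ) := by
    rw [abs_one, hN]
    norm_num
  have hN' : ∀ {j : ℤ}, |j| < N → ∀ n : ℕ, |j| < ((n + N : ℕ) : ℤ) := by
    intro j hj n
    push_cast
    linarith
  have t0 := gf_BrE_ne_top hT 0 W ∅
  have t1 := gf_BrE_ne_top hT 1 W ∅
  have t01 := P2E_ne_top hT 0 1 Set.univ W ∅
  have t10 := P2E_ne_top hT 0 1 W Set.univ ∅
  have l0 := (ENNReal.tendsto_toReal t0).comp ((HexW.up_gf (fun X => inc_BrE (v0 := oo) h0 hT k0 W X)).tendsto ∅)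
  have l1 := (ENNReal.tendsto_toReal t1).comp ((HexW.up_gf (fun X => inc_BrE (v0 := oo) h0 hT k1 W X)).tendsto ∅)
  have l01 := (ENNReal.tendsto_toReal t01).comp ((up_P2E (v0 := oo) h0 hT k0 k1 Set.univ W).tendsto ∅)
  have l10 := (ENNReal.tendsto_toReal t10).comp ((up_P2E (v0 := oo) h0 hT k0 k1 W Set.univ).tendsto ∅)
  have le0 := (ENNReal.tendsto_toReal ENNReal.zero_ne_top).comp (err1_tendsto (v0 := oo) h0 hT k1 k0 W)
  have hleft := (l1.sub l01).const_mul (Real.sin (3 * Real.pi / 8))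
  have hright := ((l0.sub l10).const_mul (Real.sin (3 * Real.pi / 8))).add le0
  have hlim := le_of_tendsto_of_tendsto' hleft hright (by
    intro n
    have h := SEP_fin (Ω := trapF (v0 := oo) h0 T (n + N)) (v0 := oo) (d0 := up) W
      (HexW.trap_good_foot h0 hT (hN' k0 n)) (HexW.trap_good_foot h0 hT (hN' k1 n))
    rw [trapF_coe] at h
    exact h)
  simp only [ENNReal.toReal_zero, add_zero] at hlim
  have hs : 0 < Real.sin (3 * Real.pi / 8) := by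
    apply Real.sin_pos_of_pos_of_lt_pi <;> linarith [Real.pi_pos]
  exact le_of_mul_le_mul_left hlim hs

end Ex

end HexObs
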