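import Pool.Agent.HexSPR.Sum

/-!
Repulsion of two bridges when the right one ends far away, and the decay of the tail of the end.
-/

set_option autoImplicit false

namespace HexObs

namespace Ex

open Complex Finset ENNReal

/-- the tail of the end of a bridge. -/
noncomputable def mT (T : ℕ) (z : ℤ) : ℝ := (mE T z).toReal

/-- pairs of bridges from neighbouring feet, the right one with end at least z. -/
noncomputable def yT (T : ℕ) (z : ℤ) : ℝ := (YE T z).toReal

/-- the sum of the weights. -/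
noncomputable def VT (D : ℕ) : ℝ := ∑ r ∈ range D, bT (2 * (r + 1))

lemma mT_nonneg (T : ℕ) (z : ℤ) : 0 ≤ mT T z := ENNReal.toReal_nonneg

lemma yT_nonneg (T : ℕ) (z : ℤ) : 0 ≤ yT T z := ENNReal.toReal_nonneg

lemma mT_anti {T : ℕ} (hT : 1 ≤ T) {z z' : ℤ} (h : z ≤ z') : mT T z' ≤ mT T z :=
  ENNReal.toReal_mono (mE_ne_top hT z) (mE_anti h)

lemma yT_anti {T : ℕ} (hT : 1 ≤ T) {z z' : ℤ} (h : z ≤ z') : yT T z' ≤ yT T z :=
  ENNReal.toReal_mono (YE_ne_top hT z) (YE_anti h)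

lemma mT_le {T : ℕ} (hT : 1 ≤ T) (z : ℤ) : mT T z ≤ bT T := ENNReal.toReal_mono (BT_ne_top hT) (mE_le T z)

lemma yT_le {T : ℕ} (hT : 1 ≤ T) (z : ℤ) : yT T z ≤ mT T (z - 2) * bT T := by
  unfold yT mT bT
  rw [← ENNReal.toReal_mul]
  exact ENNReal.toReal_mono (ENNReal.mul_ne_top (mE_ne_top hT _) (BT_ne_top hT)) (YE_le T z)

/-- the tail drops by at most the weight of the pairs. -/
theorem mT_step {T : ℕ} (hT : 1 ≤ T) (z : ℤ) : mT T (z - 2) - mT T z ≤ yT T z := by
  have h := SEP hT (hl z)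
  rw [mE_foot, mul_one] at h
  have h2 : 0 ≤ (P2E (St T) oo up 0 (hl z) 1 Set.univ ∅).toReal := ENNReal.toReal_nonneg
  have h3 : (gf (BrE (St T) ∅ (foot oo up 0) up (hl z))).toReal = mT T z := rfl
  have h4 : (mE T (z - 2)).toReal = mT T (z - 2) := rfl
  have h5 : (P2E (St T) oo up 0 Set.univ 1 (hl z) ∅).toReal = yT T z := rfl
  rw [h3, h4, h5] at h
  linarith

/-- the tail drops by at most the factor 1 - u. -/
theorem mT_ratio {T : ℕ} (hT : 1 ≤ T) (z : ℤ) : (1 - bT T) * mT T (z - 2) ≤ mT T z := by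
  have h1 := mT_step hT z
  have h2 := yT_le hT z
  linarith

/-- (STAR): repulsion when the right bridge ends far away. -/
theorem star {T : ℕ} (hT : 1 ≤ T) {D : ℕ} (hD : D ≤ T / 2) (z : ℤ) :
    (Real.sqrt 2 - 1) ^ 3 * (yT T (z + 2 * D) * VT D) ≤ bT T * mT T (z - 2) := by
  have hA := ineqAE hT z D
  have hB := ineqB hT D
  have hc := W47.cos8_pos
  have hs2 : 1 < Real.sqrt 2 := by
    rw [Real.lt_sqrt (by norm_num)]; norm_num
  have h1s : 0 < 1 - 1 / Real.sqrt 2 := by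
    have : 1 / Real.sqrt 2 < 1 := by rw [div_lt_one (by linarith)]; exact hs2
    linarith
  set Y := yT T (z + 2 * D) with hY
  have hY0 : 0 ≤ Y := yT_nonneg _ _
  set S := ∑ r ∈ range D, (sc T (r + 1)).toReal with hS
  set TL := ∑ r ∈ range D, (tail T (r + 1)).toReal with hTL
  -- the tails
  have h1 : Y * TL ≤ ∑ d ∈ range D, (YE T (z + 2 * (d + 1))).toReal * (tail T (d + 1)).toReal := by
    rw [hTL, Finset.mul_sum]
    apply Finset.sum_le_sum
    intro d hd
    rw [Finset.mem_range] at hd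
    apply mul_le_mul_of_nonneg_right _ ENNReal.toReal_nonneg
    apply yT_anti hT
    have : (d : ℤ) + 1 ≤ D := by exact_mod_cast hd
    linarith
  -- the right hand side
  have h2 : (P2E (St T) oo up 0 Set.univ (1 + D) (hl (z + 2 * D)) ∅).toReal ≤ mT T (z - 2) * bT T := by
    have h3 := P2E_le_prod T 0 (1 + D) (hl (z + 2 * D))
    rw [mE_foot] at h3
    have e : z + 2 * (D : ℤ) - 2 * (1 + D) = z - 2 := by ring
    rw [e] at h3
    unfold mT bT
    rw [← ENNReal.toReal_mul]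
    exact ENNReal.toReal_mono (ENNReal.mul_ne_top (mE_ne_top hT _) (BT_ne_top hT)) h3
  have h3 : VT D ≤ 2 * Real.cos (Real.pi / 8) * S := by
    rw [VT, hS, Finset.mul_sum]
    apply Finset.sum_le_sum
    intro r hr
    rw [Finset.mem_range] at hr
    exact triangle (by omega) (by omega)
  rw [W47.sin3] at hA
  have hYE0 : 0 ≤ (YE T z).toReal := ENNReal.toReal_nonneg
  have h4 : (1 - 1 / Real.sqrt 2) * (Y * ((Real.sqrt 2 - 1) * S)) ≤
      Real.cos (Real.pi / 8) * (mT T (z - 2) * bT T) := by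
    calc (1 - 1 / Real.sqrt 2) * (Y * ((Real.sqrt 2 - 1) * S)) ≤ (1 - 1 / Real.sqrt 2) * (Y * TL) :=
          mul_le_mul_of_nonneg_left (mul_le_mul_of_nonneg_left hB hY0) h1s.le
      _ ≤ (1 - 1 / Real.sqrt 2) *
          ∑ d ∈ range D, (YE T (z + 2 * (d + 1))).toReal * (tail T (d + 1)).toReal :=
          mul_le_mul_of_nonneg_left h1 h1s.le
      _ ≤ _ := hA
      _ ≤ Real.cos (Real.pi / 8) * (mT T (z - 2) * bT T) := by
          apply mul_le_mul_of_nonneg_left _ hc.le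
          linarith
  have h5 : (1 - 1 / Real.sqrt 2) * (Real.sqrt 2 - 1) * (Y * VT D) ≤
      2 * Real.cos (Real.pi / 8) ^ 2 * (bT T * mT T (z - 2)) := by
    calc (1 - 1 / Real.sqrt 2) * (Real.sqrt 2 - 1) * (Y * VT D) ≤
        (1 - 1 / Real.sqrt 2) * (Real.sqrt 2 - 1) * (Y * (2 * Real.cos (Real.pi / 8) * S)) := by
          apply mul_le_mul_of_nonneg_left
          · exact mul_le_mul_of_nonneg_left h3 hY0
          · exact mul_nonneg h1s.le (by linarith)
      _ = 2 * Real.cos (Real.pi / 8) * ((1 - 1 / Real.sqrt 2) * (Y * ((Real.sqrt 2 - 1) * S))) := by ring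
      _ ≤ 2 * Real.cos (Real.pi / 8) * (Real.cos (Real.pi / 8) * (mT T (z - 2) * bT T)) :=
          mul_le_mul_of_nonneg_left h4 (by positivity)
      _ = _ := by ring
  rw [← W47.const_eq, div_mul_eq_mul_div, div_le_iff₀ (by positivity)]
  linarith

lemma VT_pos {D : ℕ} (hD : 1 ≤ D) : 0 < VT D := by
  unfold VT
  apply Finset.sum_pos
  · intro r _
    exact bT_pos (by omega)
  · exact ⟨0, Finset.mem_range.2 hD⟩

/-- the decrease of the tail over the distance 2N, N at most T/2. -/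
theorem mT_drop {T : ℕ} (hT : 1 ≤ T) {N : ℕ} (hN : N ≤ T / 2) (z : ℤ) :
    (Real.sqrt 2 - 1) ^ 3 * (mT T z - mT T (z + 2 * N)) ≤
      mT T (z - 2) * ∑ D ∈ range N, bT T / VT (D + 1) := by
  have hk : 0 < (Real.sqrt 2 - 1) ^ 3 := by
    have : 1 < Real.sqrt 2 := by
      rw [Real.lt_sqrt (by norm_num)]; norm_num
    have : 0 < Real.sqrt 2 - 1 := by linarith
    positivity
  have h1 : mT T z - mT T (z + 2 * N) = ∑ D ∈ range N, (mT T (z + 2 * D) - mT T (z + 2 * (D + 1 : ℕ))) := by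
    rw [Finset.sum_range_sub' (fun D => mT T (z + 2 * (D : ℕ)))]
    simp
  rw [h1, Finset.mul_sum, Finset.mul_sum]
  apply Finset.sum_le_sum
  intro D hD
  rw [Finset.mem_range] at hD
  have h2 := mT_step hT (z + 2 * ((D + 1 : ℕ) : ℤ))
  have e : z + 2 * ((D + 1 : ℕ) : ℤ) - 2 = z + 2 * D := by
    push_cast
    ring
  rw [e] at h2
  have h3 := star hT (D := D + 1) (by omega) z
  have hV := VT_pos (D := D + 1) (by omega)
  have h4 : (Real.sqrt 2 - 1) ^ 3 * yT T (z + 2 * ((D + 1 : ℕ) : ℤ)) ≤ mT T (z - 2) * (bT T / VT (D + 1)) := by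
    rw [← mul_div_assoc, le_div_iff₀ hV]
    linarith
  exact le_trans (mul_le_mul_of_nonneg_left h2 hk.le) h4

end Ex

end HexObs
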