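import Pool.Agent.HexSPR.Lim
import Pool.Agent.W47.Final

/-!
Summation of the three explorer inequality with prescribed ends.
-/

set_option autoImplicit false

namespace HexObs

namespace Ex

open Complex Finset ENNReal

/-- the half line of ends. -/
def hl (z : ℤ) : Set Pt := {w | z ≤ w.1}

lemma hl_anti {z z' : ℤ} (h : z ≤ z') : hl z' ⊆ hl z := fun _ hw => le_trans h hw

/-! translations -/

lemma BrE_trans (Ω X : Set Pt) (v c d0 : Pt) (W : Set Pt) :
    BrE Ω X (v + c) d0 W = BrE ((fun p => p + c) ⁻¹' Ω) ((fun p => p + c) ⁻¹' X) v d0 ((fun p => p + c) ⁻¹' W) := by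
  ext t
  unfold BrE
  rw [HexW.Br_trans]
  simp only [Set.mem_ofPred_eq]
  rw [HexW.tip_trans]
  rfl

lemma overE_trans (Ω : Set Pt) (v c d0 : Pt) (W : Set Pt) {F G : Set Pt → ℝ≥0∞}
    (hFG : ∀ Y, F Y = G ((fun p => p + c) ⁻¹' Y)) (X : Set Pt) :
    overE Ω (v + c) d0 W F X =
      overE ((fun p => p + c) ⁻¹' Ω) v d0 ((fun p => p + c) ⁻¹' W) G ((fun p => p + c) ⁻¹' X) := by
  unfold overE
  rw [BrE_trans]
  apply tsum_congr
  intro s
  congr 1
  funext s
  rw [hFG, Set.preimage_union, HexW.vis_trans]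

lemma P2E_trans (T : ℕ) (a b k : ℤ) (Wa Wb : Set Pt) :
    P2E (St T) oo up (a + k) Wa (b + k) Wb ∅ =
      P2E (St T) oo up a ((fun p => p + k • hz up) ⁻¹' Wa) b ((fun p => p + k • hz up) ⁻¹' Wb) ∅ := by
  unfold P2E St
  rw [HexW.foot_add, HexW.foot_add]
  rw [overE_trans (strip oo up T) (foot oo up a) (k • hz up) up Wa
    (G := fun Y => gf (BrE (strip oo up T) Y (foot oo up b) up ((fun p => p + k • hz up) ⁻¹' Wb))),
    HexW.strip_trans, Set.preimage_empty]
  intro Y
  rw [BrE_trans, HexW.strip_trans]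

lemma gf_BrE_trans (T : ℕ) (a k : ℤ) (W : Set Pt) :
    gf (BrE (St T) ∅ (foot oo up (a + k)) up W) =
      gf (BrE (St T) ∅ (foot oo up a) up ((fun p => p + k • hz up) ⁻¹' W)) := by
  unfold St
  rw [HexW.foot_add, BrE_trans, HexW.strip_trans, Set.preimage_empty]

lemma hl_trans (k z : ℤ) : (fun p => p + k • hz up) ⁻¹' (hl z) = hl (z - 2 * k) := by
  ext p
  unfold hl
  have h : hz up = (2, -1) := by decide
  simp only [Set.mem_preimage, Set.mem_ofPred_eq, h, Prod.fst_add, Prod.smul_fst, smul_eq_mul]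
  constructor <;> intro h <;> linarith

lemma univ_trans (k : ℤ) : (fun p : Pt => p + k • hz up) ⁻¹' Set.univ = Set.univ := rfl

/-! the quantities -/

/-- bridges from foot 0 with end at least z. -/
noncomputable def mE (T : ℕ) (z : ℤ) : ℝ≥0∞ := gf (BrE (St T) ∅ (foot oo up 0) up (hl z))

/-- disjoint pairs from feet 0 and 1, the right bridge with end at least z. -/
noncomputable def YE (T : ℕ) (z : ℤ) : ℝ≥0∞ := P2E (St T) oo up 0 Set.univ 1 (hl z) ∅

/-- ... together with an arc. -/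
noncomputable def A3E (T : ℕ) (z : ℤ) (i j : ℤ) : ℝ≥0∞ :=
  Q2E (St T) oo up 0 Set.univ 1 (hl z) (fun Z => Arc (St T) Z (foot oo up i) up (foot oo up j)) ∅

/-- ... together with a walk landing on the left. -/
noncomputable def AinE (T : ℕ) (z : ℤ) (d : ℕ) : ℝ≥0∞ :=
  Q2E (St T) oo up 0 Set.univ 1 (hl z) (fun Z => DnL (St T) Z (foot oo up (1 + d)) up) ∅

/-- ... together with a walk landing on the right. -/
noncomputable def AoutE (T : ℕ) (z : ℤ) (d : ℕ) : ℝ≥0∞ :=
  Q2E (St T) oo up 0 Set.univ 1 (hl z) (fun Z => DnR (St T) Z (foot oo up (1 + d)) up) ∅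

lemma mE_le (T : ℕ) (z : ℤ) : mE T z ≤ BT T := gf_BrE_le 0 _ _

lemma mE_ne_top {T : ℕ} (hT : 1 ≤ T) (z : ℤ) : mE T z ≠ ∞ := gf_BrE_ne_top hT 0 _ _

lemma YE_ne_top {T : ℕ} (hT : 1 ≤ T) (z : ℤ) : YE T z ≠ ∞ := P2E_ne_top hT 0 1 _ _ _

lemma mE_foot (T : ℕ) (k z : ℤ) : gf (BrE (St T) ∅ (foot oo up k) up (hl z)) = mE T (z - 2 * k) := by
  have h := gf_BrE_trans T 0 k (hl z)
  rw [zero_add, hl_trans] at h
  exact h

/-- pairs, the left one free: bounded by the product. -/
lemma P2E_le_prod (T : ℕ) (a b : ℤ) (W : Set Pt) :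
    P2E (St T) oo up a Set.univ b W ∅ ≤ gf (BrE (St T) ∅ (foot oo up b) up W) * BT T := by
  unfold P2E
  exact overE_le (fun Y => gf_mono (brE_anti (Set.empty_subset Y))) (gf_BrE_le a _ _)

lemma YE_le (T : ℕ) (z : ℤ) : YE T z ≤ mE T (z - 2) * BT T := by
  have h := P2E_le_prod T 0 1 (hl z)
  rw [mE_foot, mul_one] at h
  exact h

lemma YE_anti {T : ℕ} {z z' : ℤ} (h : z ≤ z') : YE T z' ≤ YE T z := by
  unfold YE P2E
  exact overE_mono (le_refl _) (fun _ => gf_mono (brE_mono (hl_anti h))) ∅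

lemma mE_anti {T : ℕ} {z z' : ℤ} (h : z ≤ z') : mE T z' ≤ mE T z := gf_mono (brE_mono (hl_anti h))

/-! landing feet -/

lemma overE_congr {Ω : Set Pt} {v d0 : Pt} {W : Set Pt} {F G : Set Pt → ℝ≥0∞} {X : Set Pt}
    (h : ∀ s ∈ BrE Ω X v d0 W, F (X ∪ vis v d0 s) = G (X ∪ vis v d0 s)) :
    overE Ω v d0 W F X = overE Ω v d0 W G X := by
  unfold overE
  apply tsum_congr
  intro s
  by_cases hs : s ∈ BrE Ω X v d0 W
  · rw [Set.indicator_of_mem hs, Set.indicator_of_mem hs, h s hs]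
  · rw [Set.indicator_of_notMem hs, Set.indicator_of_notMem hs]

lemma overE_tsum {ι : Type*} (Ω : Set Pt) (v d0 : Pt) (W : Set Pt) (F : ι → Set Pt → ℝ≥0∞) (X : Set Pt) :
    overE Ω v d0 W (fun Y => ∑' i, F i Y) X = ∑' i, overE Ω v d0 W (F i) X := by
  unfold overE
  rw [ENNReal.tsum_comm]
  apply tsum_congr
  intro s
  by_cases hs : s ∈ BrE Ω X v d0 W
  · rw [Set.indicator_of_mem hs, ← ENNReal.tsum_mul_left]
    apply tsum_congr
    intro i
    rw [Set.indicator_of_mem hs]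
  · rw [Set.indicator_of_notMem hs]
    symm
    rw [ENNReal.tsum_eq_zero]
    intro i
    rw [Set.indicator_of_notMem hs]

lemma Q2E_congr {Ω : Set Pt} {v0 d0 : Pt} {a b : ℤ} {Wa Wb : Set Pt} {D E : Set Pt → Set (List Bool)}
    (h : ∀ Y : Set Pt, ∀ s ∈ Br Ω Y (foot v0 d0 b) d0,
      gf (D (Y ∪ vis (foot v0 d0 b) d0 s)) = gf (E (Y ∪ vis (foot v0 d0 b) d0 s))) (X : Set Pt) :
    Q2E Ω v0 d0 a Wa b Wb D X = Q2E Ω v0 d0 a Wa b Wb E X := by
  unfold Q2E
  apply overE_congr
  intro s _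
  exact overE_congr (fun t ht => h _ t ht.1)

lemma Q2E_iUnion {ι : Type*} {Ω : Set Pt} {v0 d0 : Pt} {a b : ℤ} {Wa Wb : Set Pt}
    {D : ι → Set Pt → Set (List Bool)} (hD : ∀ Z i j, ∀ t, t ∈ D i Z → t ∈ D j Z → i = j) (X : Set Pt) :
    Q2E Ω v0 d0 a Wa b Wb (fun Z => ⋃ i, D i Z) X = ∑' i, Q2E Ω v0 d0 a Wa b Wb (D i) X := by
  have h1 : (fun Y => overE Ω (foot v0 d0 b) d0 Wb (fun Z => gf (⋃ i, D i Z)) Y) =
      fun Y => ∑' i, overE Ω (foot v0 d0 b) d0 Wb (fun Z => gf (D i Z)) Y := by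
    funext Y
    rw [← overE_tsum]
    congr 1
    funext Z
    exact K1.gf_iUnion (fun i => D i Z) (hD Z)
  unfold Q2E
  rw [h1, overE_tsum]

theorem AinE_eq {T d : ℕ} (hT : 1 ≤ T) (z : ℤ) :
    AinE T z d = ∑ j ∈ Finset.Ioo (1 : ℤ) (1 + d), A3E T z (1 + d) j := by
  have e1 : AinE T z d = Q2E (St T) oo up 0 Set.univ 1 (hl z)
      (fun Z => ⋃ j : (Finset.Ioo (1 : ℤ) (1 + d) : Finset ℤ),
      Arc (St T) Z (foot oo up (1 + d)) up (foot oo up (j : ℤ))) ∅ := by
    unfold AinE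
    apply Q2E_congr
    intro Y s hs
    congr 1
    ext t
    rw [Set.mem_iUnion]
    constructor
    · rintro ⟨h1, h2⟩
      obtain ⟨b, hb, hside⟩ := dn_br_side K1.up_dirs hT h1 hs Set.subset_union_right
      rw [hb, cross_foot K1.up_dirs] at h2
      refine ⟨⟨b, ?_⟩, h1, hb⟩
      rw [Finset.mem_Ioo]
      omega
    · rintro ⟨⟨j, hj⟩, h1, h2⟩
      refine ⟨h1, ?_⟩
      rw [Finset.mem_Ioo] at hj
      rw [h2, cross_foot K1.up_dirs]
      simp only
      omega
  rw [e1, Q2E_iUnion (D := fun (j : (Finset.Ioo (1 : ℤ) (1 + d) : Finset ℤ)) Z =>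
      Arc (St T) Z (foot oo up (1 + d)) up (foot oo up (j : ℤ)))]
  · rw [tsum_fintype]
    exact Finset.sum_coe_sort (Finset.Ioo (1 : ℤ) (1 + d)) (fun j => A3E T z (1 + d) j)
  · intro Z i j t hi hj
    exact Subtype.ext (K1.arc_unique hi hj)

theorem AoutE_eq {T d : ℕ} (z : ℤ) :
    AoutE T z d = ∑' k : ℕ, A3E T z (1 + d) (1 + d + 1 + k) := by
  have e1 : AoutE T z d = Q2E (St T) oo up 0 Set.univ 1 (hl z) (fun Z => ⋃ k : ℕ,
      Arc (St T) Z (foot oo up (1 + d)) up (foot oo up (1 + d + 1 + k))) ∅ := by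
    unfold AoutE
    apply Q2E_congr
    intro Y s hs
    congr 1
    ext t
    rw [Set.mem_iUnion]
    constructor
    · rintro ⟨h1, h2⟩
      obtain ⟨b, hb⟩ := dn_tip_foot K1.up_dirs h1
      rw [hb, cross_foot K1.up_dirs] at h2
      refine ⟨(b - (1 + d + 1)).toNat, h1, ?_⟩
      rw [hb]
      congr 1
      omega
    · rintro ⟨k, h1, h2⟩
      refine ⟨h1, ?_⟩
      rw [h2, cross_foot K1.up_dirs]
      omega
  rw [e1, Q2E_iUnion (D := fun (k : ℕ) Z => Arc (St T) Z (foot oo up (1 + d)) up (foot oo up (1 + d + 1 + k)))]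
  · rfl
  · intro Z i j t hi hj
    have := K1.arc_unique hi hj
    omega

theorem A3E_symm (T : ℕ) (z i j : ℤ) : A3E T z i j = A3E T z j i := by
  have h : ∀ Z : Set Pt, gf (Arc (St T) Z (foot oo up i) up (foot oo up j)) =
      gf (Arc (St T) Z (foot oo up j) up (foot oo up i)) := by
    intro Z
    rw [k2_arc, k2_arc]
    have h1 := gf_rev (Ω := St T \ Z) (v0 := foot oo up i) (d0 := up) (w := foot oo up j) (e := -up)
      (fun h => k2_foot_notMem T i h.1) (fun h => k2_foot_notMem T j h.1)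
    rwa [neg_neg] at h1
  unfold A3E Q2E
  simp only [h]

theorem A3E_anti {T : ℕ} {z z' : ℤ} (h : z ≤ z') (i j : ℤ) : A3E T z' i j ≤ A3E T z i j := by
  unfold A3E Q2E
  exact overE_mono (le_refl _) (fun Y => overE_mono (hl_anti h) (fun _ => le_refl _) Y) ∅

/-- pairs and a further word of bounded weight. -/
lemma Q2E_le_mul {T : ℕ} {z : ℤ} {D : Set Pt → Set (List Bool)} {c : ℝ≥0∞} (hD : ∀ Z, gf (D Z) ≤ c) :
    Q2E (St T) oo up 0 Set.univ 1 (hl z) D ∅ ≤ YE T z * c := by
  unfold Q2E YE P2E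
  have h3 := overE_mono (Ω := St T) (v := foot oo up 0) (d0 := up) (le_refl Set.univ)
    (F := fun Y => overE (St T) (foot oo up 1) up (hl z) (fun Z => gf (D Z)) Y)
    (G := fun Y => c * gf (BrE (St T) Y (foot oo up 1) up (hl z))) (fun Y => overE_le hD (le_refl _)) ∅
  refine h3.trans (le_of_eq ?_)
  rw [overE_const_mul, mul_comm]

theorem A3E_le (T : ℕ) (z i j : ℤ) (k : ℕ) (hk : (k : ℤ) = |j - i|) :
    A3E T z i j ≤ YE T z * GG T k := by
  apply Q2E_le_mul
  intro Z
  rw [← k3_gf T i j k hk]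
  apply gf_mono
  rintro t ⟨ht, ht'⟩
  exact ⟨dn_anti (Set.empty_subset Z) ht, ht'⟩

theorem Pi3E_le {T : ℕ} (z : ℤ) (d : ℕ) :
    Q2E (St T) oo up 0 Set.univ 1 (hl z) (fun Z => BrE (St T) Z (foot oo up (1 + d)) up Set.univ) ∅ ≤
      YE T z * BT T :=
  Q2E_le_mul (fun _ => gf_BrE_le (1 + d) _ _)

/-- THE SUM over the distance. -/
theorem ineqAE {T : ℕ} (hT : 1 ≤ T) (z : ℤ) (D : ℕ) :
    (1 - 1 / Real.sqrt 2) * ∑ d ∈ Finset.range D, (YE T (z + 2 * (d + 1))).toReal * (tail T (d + 1)).toReal ≤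
      Real.sin (3 * Real.pi / 8) *
        ((P2E (St T) oo up 0 Set.univ (1 + D) (hl (z + 2 * D)) ∅).toReal - (YE T z).toReal) := by
  -- finiteness
  have hid := BT_add_AT hT
  rw [cos38] at hid
  have hs := sin8_pos
  have hBTtop : BT T ≠ ∞ := BT_ne_top hT
  have hATtop : AT T ≠ ∞ := AT_ne_top hT
  have harcs : AT T = 2 * ∑' k : ℕ, GG T (k + 1) := arcs_total hT
  set a : ℝ≥0∞ := ∑' k : ℕ, GG T (k + 1) with ha
  have hatop : a ≠ ∞ := by
    intro h
    rw [h, ENNReal.mul_top (by norm_num)] at harcs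
    exact hATtop harcs
  have htail : ∀ d, tail T (d + 1) ≠ ∞ := by
    intro d
    have h := head_add_tail T d
    exact ne_top_of_le_ne_top hatop (by rw [ha, ← h]; exact le_add_self)
  -- the kernel
  set P : ℕ → ℝ≥0∞ := fun d => YE T (z + 2 * (d + 1)) with hP
  have hPtop : ∀ d, P d ≠ ∞ := fun d => YE_ne_top hT _
  set K : ℕ → ℕ → ℕ → ℝ≥0∞ := fun d x y => A3E T (z + 2 * (d + 1)) (2 + (x : ℤ)) (2 + (y : ℤ)) with hK
  have hKsym : ∀ d x y, K d x y = K d y x := fun d x y => A3E_symm _ _ _ _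
  have hKanti : ∀ d d' x y, d ≤ d' → K d' x y ≤ K d x y := by
    intro d d' x y h
    apply A3E_anti
    have : (d : ℤ) ≤ d' := by exact_mod_cast h
    linarith
  set In : ℕ → ℝ≥0∞ := fun d => AinE T (z + 2 * (d + 1)) (d + 1) with hIn
  set Out : ℕ → ℝ≥0∞ := fun d => AoutE T (z + 2 * (d + 1)) (d + 1) with hOut
  have hin : ∀ d, In d = ∑ y ∈ range d, K d d y := by
    intro d
    simp only [hIn]
    rw [AinE_eq hT, sum_Ioo_int]
    apply Finset.sum_congr rfl
    intro y _
    show A3E T (z + 2 * (d + 1)) (1 + ((d + 1 : ℕ) : ℤ)) (2 + (y : ℤ)) =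
      A3E T (z + 2 * (d + 1)) (2 + (d : ℤ)) (2 + (y : ℤ))
    congr 1
    push_cast
    ring
  have hout : ∀ d, Out d = ∑' k : ℕ, K d d (d + 1 + k) := by
    intro d
    simp only [hOut]
    rw [AoutE_eq]
    apply tsum_congr
    intro k
    show A3E T (z + 2 * (d + 1)) (1 + ((d + 1 : ℕ) : ℤ)) (1 + ((d + 1 : ℕ) : ℤ) + 1 + k) =
      A3E T (z + 2 * (d + 1)) (2 + (d : ℤ)) (2 + ((d + 1 + k : ℕ) : ℤ))
    congr 1
    · push_cast
      ring
    · push_cast
      ring
  have hKle : ∀ d x y, y < x → K d x y ≤ P d * GG T (x - y) := by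
    intro d x y hxy
    apply A3E_le
    have : (2 + (y : ℤ)) - (2 + (x : ℤ)) = -((x : ℤ) - y) := by ring
    rw [this, abs_neg, abs_of_nonneg (by omega)]
    omega
  -- finiteness of the arcs
  have hKout : ∀ d, Out d ≤ P d * a := by
    intro d
    rw [hout d, ha, ← ENNReal.tsum_mul_left]
    apply ENNReal.tsum_le_tsum
    intro k
    rw [hKsym]
    have := hKle d (d + 1 + k) d (by omega)
    have e : d + 1 + k - d = k + 1 := by omega
    rwa [e] at this
  have hKin : ∀ d, In d + P d * tail T (d + 1) ≤ P d * a := by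
    intro d
    have h1 : In d ≤ P d * ∑ y ∈ range d, GG T (y + 1) := by
      rw [hin d, Finset.mul_sum, ← Finset.sum_range_reflect (fun y => P d * GG T (y + 1)) d]
      apply Finset.sum_le_sum
      intro y hy
      rw [Finset.mem_range] at hy
      have := hKle d d y hy
      have e : d - 1 - y + 1 = d - y := by omega
      rw [e]
      exact this
    calc In d + P d * tail T (d + 1) ≤
        P d * ∑ y ∈ range d, GG T (y + 1) + P d * tail T (d + 1) := by gcongr
      _ = P d * a := by rw [← mul_add, head_add_tail, ha]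
  have hPa : ∀ d, P d * a ≠ ∞ := fun d => ENNReal.mul_ne_top (hPtop d) hatop
  have hintop : ∀ d, In d ≠ ∞ := fun d => ne_top_of_le_ne_top (hPa d) (le_trans le_self_add (hKin d))
  have houttop : ∀ d, Out d ≠ ∞ := fun d => ne_top_of_le_ne_top (hPa d) (hKout d)
  -- the sums
  have hS : ∑ d ∈ range D, In d ≤ ∑ d ∈ range D, Out d := by
    calc ∑ d ∈ range D, In d = ∑ d ∈ range D, ∑ y ∈ range d, K d d y :=
          Finset.sum_congr rfl (fun d _ => hin d)
      _ ≤ ∑ d ∈ range D, ∑ y ∈ range d, K (min d y) d y := by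
          apply Finset.sum_le_sum
          intro d _
          apply Finset.sum_le_sum
          intro y _
          exact hKanti _ _ _ _ (min_le_left d y)
      _ = ∑ d ∈ range D, ∑ y ∈ Finset.Ico (d + 1) D, K (min d y) d y :=
          kernel_swap (fun x y => K (min x y) x y)
            (fun x y => by
              show K (min x y) x y = K (min y x) y x
              rw [min_comm y x]
              exact hKsym _ _ _) D
      _ = ∑ d ∈ range D, ∑ y ∈ Finset.Ico (d + 1) D, K d d y := by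
          apply Finset.sum_congr rfl
          intro d _
          apply Finset.sum_congr rfl
          intro y hy
          rw [Finset.mem_Ico] at hy
          rw [min_eq_left (by omega)]
      _ ≤ ∑ d ∈ range D, Out d := by
          apply Finset.sum_le_sum
          intro d _
          rw [hout d, Finset.sum_Ico_eq_sum_range]
          exact ENNReal.sum_le_tsum _
  -- passage to the reals
  set u : ℝ := (BT T).toReal with hu
  set ar : ℝ := a.toReal with har
  set s : ℝ := Real.sin (Real.pi / 8) with hsdef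
  have hu_eq : u + s * (2 * ar) = 1 := by
    have h1 : (BT T + ENNReal.ofReal s * AT T).toReal = (1 : ℝ≥0∞).toReal := by rw [hid]
    rw [ENNReal.toReal_add hBTtop (ENNReal.mul_ne_top ENNReal.ofReal_ne_top hATtop),
      ENNReal.toReal_mul, ENNReal.toReal_ofReal hs.le, harcs, ENNReal.toReal_mul,
      ENNReal.toReal_one] at h1
    simpa using h1
  have hPi3r : ∀ d : ℕ, (Q2E (St T) oo up 0 Set.univ 1 (hl (z + 2 * (d + 1)))
      (fun Z => BrE (St T) Z (foot oo up (1 + ((d + 1 : ℕ) : ℤ))) up Set.univ) ∅).toReal ≤ (P d).toReal * u := by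
    intro d
    rw [hu, ← ENNReal.toReal_mul]
    exact ENNReal.toReal_mono (ENNReal.mul_ne_top (hPtop d) hBTtop) (Pi3E_le _ (d + 1))
  have hinr : ∀ d, (In d).toReal + (P d).toReal * (tail T (d + 1)).toReal ≤ (P d).toReal * ar := by
    intro d
    rw [har, ← ENNReal.toReal_mul, ← ENNReal.toReal_mul,
      ← ENNReal.toReal_add (hintop d) (ENNReal.mul_ne_top (hPtop d) (htail d))]
    exact ENNReal.toReal_mono (hPa d) (hKin d)
  have hSr : ∑ d ∈ range D, (In d).toReal ≤ ∑ d ∈ range D, (Out d).toReal := by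
    rw [← ENNReal.toReal_sum (fun d _ => hintop d), ← ENNReal.toReal_sum (fun d _ => houttop d)]
    exact ENNReal.toReal_mono (ENNReal.sum_ne_top.2 (fun d _ => houttop d)) hS
  -- the final computation
  set SI : ℝ := ∑ d ∈ range D, (In d).toReal with hSI
  set SO : ℝ := ∑ d ∈ range D, (Out d).toReal with hSO
  set ST : ℝ := ∑ d ∈ range D, (P d).toReal * (tail T (d + 1)).toReal with hST
  set SP : ℝ := ∑ d ∈ range D, (P d).toReal with hSP
  have hI : SI + ST ≤ SP * ar := by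
    rw [hSI, hST, hSP, ← Finset.sum_add_distrib, Finset.sum_mul]
    exact Finset.sum_le_sum (fun d _ => hinr d)
  set q : ℕ → ℝ := fun d => (P2E (St T) oo up 0 Set.univ (1 + d) (hl (z + 2 * d)) ∅).toReal with hq
  have hq0 : q 0 = (YE T z).toReal := by
    simp only [hq, YE, Nat.cast_zero, add_zero, mul_zero]
  have hsum : s * (SP - SP * u) - SI + SO / Real.sqrt 2 ≤
      Real.sin (3 * Real.pi / 8) * (q D - q 0) := by
    have h1 : ∑ d ∈ range D, (s * ((P d).toReal - (P d).toReal * u) - (In d).toReal +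
        (Out d).toReal / Real.sqrt 2) ≤
        ∑ d ∈ range D, Real.sin (3 * Real.pi / 8) * (q (d + 1) - q d) := by
      apply Finset.sum_le_sum
      intro d _
      have h2 := T3F hT (d := d + 1) (by omega) (hl (z + 2 * (d + 1)))
      have e2 : (P2E (St T) oo up 1 Set.univ (1 + ((d + 1 : ℕ) : ℤ)) (hl (z + 2 * (d + 1))) ∅).toReal = q d := by
        have h3 := P2E_trans T 0 (1 + (d : ℤ)) 1 Set.univ (hl (z + 2 * (d + 1)))
        rw [zero_add, hl_trans, univ_trans] at h3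
        simp only [hq]
        have e3 : 1 + ((d + 1 : ℕ) : ℤ) = 1 + (d : ℤ) + 1 := by
          push_cast
          ring
        rw [e3, h3]
        congr 3
        ring
      have e1 : (P2E (St T) oo up 0 Set.univ (1 + ((d + 1 : ℕ) : ℤ)) (hl (z + 2 * (d + 1))) ∅).toReal = q (d + 1) := by
        simp only [hq]
        push_cast
        rfl
      rw [e1, e2] at h2
      have e4 : (AinE T (z + 2 * (d + 1)) (d + 1)).toReal = (In d).toReal := rfl
      have e5 : (AoutE T (z + 2 * (d + 1)) (d + 1)).toReal = (Out d).toReal := rfl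
      have e6 : (YE T (z + 2 * (d + 1))).toReal = (P d).toReal := rfl
      unfold AinE at e4
      unfold AoutE at e5
      unfold YE at e6
      rw [e4, e5, e6] at h2
      have h4 := mul_le_mul_of_nonneg_left (hPi3r d) hs.le
      refine le_trans ?_ h2
      rw [mul_sub, mul_sub]
      linarith
    rw [← Finset.mul_sum, Finset.sum_range_sub, Finset.sum_add_distrib,
      Finset.sum_sub_distrib, ← Finset.sum_div, ← Finset.mul_sum, Finset.sum_sub_distrib, ← Finset.sum_mul] at h1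
    exact h1
  rw [← hq0]
  refine le_trans ?_ hsum
  have hsq : 0 < Real.sqrt 2 := by positivity
  have hc := one_sub_inv_sqrt
  rw [← hsdef] at hc
  have hdiv : SI / Real.sqrt 2 ≤ SO / Real.sqrt 2 := by gcongr
  have e1 : SI / Real.sqrt 2 = SI * (1 / Real.sqrt 2) := by ring
  have e2 : 1 / Real.sqrt 2 = 1 - 2 * s ^ 2 := by linarith
  rw [e1, e2] at hdiv
  rw [hc]
  have h5 : 2 * s ^ 2 * (SI + ST) ≤ 2 * s ^ 2 * (SP * ar) :=
    mul_le_mul_of_nonneg_left hI (by positivity)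
  have h6 : 2 * s ^ 2 * (SP * ar) = s * (SP - SP * u) := by
    have : 1 - u = s * (2 * ar) := by linarith
    have h7 : SP - SP * u = SP * (s * (2 * ar)) := by rw [← this]; ring
    rw [h7]
    ring
  nlinarith

end Ex

end HexObs
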